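import Pool.Agent.H83XI.Simple

set_option autoImplicit false

/-!
# Simplicity of the zeros on the line (companion of FWD and FWD2)
-/

open Complex Set MeasureTheory intervalIntegral Filter Topology
open scoped ComplexConjugate NNReal ENNReal

namespace Pool.Agent.H83XI

open Pool.Agent.W169.HF _root_.W327.HF _root_.Pool.Agent.W327.HF Pool.Agent.W131.HF

/-- FWDS: the logarithmic derivative of the half-line integral has positive real part -/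
def S_FWDS : Prop := ∀ K ϑ0 ϑ g X : ℝ, 1 ≤ K → 1 / 2 ≤ ϑ0 → ϑ0 ≤ 2 → 0 ≤ ϑ → ϑ ≤ ϑ0 → 0 < g → 1 ≤ X →
  ∃ R ℓ0 : ℝ, ∀ (ℓ G t : ℝ) (f : ℂ → ℂ), ℓ0 ≤ ℓ → UD K ϑ0 ℓ G f → 0 < t → 2 * ϑ + g ≤ 2 * t * ℓ →
    2 * t * ℓ ≤ X → (∀ u : ℂ, ϑ < u.re → |u.im| ≤ R → f u ≠ 0) →
    0 < (deriv (J t f) 0 * conj (J t f 0)).re

/-- FWD2S: the version with a majorant -/
def S_FWD2S : Prop := ∀ K ϑ0 ϑ M0 g X : ℝ, 1 ≤ K → 1 / 2 ≤ ϑ0 → ϑ0 ≤ 2 → 1 / 2 ≤ ϑ → ϑ ≤ 3 → 0 ≤ M0 →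
  M0 ≤ ϑ → 0 < g → g ≤ 1 → 1 ≤ X → ∃ κ R ℓ0 : ℝ, 0 < κ ∧ ∀ (ℓ G t : ℝ) (f : ℂ → ℂ), ℓ0 ≤ ℓ →
    UD K ϑ0 ℓ G f → Pf κ ϑ R ℓ G f → Mj κ ϑ M0 ℓ G f → 0 < t →
    2 * ϑ ^ 2 + g ≤ (2 * ϑ - M0) * (2 * t * ℓ) → 2 * t * ℓ ≤ X →
    0 < (deriv (J t f) 0 * conj (J t f 0)).re

lemma near_line {f : ℂ → ℂ} (hf : Slow f) {G t ℓ ζ κ X : ℝ} (hG : 0 < G) (ht : 0 < t) (hℓ : 0 < ℓ)
    (hζ : 0 < ζ) (hκ : 0 < κ) (hX : 0 < X)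
    (hlow : ∀ z ∈ Metric.ball (0 : ℂ) (ζ * ℓ), G * Real.exp (t * (ℓ + z.re) ^ 2 - ζ ^ 2 * X * ℓ) ≤ ‖J t f z‖)
    (hupp : ∀ z ∈ Metric.ball (0 : ℂ) (ζ * ℓ), ‖J t f z‖ ≤ G * Real.exp (t * (ℓ + z.re) ^ 2 + 2 * κ * ℓ))
    (hnum : 4 * (2 * κ + ζ ^ 2 * X) < 2 * (ζ * (2 * t * ℓ))) :
    0 < (deriv (J t f) 0 * conj (J t f 0)).re := by
  have hne : ∀ z ∈ Metric.ball (0 : ℂ) (ζ * ℓ), J t f z ≠ 0 := by
    intro z hz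
    exact norm_pos_iff.1 (lt_of_lt_of_le (by positivity) (hlow z hz))
  refine compare0 (J := J t f) (r := ζ * ℓ) (A := 4 * t * ℓ) (M := (2 * κ + ζ ^ 2 * X) * ℓ)
    (by positivity) (by positivity) (fun z _ => J_diff hf ht z) hne ?_ ?_
  · intro z hz
    have hz' : -z ∈ Metric.ball (0 : ℂ) (ζ * ℓ) := by
      rw [mem_ball_zero_iff] at hz ⊢
      rwa [norm_neg]
    have q1 := hupp z hz
    have q2 := hlow (-z) hz'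
    rw [Complex.neg_re] at q2
    calc ‖J t f z‖ ≤ G * Real.exp (t * (ℓ + z.re) ^ 2 + 2 * κ * ℓ) := q1
      _ = Real.exp (4 * t * ℓ * z.re + (2 * κ + ζ ^ 2 * X) * ℓ) *
            (G * Real.exp (t * (ℓ + -z.re) ^ 2 - ζ ^ 2 * X * ℓ)) := by
          rw [mul_left_comm, ← Real.exp_add]
          congr 2; ring
      _ ≤ _ := by gcongr
  · have e : 4 * t * ℓ * (ζ * ℓ) = 2 * (ζ * (2 * t * ℓ)) * ℓ := by ring
    rw [e]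
    have e2 : 4 * ((2 * κ + ζ ^ 2 * X) * ℓ) = (4 * (2 * κ + ζ ^ 2 * X)) * ℓ := by ring
    rw [e2]
    exact mul_lt_mul_of_pos_right hnum hℓ

theorem fwds_of (h1 : S_PROF) (h2 : S_JU) (h3 : S_JL) : S_FWDS := by
  intro K ϑ0 ϑ g X hK hϑ0 hϑ02 hϑ hϑϑ hg hX
  obtain ⟨g1, hg1⟩ : ∃ g1 : ℝ, g1 = min g 1 := ⟨_, rfl⟩
  have hg1p : 0 < g1 := by rw [hg1]; exact lt_min hg one_pos
  have hg1g : g1 ≤ g := by rw [hg1]; exact min_le_left _ _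
  have hg11 : g1 ≤ 1 := by rw [hg1]; exact min_le_right _ _
  obtain ⟨θ, hθ⟩ : ∃ θ : ℝ, θ = ϑ + g1 / 8 := ⟨_, rfl⟩
  obtain ⟨g', hg'⟩ : ∃ g' : ℝ, g' = g1 / 2 := ⟨_, rfl⟩
  have hX0 : 0 < X := by linarith
  have hg'p : 0 < g' := by rw [hg']; linarith
  have hg'1 : g' ≤ 1 := by rw [hg']; linarith
  have hθ0 : 0 ≤ θ := by rw [hθ]; linarith
  have hθ3 : θ ≤ 3 := by rw [hθ]; linarith
  obtain ⟨ζ0, hζ0, hJL⟩ := h3 K ϑ0 θ g' X 3 hK hϑ0 hϑ02 hθ0 hθ3 hg'p hg'1 hX le_rfl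
  obtain ⟨ζ, hζd⟩ : ∃ ζ : ℝ, ζ = min ζ0 (g' / (64 * X)) := ⟨_, rfl⟩
  have hζ : 0 < ζ := by rw [hζd]; exact lt_min hζ0 (by positivity)
  have hζ1 : ζ ≤ ζ0 := by rw [hζd]; exact min_le_left _ _
  have hζX : ζ * X ≤ g' / 64 := by
    have : ζ ≤ g' / (64 * X) := by rw [hζd]; exact min_le_right _ _
    rw [le_div_iff₀ (by positivity)] at this
    linarith
  have hζg : ζ ≤ g' / 64 := by nlinarith
  obtain ⟨κ0, ℓL, hκ0, hJL'⟩ := hJL ζ hζ hζ1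
  obtain ⟨κ, hκd⟩ : ∃ κ : ℝ, κ = min κ0 (ζ * g' / 16) := ⟨_, rfl⟩
  have hκ : 0 < κ := by rw [hκd]; exact lt_min hκ0 (by positivity)
  have hκ1 : κ ≤ κ0 := by rw [hκd]; exact min_le_left _ _
  have hκ2 : κ ≤ ζ * g' / 16 := by rw [hκd]; exact min_le_right _ _
  obtain ⟨ℓU, hJU⟩ := h2 K ϑ0 θ g' X 3 κ hK hϑ0 hϑ02 hθ0 hθ3 hg'p hg'1 hX le_rfl hκ
  obtain ⟨R, ℓP, hR, hP⟩ := h1 K ϑ0 ϑ (g1 / 8) κ (2 * X + 2 * 3 + 4) hK hϑ0 hϑ02 hϑ hϑϑ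
    (by positivity) (by linarith) hκ (by linarith)
  refine ⟨R, max 1 (max ℓL (max ℓU ℓP)), ?_⟩
  intro ℓ G t f hℓ hUD ht hL1 hL2 hz
  have hℓ1 : 1 ≤ ℓ := (le_max_left _ _).trans hℓ
  have hℓL : ℓL ≤ ℓ := ((le_max_left _ _).trans (le_max_right _ _)).trans hℓ
  have hℓU : ℓU ≤ ℓ := (((le_max_left _ _).trans (le_max_right _ _)).trans (le_max_right _ _)).trans hℓ
  have hℓP : ℓP ≤ ℓ := (((le_max_right _ _).trans (le_max_right _ _)).trans (le_max_right _ _)).trans hℓ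
  have hℓ0 : 0 < ℓ := by linarith
  have hG : 0 < G := hUD.hG
  have hPf : Pf κ θ (2 * X + 2 * 3 + 4) ℓ G f := by
    rw [hθ]
    exact hP ℓ G f hℓP hUD hz
  have hPf0 : Pf κ0 θ (2 * X + 2 * 3 + 4) ℓ G f := Pf_mono hPf hκ1 hℓ0.le hG.le
  have hgL : g' ≤ 2 * t * ℓ := by rw [hg']; linarith
  have hθL : 2 * θ + g' ≤ 2 * t * ℓ := by rw [hθ, hg']; linarith
  have hb1 : 2 * t * (ζ * ℓ) ≤ 3 := by
    have : 2 * t * (ζ * ℓ) = ζ * (2 * t * ℓ) := by ring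
    rw [this]
    have h5 : ζ * (2 * t * ℓ) ≤ ζ * X := mul_le_mul_of_nonneg_left hL2 hζ.le
    linarith
  have hb2 : ζ * ℓ ≤ g' / 64 * ℓ := mul_le_mul_of_nonneg_right hζg hℓ0.le
  have hzX : ζ ^ 2 * X ≤ ζ * (g' / 64) := by
    have : ζ ^ 2 * X = ζ * (ζ * X) := by ring
    rw [this]
    exact mul_le_mul_of_nonneg_left hζX hζ.le
  have hLζ : ζ * g' ≤ ζ * (2 * t * ℓ) := mul_le_mul_of_nonneg_left hgL hζ.le
  have hζg0 : 0 < ζ * g' := by positivity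
  have hball : ∀ z ∈ Metric.ball (0 : ℂ) (ζ * ℓ), |z.re| ≤ ζ * ℓ ∧ |z.im| ≤ ζ * ℓ := by
    intro z hz
    rw [mem_ball_zero_iff] at hz
    exact ⟨(Complex.abs_re_le_norm z).trans hz.le, (Complex.abs_im_le_norm z).trans hz.le⟩
  refine near_line hUD.slow hG ht hℓ0 hζ hκ hX0 (fun z hz => ?_) (fun z hz => ?_) (by linarith)
  · obtain ⟨b1, b2⟩ := hball z hz
    rw [abs_le] at b1
    have : 2 * t * z.re ≤ 2 * t * (ζ * ℓ) := mul_le_mul_of_nonneg_left b1.2 (by positivity)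
    exact hJL' ℓ G t f hℓL hUD hPf0 ht hgL hL2 z b2 (by linarith) (Or.inl ⟨hθL, b1.1⟩)
  · obtain ⟨b1, b2⟩ := hball z hz
    rw [abs_le] at b1
    have : 2 * t * z.re ≤ 2 * t * (ζ * ℓ) := mul_le_mul_of_nonneg_left b1.2 (by positivity)
    exact (J_norm_le (t := t) (f := f) z).trans
      (hJU ℓ G t f hℓU hUD hPf ht hgL hL2 z.re (by linarith) (Or.inl ⟨hθL, by linarith⟩)).2

theorem fwd2s_of (h2 : S_JU2) (h3 : S_JL2) : S_FWD2S := by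
  intro K ϑ0 ϑ M0 g X hK hϑ0 hϑ02 hϑ hϑ3 hM hMϑ hg hg1 hX
  have hX0 : 0 < X := by linarith
  obtain ⟨ζU, hζU, hJU0⟩ := h2 K ϑ0 ϑ M0 g X 3 hK hϑ0 hϑ02 hϑ hϑ3 hM hMϑ hg hg1 hX le_rfl
  obtain ⟨ζL, hζL, hJL⟩ := h3 K ϑ0 ϑ M0 g X 3 hK hϑ0 hϑ02 hϑ hϑ3 hM hMϑ hg hg1 hX le_rfl
  obtain ⟨ζ, hζd⟩ : ∃ ζ : ℝ, ζ = min (min ζU ζL) (1 / (64 * X)) := ⟨_, rfl⟩
  have hζ : 0 < ζ := by rw [hζd]; exact lt_min (lt_min hζU hζL) (by positivity)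
  have hζ1 : ζ ≤ ζL := by rw [hζd]; exact (min_le_left _ _).trans (min_le_right _ _)
  have hζ2 : ζ ≤ ζU := by rw [hζd]; exact (min_le_left _ _).trans (min_le_left _ _)
  have hζX : ζ * X ≤ 1 / 64 := by
    have : ζ ≤ 1 / (64 * X) := by rw [hζd]; exact min_le_right _ _
    rw [le_div_iff₀ (by positivity)] at this
    linarith
  have hζg : ζ ≤ 1 / 64 := by nlinarith
  obtain ⟨κ0, ℓL, hκ0, hJL'⟩ := hJL ζ hζ hζ1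
  obtain ⟨κ, hκd⟩ : ∃ κ : ℝ, κ = min κ0 (ζ / 64) := ⟨_, rfl⟩
  have hκ : 0 < κ := by rw [hκd]; exact lt_min hκ0 (by positivity)
  have hκ1 : κ ≤ κ0 := by rw [hκd]; exact min_le_left _ _
  have hκ2 : κ ≤ ζ / 64 := by rw [hκd]; exact min_le_right _ _
  obtain ⟨ℓU, hJU⟩ := hJU0 κ hκ
  refine ⟨κ, 2 * X + 2 * 3 + 4, max 1 (max ℓL ℓU), hκ, ?_⟩
  intro ℓ G t f hℓ hUD hPf hMj ht hL1 hL2
  have hℓ1 : 1 ≤ ℓ := (le_max_left _ _).trans hℓ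
  have hℓL : ℓL ≤ ℓ := ((le_max_left _ _).trans (le_max_right _ _)).trans hℓ
  have hℓU : ℓU ≤ ℓ := ((le_max_right _ _).trans (le_max_right _ _)).trans hℓ
  have hℓ0 : 0 < ℓ := by linarith
  have hG : 0 < G := hUD.hG
  have hPf0 : Pf κ0 ϑ (2 * X + 2 * 3 + 4) ℓ G f := Pf_mono hPf hκ1 hℓ0.le hG.le
  have hMj0 : Mj κ0 ϑ M0 ℓ G f := Mj_mono hMj hκ1 hℓ0.le hG.le
  have hL0 : 0 < 2 * t * ℓ := by positivity
  have hgL : 1 / 2 ≤ 2 * t * ℓ := by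
    by_contra hcon
    push Not at hcon
    nlinarith [mul_nonneg hM hL0.le]
  have hb1 : 2 * t * (ζ * ℓ) ≤ 3 := by
    have : 2 * t * (ζ * ℓ) = ζ * (2 * t * ℓ) := by ring
    rw [this]
    have h5 : ζ * (2 * t * ℓ) ≤ ζ * X := mul_le_mul_of_nonneg_left hL2 hζ.le
    linarith
  have hzX : ζ ^ 2 * X ≤ ζ * (1 / 64) := by
    have : ζ ^ 2 * X = ζ * (ζ * X) := by ring
    rw [this]
    exact mul_le_mul_of_nonneg_left hζX hζ.le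
  have hLζ : ζ * (1 / 2) ≤ ζ * (2 * t * ℓ) := mul_le_mul_of_nonneg_left hgL hζ.le
  have hball : ∀ z ∈ Metric.ball (0 : ℂ) (ζ * ℓ), |z.re| ≤ ζ * ℓ ∧ |z.im| ≤ ζ * ℓ := by
    intro z hz
    rw [mem_ball_zero_iff] at hz
    exact ⟨(Complex.abs_re_le_norm z).trans hz.le, (Complex.abs_im_le_norm z).trans hz.le⟩
  refine near_line hUD.slow hG ht hℓ0 hζ hκ hX0 (fun z hz => ?_) (fun z hz => ?_) (by linarith)
  · obtain ⟨b1, b2⟩ := hball z hz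
    rw [abs_le] at b1
    have : 2 * t * z.re ≤ 2 * t * (ζ * ℓ) := mul_le_mul_of_nonneg_left b1.2 (by positivity)
    exact hJL' ℓ G t f hℓL hUD hPf0 hMj0 ht hL1 hL2 z b2 (by linarith) b1.1
  · obtain ⟨b1, b2⟩ := hball z hz
    rw [abs_le] at b1
    have : 2 * t * z.re ≤ 2 * t * (ζ * ℓ) := mul_le_mul_of_nonneg_left b1.2 (by positivity)
    have h5 : ζ * ℓ ≤ ζU * ℓ := mul_le_mul_of_nonneg_right hζ2 hℓ0.le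
    exact (J_norm_le (t := t) (f := f) z).trans
      (hJU ℓ G t f hℓU hUD hPf hMj ht hL1 hL2 z.re (by linarith) (by linarith)).2

end Pool.Agent.H83XI
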