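import Pool.Agent.H83XI.Sadl
import Pool.Agent.H83XI.Fwds
import Pool.Agent.W351.HF.TC
import Pool.Agent.W397.HF.Lcx
import Pool.Agent.W45.HF.Prof
import Pool.Agent.W363.HF.JU
import Pool.Agent.W736.HF.JL
import Pool.Agent.W816.HF.JU2
import Pool.Agent.W816.HF.JL2
import Pool.Agent.W565.HF.Inv
import Pool.Agent.W565.HF.Hup
import Pool.Agent.W366.HF.Hlo
import Pool.Agent.W85.HF.Bwd
import Pool.Agent.W320.HF.Rect
import Pool.Agent.W169.HF.Maj

set_option autoImplicit false

/-!
# Assembly: all the local statements of the project HF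
-/

namespace Pool.Agent.H83XI

open Pool.Agent.W169.HF

theorem tc_all : S_TC := Pool.Agent.W351.HF.tc

theorem lcx_all : S_LCX := Pool.Agent.W397.HF.lcx

theorem prof_all : S_PROF := Pool.Agent.W45.HF.prof_of tc_all lcx_all

theorem ju_all : S_JU := Pool.Agent.W363.HF.ju

theorem jl_all : S_JL := Pool.Agent.W736.HF2.jl_of sadl

theorem ju2_all : S_JU2 := Pool.Agent.W816.HF.ju2

theorem jl2_all : S_JL2 := Pool.Agent.W816.HF.jl2_of sadl

theorem inv_all : S_INV := Pool.Agent.W565.HF.inv hs_all sg_all heat_all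

theorem hup_all : S_HUP := Pool.Agent.W565.HF.hup

theorem hlo_all : S_HLO := Pool.Agent.W366.HF.hlo_of prof_all ju_all jl_all

theorem bwd_all : S_BWD := Pool.Agent.W85.HF.bwd_of sadl tc_all hup_all hlo_all inv_all

theorem rect_all : S_RECT := Pool.Agent.W320.HF.rect

theorem size_all : S_SIZE := Pool.Agent.W327.HF.size_of tc_all hup_all hlo_all inv_all rect_all

theorem fwd_all : S_FWD := _root_.W327.HF.fwd_of prof_all ju_all jl_all

theorem fwds_all : S_FWDS := fwds_of prof_all ju_all jl_all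

theorem fwd2_all : S_FWD2 := Pool.Agent.W131.HF.fwd2_of ju2_all jl2_all

theorem fwd2s_all : S_FWD2S := fwd2s_of ju2_all jl2_all

end Pool.Agent.H83XI
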