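import Pool.Agent.H83XI.Glob

set_option autoImplicit false

/-!
# The heat flow of the completed L-function of `Δ`: bounds on the critical line
-/

open Complex Set MeasureTheory intervalIntegral Filter Topology
open scoped ComplexConjugate NNReal ENNReal

namespace Pool.Agent.H83XI

open H353.E H353.F Pool.Agent.W169.HF Pool.Agent.Helper41x.Dl

lemma gam_gen {C : ℝ} {Sg : ℝ → ℝ} {γ D : ℂ → ℂ} (gp : GP C Sg γ D) (hC : 1 ≤ C) {c v : ℂ}
    (hc : 1 ≤ c.re) (hcv : 1 ≤ (c + v).re) :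
    ‖γ (c + v)‖ ≤ ‖γ c‖ * Real.exp ((D c).re * v.re + (C + C * ‖v‖) * ‖v‖) ∧
    ‖γ c‖ * Real.exp ((D c).re * v.re - (C + C * ‖v‖) * ‖v‖) ≤ ‖γ (c + v)‖ := by
  have hsub : ∀ z : ℂ, 1 ≤ z.re → ‖D z - ((D c).re : ℂ)‖ ≤ C + C * ‖z - c‖ := fun z hz => by
    have h1 := gp.lipD (ρ := 1) le_rfl (s := z) (t := c) hz hc
    have h2 := gp.im c hc
    have h3 : D c - ((D c).re : ℂ) = ((D c).im : ℂ) * I := by
      apply Complex.ext
      · simp
      · simp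
    have h4 : D z - ((D c).re : ℂ) = (D z - D c) + (D c - ((D c).re : ℂ)) := by ring
    rw [h4]
    refine (norm_add_le _ _).trans ?_
    rw [h3, norm_mul, Complex.norm_I, mul_one, Complex.norm_real, Real.norm_eq_abs]
    rw [div_one] at h1
    linarith
  have hseg : ∀ t ∈ Icc (0:ℝ) 1, 1 ≤ (c + t * v).re := fun t ht => by
    rw [add_re] at hcv
    rw [add_re, Complex.re_ofReal_mul]
    nlinarith [ht.1, ht.2]
  have hv0 := norm_nonneg v
  have hfw := gam_move gp (s := c) (v := v) (ℓ := (D c).re) (K := C + C * ‖v‖) hc hcv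
    (fun t ht => by
      refine (hsub _ (hseg t ht)).trans ?_
      rw [add_sub_cancel_left, norm_mul, Complex.norm_real, Real.norm_eq_abs, abs_of_nonneg ht.1]
      have : t * ‖v‖ ≤ ‖v‖ := by nlinarith [ht.2]
      nlinarith)
  have hbw := gam_move gp (s := c + v) (v := -v) (ℓ := (D c).re) (K := C + C * ‖v‖) hcv
    (by rw [add_neg_cancel_right]; exact hc)
    (fun t ht => by
      have e1 : c + v + t * -v = c + ((1 - t : ℝ) : ℂ) * v := by push_cast; ring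
      have h1t : (1 - t) ∈ Icc (0:ℝ) 1 := ⟨by linarith [ht.2], by linarith [ht.1]⟩
      rw [e1]
      refine (hsub _ (hseg _ h1t)).trans ?_
      rw [add_sub_cancel_left, norm_mul, Complex.norm_real, Real.norm_eq_abs, abs_of_nonneg h1t.1]
      have : (1 - t) * ‖v‖ ≤ ‖v‖ := by nlinarith [ht.1]
      nlinarith)
  rw [add_neg_cancel_right, norm_neg, neg_re] at hbw
  refine ⟨hfw, ?_⟩
  have h2 := mul_le_mul_of_nonneg_right hbw
    (Real.exp_pos ((D c).re * v.re - (C + C * ‖v‖) * ‖v‖)).le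
  rwa [mul_assoc, ← Real.exp_add, show (D c).re * -v.re + (C + C * ‖v‖) * ‖v‖ +
    ((D c).re * v.re - (C + C * ‖v‖) * ‖v‖) = 0 by ring, Real.exp_zero, mul_one] at h2

/-- the shifted parameters -/
noncomputable def mu2 : Fin 2 → ℂ := ![-5, -6]

theorem hmu2 : ∀ j, (mu2 j).re ≤ 1 / 2 := by
  intro j
  fin_cases j
  · simp [mu2]
    norm_num
  · simp [mu2]
    norm_num

theorem mu_mu2 (s : ℂ) (j : Fin 2) : s + 1 / 2 - mu2 j = s - mu j := by
  fin_cases j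
  · simp [mu2, mu]
    ring
  · simp [mu2, mu]
    ring

theorem gaf_shift (s : ℂ) : gaf 1 mu s = gaf 1 mu2 (s + 1 / 2) := by
  unfold gaf
  simp only [mu_mu2, Complex.ofReal_one, Complex.one_cpow]

theorem gaD_shift (s : ℂ) : gaD 1 mu s = gaD 1 mu2 (s + 1 / 2) := by
  unfold gaD
  simp only [mu_mu2]

theorem gp2 : GP 12 (fun K => 4 * Real.exp (2 * |K| + 10)) (gaf 1 mu2) (gaD 1 mu2) := by
  have h := gaf_GP (m := 2) (by norm_num) (N := 1) le_rfl hmu2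
  have e : (6 * ((2 : ℕ) : ℝ)) = 12 := by norm_num
  rw [e] at h
  exact h

theorem gaf_two (y : ℝ) {u : ℂ} (hu : 0 ≤ u.re) :
    ‖gaf 1 mu (1 / 2 + (y : ℂ) * I + u)‖ ≤
      GG (gaf 1 mu) (gaD 1 mu) y * Real.exp (eD y * u.re + 48 * (1 + ‖u‖ ^ 2)) ∧
    GG (gaf 1 mu) (gaD 1 mu) y * Real.exp (eD y * u.re - 48 * (1 + ‖u‖ ^ 2)) ≤
      ‖gaf 1 mu (1 / 2 + (y : ℂ) * I + u)‖ := by
  obtain ⟨c, hc⟩ : ∃ c : ℂ, c = 2 + (y : ℂ) * I := ⟨_, rfl⟩
  obtain ⟨v, hv⟩ : ∃ v : ℂ, v = u - 1 := ⟨_, rfl⟩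
  have hcre : c.re = 2 := by rw [hc]; simp
  have hvre : v.re = u.re - 1 := by rw [hv]; simp
  have e : 1 / 2 + (y : ℂ) * I + u + 1 / 2 = c + v := by rw [hc, hv]; ring
  have e3 : (3 / 2 + (y : ℂ) * I) + 1 / 2 = c := by rw [hc]; ring
  have hD : (gaD 1 mu2 c).re = eD y := by
    unfold eD el
    rw [gaD_shift, e3]
  obtain ⟨h1, h2⟩ := gam_gen gp2 (by norm_num) (c := c) (v := v) (by rw [hcre]; norm_num)
    (by rw [add_re, hcre, hvre]; linarith)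
  rw [hD, hvre] at h1 h2
  have hγ : ‖gaf 1 mu2 c‖ = GG (gaf 1 mu) (gaD 1 mu) y * Real.exp (eD y) := by
    unfold GG
    rw [← e3, ← gaf_shift]
    unfold eD
    rw [mul_assoc, ← Real.exp_add]
    simp
  have hG0 : 0 ≤ GG (gaf 1 mu) (gaD 1 mu) y := by unfold GG; positivity
  have hvn : ‖v‖ ≤ ‖u‖ + 1 := by
    rw [hv]
    refine (norm_sub_le _ _).trans ?_
    rw [norm_one]
  have hv0 := norm_nonneg v
  have hu0 := norm_nonneg u
  have hquad : ((12 : ℝ) + 12 * ‖v‖) * ‖v‖ ≤ 48 * (1 + ‖u‖ ^ 2) := by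
    have h1 : (1 + ‖v‖) * ‖v‖ ≤ (2 + ‖u‖) * (1 + ‖u‖) := by
      apply mul_le_mul <;> linarith
    have h2 : (2 + ‖u‖) * (1 + ‖u‖) ≤ 4 * (1 + ‖u‖ ^ 2) := by nlinarith [sq_nonneg (‖u‖ - 1)]
    linarith
  rw [gaf_shift, e]
  constructor
  · refine h1.trans ?_
    rw [hγ, mul_assoc, ← Real.exp_add]
    refine mul_le_mul_of_nonneg_left (Real.exp_le_exp.2 ?_) hG0
    linarith
  · refine le_trans ?_ h2
    rw [hγ, mul_assoc, ← Real.exp_add]
    refine mul_le_mul_of_nonneg_left (Real.exp_le_exp.2 ?_) hG0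
    linarith

theorem gaf_ne {s : ℂ} (hs : 1 / 2 ≤ s.re) : gaf 1 mu s ≠ 0 := by
  rw [gaf_shift]
  refine gp2.ne _ ?_
  rw [add_re]
  norm_num
  linarith

theorem Pf_monoR {κ κ' ϑ R R' ℓ G : ℝ} {f : ℂ → ℂ} (h : Pf κ ϑ R ℓ G f) (hκ : κ ≤ κ') (hR : R' ≤ R)
    (hℓ : 0 ≤ ℓ) (hG : 0 ≤ G) : Pf κ' ϑ R' ℓ G f := by
  have h1 : κ * ℓ ≤ κ' * ℓ := mul_le_mul_of_nonneg_right hκ hℓ
  refine ⟨fun u a b c => le_trans ?_ (h.low u a (b.trans hR) (c.trans hR)),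
    fun u a b => (h.upp u (a.trans hR) (b.trans hR)).trans ?_,
    fun u a b c => (h.der u a (b.trans hR) (c.trans hR)).trans h1⟩
  · exact mul_le_mul_of_nonneg_left (Real.exp_le_exp.2 (by linarith)) hG
  · exact mul_le_mul_of_nonneg_left (Real.exp_le_exp.2 (by linarith)) hG

/-- the forward theorem at a given height, from a bound on the critical line -/
theorem grow_loc {μ c : ℝ} (hμ : 0 ≤ μ) (hμ1 : μ ≤ 1 / 2) (hc : 1 / (4 * (1 - μ)) < c) :
    ∃ t1 R κ : ℝ, 0 < t1 ∧ 0 ≤ R ∧ 0 < κ ∧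
    ∀ t y : ℝ, 0 < t → t ≤ t1 → 1 ≤ |y| → c ≤ t * Real.log |y| →
      (∀ v : ℝ, |v| ≤ R → ‖Xd (1 / 2 + ((y + v : ℝ) : ℂ) * I)‖ ≤
        Real.exp ((μ + κ) * Real.log |y|) * ‖gaf 1 mu (1 / 2 + ((y + v : ℝ) : ℂ) * I)‖) →
      ∀ s : ℂ, s.im = y → heat t Xd s = 0 → s.re = 1 / 2 ∧ deriv (heat t Xd) s ≠ 0 := by
  have hμ' : 0 < 4 * (1 - μ) := by linarith
  rw [div_lt_iff₀ hμ'] at hc
  obtain ⟨m, hm⟩ : ∃ m : ℝ, m = (1 - μ) * (2 * c) - 1 / 2 := ⟨_, rfl⟩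
  have hm0 : 0 < m := by rw [hm]; linarith
  have hc0 : 0 < c := by
    by_contra hcon
    push Not at hcon
    nlinarith
  obtain ⟨δ, hδd⟩ : ∃ δ : ℝ, δ = min (m / 16) (1 / 4) := ⟨_, rfl⟩
  have hδ : 0 < δ := by rw [hδd]; exact lt_min (by positivity) (by norm_num)
  have hδm : δ ≤ m / 16 := by rw [hδd]; exact min_le_left _ _
  have hδ4 : δ ≤ 1 / 4 := by rw [hδd]; exact min_le_right _ _
  obtain ⟨g, hgd⟩ : ∃ g : ℝ, g = min (m / 4) 1 := ⟨_, rfl⟩
  have hg : 0 < g := by rw [hgd]; exact lt_min (by positivity) one_pos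
  have hgm : g ≤ m / 4 := by rw [hgd]; exact min_le_left _ _
  have hg1 : g ≤ 1 := by rw [hgd]; exact min_le_right _ _
  obtain ⟨B, hB, S⟩ := sharp_Xd (η := δ / 2) (by positivity) (by linarith)
  obtain ⟨ϑ0, hϑ0d⟩ : ∃ ϑ0 : ℝ, ϑ0 = 1 / 2 + δ / 2 := ⟨_, rfl⟩
  have eσ : (1 + δ / 2) - 1 / 2 = ϑ0 := by rw [hϑ0d]; ring
  obtain ⟨b, hbd⟩ : ∃ b : ℝ, b = ϑ0 + δ / 2 := ⟨_, rfl⟩
  have hbδ : b = 1 / 2 + δ := by rw [hbd, hϑ0d]; ring
  obtain ⟨K, hKd⟩ : ∃ K : ℝ, K = 5 * (B + 4 * 12) := ⟨_, rfl⟩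
  have hK : 1 ≤ K := by rw [hKd]; linarith
  have hϑ01 : 1 / 2 ≤ ϑ0 := by rw [hϑ0d]; linarith
  have hϑ02 : ϑ0 ≤ 2 := by rw [hϑ0d]; linarith
  have hb1 : 1 / 2 ≤ b := by rw [hbδ]; linarith
  have hb3 : b ≤ 3 := by rw [hbδ]; linarith
  have hμb : μ ≤ b := by rw [hbδ]; linarith
  obtain ⟨κa, Ra, ℓa, hκa, HA⟩ := fwd2_all K ϑ0 b μ g 4 hK hϑ01 hϑ02 hb1 hb3 hμ hμb hg hg1 (by norm_num)
  obtain ⟨κb, Rb, ℓb, hκb, HB⟩ := fwd2s_all K ϑ0 b μ g 4 hK hϑ01 hϑ02 hb1 hb3 hμ hμb hg hg1 (by norm_num)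
  obtain ⟨κm, hκmd⟩ : ∃ κm : ℝ, κm = min κa κb := ⟨_, rfl⟩
  have hκm : 0 < κm := by rw [hκmd]; exact lt_min hκa hκb
  obtain ⟨κ', R', ρ', ℓ', hκ', hρ', hρ'1, HM⟩ := maj rect_all (K := K) (K1 := 48) (ϑ0 := ϑ0) (b := b)
    (M0 := μ) (κ := κm) hK (by norm_num) hϑ01 hϑ02 hb1 hb3 hμ hμb hκm (fun _ => 48)
  obtain ⟨κp, hκpd⟩ : ∃ κp : ℝ, κp = min κm κ' := ⟨_, rfl⟩
  have hκp : 0 < κp := by rw [hκpd]; exact lt_min hκm hκ'
  obtain ⟨Rp, hRpd⟩ : ∃ Rp : ℝ, Rp = max 1 (max Ra (max Rb R')) := ⟨_, rfl⟩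
  have hRp1 : 1 ≤ Rp := by rw [hRpd]; exact le_max_left _ _
  have hRpa : Ra ≤ Rp := by rw [hRpd]; exact (le_max_left _ _).trans (le_max_right _ _)
  have hRpb : Rb ≤ Rp := by
    rw [hRpd]; exact ((le_max_left _ _).trans (le_max_right _ _)).trans (le_max_right _ _)
  have hRp' : R' ≤ Rp := by
    rw [hRpd]; exact ((le_max_right _ _).trans (le_max_right _ _)).trans (le_max_right _ _)
  obtain ⟨Rq, ℓq, hRq, HP⟩ := prof_all K ϑ0 ϑ0 (δ / 2) κp Rp hK hϑ01 hϑ02 (by linarith) le_rfl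
    (by positivity) (by linarith) hκp hRp1
  have hC : (1 : ℝ) ≤ 12 := by norm_num
  obtain ⟨tc, ℓc, htc, HC⟩ := local_simple 12 B (1 + δ / 2) (fun K => 4 * Real.exp (2 * |K| + 10)) hC hB
    (by linarith) (by linarith) (η := 1) one_pos
  obtain ⟨q, hq⟩ : ∃ q : ℝ, q = max 1 (28 * (μ + κ' / 2) / κ') := ⟨_, rfl⟩
  have hq1 : 1 ≤ q := by rw [hq]; exact le_max_left _ _
  have hqg : 28 * (μ + κ' / 2) / κ' ≤ q := by rw [hq]; exact le_max_right _ _
  obtain ⟨M, hM⟩ : ∃ M : ℝ, M = max q (max ℓa (max ℓb (max ℓc (max ℓ' ℓq)))) := ⟨_, rfl⟩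
  have hMq : q ≤ M := by rw [hM]; exact le_max_left _ _
  have hM0 : max ℓa (max ℓb (max ℓc (max ℓ' ℓq))) ≤ M := by rw [hM]; exact le_max_right _ _
  have hMa : ℓa ≤ M := (le_max_left _ _).trans hM0
  have hM0' : max ℓb (max ℓc (max ℓ' ℓq)) ≤ M := (le_max_right _ _).trans hM0
  have hMb : ℓb ≤ M := (le_max_left _ _).trans hM0'
  have hM0'' : max ℓc (max ℓ' ℓq) ≤ M := (le_max_right _ _).trans hM0'
  have hMc : ℓc ≤ M := (le_max_left _ _).trans hM0''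
  have hM0''' : max ℓ' ℓq ≤ M := (le_max_right _ _).trans hM0''
  have hM' : ℓ' ≤ M := (le_max_left _ _).trans hM0'''
  have hMqq : ℓq ≤ M := (le_max_right _ _).trans hM0'''
  have hL0 : 0 < M + 14 := by linarith
  refine ⟨min tc (min (m / 112) (min (c / 14) (c / (M + 14)))), max 0 R', κ' / 2,
    lt_min htc (lt_min (by positivity) (lt_min (by positivity) (by positivity))), le_max_left _ _,
    by positivity, ?_⟩
  intro t y ht htt hy hty hline s hs hz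
  have ht1 : t ≤ tc := htt.trans (min_le_left _ _)
  have ht2 : t ≤ m / 112 := htt.trans ((min_le_right _ _).trans (min_le_left _ _))
  have ht3' : t ≤ min (c / 14) (c / (M + 14)) := htt.trans ((min_le_right _ _).trans (min_le_right _ _))
  have ht4 : t ≤ c / 14 := ht3'.trans (min_le_left _ _)
  have ht3 : t ≤ c / (M + 14) := ht3'.trans (min_le_right _ _)
  rw [le_div_iff₀ (by norm_num)] at ht2 ht4
  rw [le_div_iff₀ hL0] at ht3
  obtain ⟨hℓ1, hℓ2⟩ := eD_bounds hy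
  have hlogL : M + 14 ≤ Real.log |y| := by
    by_contra hcon
    push Not at hcon
    have : t * Real.log |y| < t * (M + 14) := mul_lt_mul_of_pos_left hcon ht
    linarith
  have hℓM : M ≤ eD y := by linarith
  have hℓ0 : 0 < eD y := by linarith
  have htℓ : c - 14 * t ≤ t * eD y := by
    have h3 : t * (Real.log |y| - 14) ≤ t * eD y := mul_le_mul_of_nonneg_left hℓ1 ht.le
    linarith
  have hkey : 2 * b ^ 2 + g ≤ (2 * b - μ) * (2 * t * eD y) := by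
    have h5 : 2 * c - 28 * t ≤ 2 * t * eD y := by linarith
    have h6 : 0 ≤ 2 * c - 28 * t := by linarith
    have h7 : (1 - μ) * (2 * c - 28 * t) ≤ (2 * b - μ) * (2 * t * eD y) :=
      mul_le_mul (by rw [hbδ]; linarith) h5 h6 (by rw [hbδ]; linarith)
    have h8 : (1 - μ) * (2 * c - 28 * t) = 1 / 2 + m - (1 - μ) * (28 * t) := by rw [hm]; ring
    have h9 : (1 - μ) * (28 * t) ≤ 1 * (28 * t) := mul_le_mul_of_nonneg_right (by linarith) (by positivity)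
    have h10 : 2 * b ^ 2 ≤ 1 / 2 + 4 * δ := by
      have h11 : δ * δ ≤ 1 * δ := mul_le_mul_of_nonneg_right (by linarith) hδ.le
      have h12 : 2 * b ^ 2 = 1 / 2 + 2 * δ + 2 * (δ * δ) := by rw [hbδ]; ring
      linarith
    linarith
  have ud := ud_of_sharp S slow_Xd (by linarith) y
  rw [eσ, ← hKd] at ud
  have hG := ud.hG
  rcases le_or_gt (2 * t * eD y) 4 with hcase | hcase
  · have pf0 : Pf κp b Rp (eD y) (GG (gaf 1 mu) (gaD 1 mu) y) (sh Xd y) := by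
      rw [hbd]
      refine HP (eD y) _ _ (hMqq.trans hℓM) ud ?_
      intro u hu1 _ h0
      have h3 := (quot_ne S (z := 1 / 2 + (y : ℂ) * I + u) (by
        have : (1 / 2 + (y : ℂ) * I + u).re = 1 / 2 + u.re := by simp
        rw [this]
        linarith)).2.1
      exact h3 h0
    have hκpm : κp ≤ κm := by rw [hκpd]; exact min_le_left _ _
    have hκp' : κp ≤ κ' := by rw [hκpd]; exact min_le_right _ _
    have hκma : κm ≤ κa := by rw [hκmd]; exact min_le_left _ _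
    have hκmb : κm ≤ κb := by rw [hκmd]; exact min_le_right _ _
    have pf' : Pf κ' b R' (eD y) (GG (gaf 1 mu) (gaD 1 mu) y) (sh Xd y) :=
      Pf_monoR pf0 hκp' hRp' hℓ0.le hG.le
    have pfa : Pf κa b Ra (eD y) (GG (gaf 1 mu) (gaD 1 mu) y) (sh Xd y) :=
      Pf_monoR pf0 (hκpm.trans hκma) hRpa hℓ0.le hG.le
    have pfb : Pf κb b Rb (eD y) (GG (gaf 1 mu) (gaD 1 mu) y) (sh Xd y) :=
      Pf_monoR pf0 (hκpm.trans hκmb) hRpb hℓ0.le hG.le
    have hinv : ∀ s : ℂ, (gaf 1 mu s)⁻¹ = (Gammaℝ (s + 11 / 2))⁻¹ * (Gammaℝ (s + 13 / 2))⁻¹ := fun s => by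
      rw [gaf_mu, mul_inv]
    have mj : Mj κm b μ (eD y) (GG (gaf 1 mu) (gaD 1 mu) y) (sh Xd y) := by
      refine HM (eD y) _ (sh Xd y) (fun u => sh Xd y u * (gaf 1 mu (1 / 2 + (y : ℂ) * I + u))⁻¹)
        (fun u => gaf 1 mu (1 / 2 + (y : ℂ) * I + u)) (hM'.trans hℓM) ud pf' ?_ (fun u => rfl) ?_ ?_ ?_
      · simp only [hinv]
        refine (slow_sh slow_Xd y).1.mul (Differentiable.mul ?_ ?_)
        · exact differentiable_Gammaℝ_inv.comp (f := fun u : ℂ => 1 / 2 + (y : ℂ) * I + u + 11 / 2) (by fun_prop)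
        · exact differentiable_Gammaℝ_inv.comp (f := fun u : ℂ => 1 / 2 + (y : ℂ) * I + u + 13 / 2) (by fun_prop)
      · intro u hu
        have h1 := (gaf_two y hu).2
        rw [norm_inv]
        have h2 := inv_anti₀ (by positivity) h1
        refine h2.trans (le_of_eq ?_)
        rw [mul_inv, ← Real.exp_neg]
        congr 2
        ring
      · intro u hu
        have hu0 : 0 ≤ u.re := by linarith
        refine ⟨gaf_ne ?_, (gaf_two y hu0).1⟩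
        have : (1 / 2 + (y : ℂ) * I + u).re = 1 / 2 + u.re := by simp
        rw [this]
        linarith
      · intro v hv
        have h1 := hline v (hv.trans (le_max_right _ _))
        have e : 1 / 2 + (y : ℂ) * I + (v : ℂ) * I = 1 / 2 + ((y + v : ℝ) : ℂ) * I := by push_cast; ring
        unfold sh
        rw [e, norm_mul, norm_inv, ← div_eq_mul_inv, div_le_iff₀ (norm_pos_iff.2 (gaf_ne (by simp)))]
        refine h1.trans (mul_le_mul_of_nonneg_right (Real.exp_le_exp.2 ?_) (norm_nonneg _))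
        have h2 : (μ + κ' / 2) * Real.log |y| ≤ (μ + κ' / 2) * (eD y + 14) :=
          mul_le_mul_of_nonneg_left (by linarith) (by positivity)
        have h3 : 28 * (μ + κ' / 2) ≤ κ' * eD y := by
          have h4 := hqg.trans (hMq.trans hℓM)
          rw [div_le_iff₀ hκ'] at h4
          linarith
        linarith
    have mja : Mj κa b μ (eD y) (GG (gaf 1 mu) (gaD 1 mu) y) (sh Xd y) :=
      Pool.Agent.W131.HF.Mj_mono mj hκma hℓ0.le hG.le
    have mjb : Mj κb b μ (eD y) (GG (gaf 1 mu) (gaD 1 mu) y) (sh Xd y) :=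
      Pool.Agent.W131.HF.Mj_mono mj hκmb hℓ0.le hG.le
    have hstrip := heat_strip ht.le hz
    have hsx : s = 1 / 2 + (y : ℂ) * I + ((s.re - 1 / 2 : ℝ) : ℂ) := by
      apply Complex.ext
      · simp
      · simp [hs]
    have hre : s.re = 1 / 2 := by
      by_contra hne
      refine HA (eD y) _ t (sh Xd y) (hMa.trans hℓM) ud pfa mja ht hkey hcase (s.re - 1 / 2) ?_ (by linarith) ?_
      · intro h
        exact hne (by linarith)
      · rw [heat_sh, ← hsx]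
        exact hz
    refine ⟨hre, fun hd => ?_⟩
    have hpos := HB (eD y) _ t (sh Xd y) (hMb.trans hℓM) ud pfb mjb ht hkey hcase
    have hsx' : s = 1 / 2 + (y : ℂ) * I := by
      apply Complex.ext
      · simp [hre]
      · simp [hs]
    rw [hsx'] at hz hd
    have := heat_multJ slow_Xd Xd_fe ht hz hd
    linarith
  · refine HC Xd (gaf 1 mu) (gaD 1 mu) S slow_Xd t y ht ht1 (hMc.trans hℓM) ?_ s hs hz
    change 2 * (1 + δ / 2 - 1 / 2) + 1 ≤ 2 * t * eD y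
    linarith

end Pool.Agent.H83XI
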