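import Pool.Agent.H83XI.Ju3
import Pool.Agent.H83XI.Size3
import Pool.Agent.H83XI.Grow

set_option autoImplicit false

/-!
# The exact characterisation: local statements
-/

open Complex Set MeasureTheory Filter Topology
open scoped ComplexConjugate NNReal ENNReal

namespace Pool.Agent.H83XI

open H353.E H353.F Pool.Agent.W169.HF Pool.Agent.Helper41x.Dl

lemma par_one {c τ r e : ℝ} (hc : 0 < c) (he : 0 ≤ e) (h1 : c + e ≤ τ) (h2 : τ ≤ 2)
    (hr0 : 0 ≤ r) (hr : r ≤ 2 * c) : r ^ 2 / (4 * c) + c + e ^ 2 / 2 ≤ r ^ 2 / (4 * τ) + τ := by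
  have hτ : 0 < τ := by linarith
  have e1 : r ^ 2 / (4 * τ) + τ - (r ^ 2 / (4 * c) + c) = (τ - c) * (1 - r ^ 2 / (4 * c * τ)) := by
    field_simp
    ring
  have h3 : r ^ 2 / (4 * c * τ) ≤ c / τ := by
    rw [div_le_div_iff₀ (by positivity) hτ]
    have : r ^ 2 ≤ (2 * c) ^ 2 := pow_le_pow_left₀ hr0 hr 2
    nlinarith
  have h4 : 1 - c / τ = (τ - c) / τ := by field_simp
  have h5 : e / 2 ≤ (τ - c) / τ := by
    rw [div_le_div_iff₀ (by norm_num) hτ]
    nlinarith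
  have h6 : e * (e / 2) ≤ (τ - c) * (1 - r ^ 2 / (4 * c * τ)) := by
    apply mul_le_mul (by linarith) (by linarith) (by positivity) (by linarith)
  linarith

lemma par_two {τ r e : ℝ} (he : 0 ≤ e) (h1 : r + e ≤ τ) (h2 : τ ≤ 4) (hr0 : 0 ≤ r) (hτ : 0 < τ) :
    r + e ^ 2 / 8 ≤ r ^ 2 / (2 * τ) + τ / 2 := by
  have e1 : r ^ 2 / (2 * τ) + τ / 2 = r + (τ - r) ^ 2 / (2 * τ) := by
    field_simp
    ring
  have h3 : e ^ 2 / 8 ≤ (τ - r) ^ 2 / (2 * τ) := by
    have h4 : e ^ 2 ≤ (τ - r) ^ 2 := pow_le_pow_left₀ he (by linarith) 2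
    gcongr
    linarith
  linarith

/-- forward: at a given height -/
theorem char_loc {c ε : ℝ} (hc : 0 < c) (hc1 : c < 1 / 2) (hε : 0 < ε) (hε1 : ε ≤ 1) :
    ∃ t1 R δ κ : ℝ, 0 < t1 ∧ 0 ≤ R ∧ 0 < δ ∧ 0 < κ ∧
    ∀ t y : ℝ, 0 < t → t ≤ t1 → 1 ≤ |y| → c + ε ≤ t * Real.log |y| →
      (∀ s : ℂ, Xd s = 0 → |s.im - y| ≤ R → s.re ≤ 1 / 2 + (2 * c + δ)) →
      (∀ r : ℝ, 0 ≤ r → r ≤ 2 * c → ‖Xd (1 / 2 + (y : ℂ) * I + (r : ℂ))‖ ≤
        Real.exp (((2 * c - r) ^ 2 / (4 * c) + κ) * Real.log |y|) * ‖gaf 1 mu (1 / 2 + (y : ℂ) * I + (r : ℂ))‖) →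
      ∀ s : ℂ, s.im = y → heat t Xd s = 0 → s.re = 1 / 2 ∧ deriv (heat t Xd) s ≠ 0 := by
  obtain ⟨B, hB, S⟩ := sharp_Xd (η := 1 / 2) (by norm_num) (by norm_num)
  have e32 : (1 + 1 / 2 : ℝ) = 3 / 2 := by norm_num
  rw [e32] at S
  have e1 : (3 / 2 - 1 / 2 : ℝ) = 1 := by norm_num
  have hC : (1 : ℝ) ≤ 12 := by norm_num
  have hK : 1 ≤ 5 * (B + 4 * 12) := by linarith
  obtain ⟨δ, hδd⟩ : ∃ δ : ℝ, δ = min (ε ^ 2 / 256) (1 / 2 - c) := ⟨_, rfl⟩
  have hδ : 0 < δ := by rw [hδd]; exact lt_min (by positivity) (by linarith)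
  have hδε : δ ≤ ε ^ 2 / 256 := by rw [hδd]; exact min_le_left _ _
  have hδc : δ ≤ 1 / 2 - c := by rw [hδd]; exact min_le_right _ _
  have hε2 : ε ^ 2 ≤ ε := by nlinarith
  have hδε' : δ ≤ ε / 256 := by linarith
  obtain ⟨m, hm⟩ : ∃ m : ℝ, m = ε ^ 2 / 128 := ⟨_, rfl⟩
  have hm0 : 0 < m := by rw [hm]; positivity
  obtain ⟨κa, Ra, ℓa, hκa, HA⟩ := fwd3_all (5 * (B + 4 * 12)) 1 (2 * c + 2 * δ) m (ε / 4) 4 hK (by norm_num)
    (by norm_num) (by positivity) hm0 (by positivity) (by linarith) (by norm_num)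
  obtain ⟨κp, hκpd⟩ : ∃ κp : ℝ, κp = min κa (ε ^ 2 / 128) := ⟨_, rfl⟩
  have hκp : 0 < κp := by rw [hκpd]; exact lt_min hκa (by positivity)
  have hκpa : κp ≤ κa := by rw [hκpd]; exact min_le_left _ _
  have hκpe : κp ≤ ε ^ 2 / 128 := by rw [hκpd]; exact min_le_right _ _
  obtain ⟨Rp, hRpd⟩ : ∃ Rp : ℝ, Rp = max 2 Ra := ⟨_, rfl⟩
  have hRp2 : 2 ≤ Rp := by rw [hRpd]; exact le_max_left _ _
  have hRpa : Ra ≤ Rp := by rw [hRpd]; exact le_max_right _ _
  obtain ⟨Rq, ℓq, hRq, HP⟩ := prof_all (5 * (B + 4 * 12)) 1 (2 * c + δ) δ κp Rp hK (by norm_num) (by norm_num)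
    (by positivity) (by linarith) hδ (by linarith) hκp (by linarith)
  obtain ⟨tc, ℓc, htc, HC⟩ := local_simple 12 B (3 / 2) (fun K => 4 * Real.exp (2 * |K| + 10)) hC hB
    (by norm_num) (by norm_num) (η := 1) one_pos
  obtain ⟨q, hq⟩ : ∃ q : ℝ, q = 25600 / ε ^ 2 := ⟨_, rfl⟩
  have hq0 : 0 < q := by rw [hq]; positivity
  obtain ⟨M, hM⟩ : ∃ M : ℝ, M = max q (max ℓa (max ℓq ℓc)) := ⟨_, rfl⟩
  have hMq : q ≤ M := by rw [hM]; exact le_max_left _ _
  have hM0 : max ℓa (max ℓq ℓc) ≤ M := by rw [hM]; exact le_max_right _ _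
  have hMa : ℓa ≤ M := (le_max_left _ _).trans hM0
  have hM0' : max ℓq ℓc ≤ M := (le_max_right _ _).trans hM0
  have hMqq : ℓq ≤ M := (le_max_left _ _).trans hM0'
  have hMc : ℓc ≤ M := (le_max_right _ _).trans hM0'
  have hL0 : 0 < M + 14 := by linarith
  refine ⟨min tc (min (ε / 28) (c / (M + 14))), max 0 Rq, δ, ε ^ 2 / 128,
    lt_min htc (lt_min (by positivity) (by positivity)), le_max_left _ _, hδ, by positivity, ?_⟩
  intro t y ht htt hy hty hzf hgr s hs hz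
  have ht1 : t ≤ tc := htt.trans (min_le_left _ _)
  have ht2 : t ≤ ε / 28 := htt.trans ((min_le_right _ _).trans (min_le_left _ _))
  have ht3 : t ≤ c / (M + 14) := htt.trans ((min_le_right _ _).trans (min_le_right _ _))
  rw [le_div_iff₀ (by norm_num)] at ht2
  rw [le_div_iff₀ hL0] at ht3
  obtain ⟨hℓ1, hℓ2⟩ := eD_bounds hy
  have hlogL : M + 14 ≤ Real.log |y| := by
    by_contra hcon
    push Not at hcon
    have : t * Real.log |y| < t * (M + 14) := mul_lt_mul_of_pos_left hcon ht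
    linarith
  have hℓM : M ≤ eD y := by linarith
  have hℓ0 : 0 < eD y := by linarith
  have htℓ : c + ε - 14 * t ≤ t * eD y := by
    have h3 : t * (Real.log |y| - 14) ≤ t * eD y := mul_le_mul_of_nonneg_left hℓ1 ht.le
    linarith
  have htℓ2 : 2 * c + ε ≤ 2 * t * eD y := by
    have : 2 * t * eD y = 2 * (t * eD y) := by ring
    rw [this]
    linarith
  rcases le_or_gt (2 * t * eD y) 4 with hcase | hcase
  · have ud := ud_of_sharp S slow_Xd (by norm_num) y
    rw [e1] at ud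
    have hG := ud.hG
    have pf0 : Pf κp (2 * c + 2 * δ) Rp (eD y) (GG (gaf 1 mu) (gaD 1 mu) y) (sh Xd y) := by
      have e2 : 2 * c + 2 * δ = (2 * c + δ) + δ := by ring
      rw [e2]
      refine HP (eD y) _ _ (hMqq.trans hℓM) ud ?_
      intro u hu1 hu2 h0
      have h3 := hzf (1 / 2 + (y : ℂ) * I + u) h0 (by
        have : (1 / 2 + (y : ℂ) * I + u).im - y = u.im := by simp
        rw [this]
        exact hu2.trans (le_max_right _ _))
      have h4 : (1 / 2 + (y : ℂ) * I + u).re = 1 / 2 + u.re := by simp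
      rw [h4] at h3
      linarith
    have pfa : Pf κa (2 * c + 2 * δ) Ra (eD y) (GG (gaf 1 mu) (gaD 1 mu) y) (sh Xd y) :=
      Pf_monoR pf0 hκpa hRpa hℓ0.le hG.le
    have hτ0 : 0 < 2 * t * eD y := by linarith
    -- the parabola
    have hpar : ∀ r : ℝ, r ^ 2 / (4 * t) + t * eD y ^ 2 =
        eD y * (r ^ 2 / (2 * (2 * t * eD y)) + (2 * t * eD y) / 2) := fun r => by
      have := hℓ0.ne'
      field_simp
      ring
    have mp : Mp m (2 * c + 2 * δ) t (eD y) (GG (gaf 1 mu) (gaD 1 mu) y) (sh Xd y) := by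
      intro r hr0 hr1
      rcases le_or_gt r (2 * c) with hr | hr
      · have h1 := hgr r hr0 hr
        have h2 := (gaf_two y (u := (r : ℂ)) (by simpa using hr0)).1
        rw [ofReal_re] at h2
        have hn : ‖(r : ℂ)‖ ^ 2 = r ^ 2 := by rw [Complex.norm_real, Real.norm_eq_abs, sq_abs]
        rw [hn] at h2
        unfold sh
        refine h1.trans ((mul_le_mul_of_nonneg_left h2 (Real.exp_pos _).le).trans ?_)
        rw [mul_left_comm, ← Real.exp_add]
        apply mul_le_mul_of_nonneg_left _ hG.le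
        apply Real.exp_le_exp.2
        rw [hpar]
        have h3 := par_one (c := c) (τ := (2 * t * eD y) / 2) (r := r) (e := ε / 2) hc (by positivity)
          (by linarith) (by linarith) hr0 hr
        have e5 : r ^ 2 / (4 * (2 * t * eD y / 2)) = r ^ 2 / (2 * (2 * t * eD y)) := by
          congr 1; ring
        rw [e5] at h3
        have e6 : (2 * c - r) ^ 2 / (4 * c) = c - r + r ^ 2 / (4 * c) := by
          field_simp
          ring
        have h4 : 0 ≤ (2 * c - r) ^ 2 / (4 * c) := by positivity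
        have h5 : (2 * c - r) ^ 2 / (4 * c) ≤ 1 := by
          rw [div_le_one (by positivity)]
          nlinarith
        have h6 : ((2 * c - r) ^ 2 / (4 * c) + ε ^ 2 / 128) * Real.log |y| ≤
            ((2 * c - r) ^ 2 / (4 * c) + ε ^ 2 / 128) * (eD y + 14) :=
          mul_le_mul_of_nonneg_left (by linarith) (by positivity)
        have h7 : ((2 * c - r) ^ 2 / (4 * c) + ε ^ 2 / 128) * 14 ≤ 28 := by nlinarith
        have h8 : 48 * (1 + r ^ 2) ≤ 96 := by nlinarith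
        have h9 : 124 ≤ ε ^ 2 / 128 * eD y := by
          have h10 : q ≤ eD y := hMq.trans hℓM
          rw [hq, div_le_iff₀ (by positivity)] at h10
          linarith
        have h11 := mul_le_mul_of_nonneg_left h3 hℓ0.le
        rw [e6] at h6 h7
        rw [e6, hm]
        have h12 : 0 ≤ ε ^ 2 * eD y := by positivity
        linarith
      · have h3 := pf0.upp (r : ℂ) (by rw [ofReal_re, abs_of_nonneg hr0]; linarith)
            (by rw [ofReal_im, abs_zero]; linarith)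
        rw [ofReal_re, abs_of_nonneg hr0, max_eq_right hr1] at h3
        refine h3.trans ?_
        apply mul_le_mul_of_nonneg_left _ hG.le
        apply Real.exp_le_exp.2
        rw [hpar]
        have h4 := par_two (τ := 2 * t * eD y) (r := r) (e := ε / 2) (by positivity) (by linarith)
          hcase hr0 hτ0
        have h5 := mul_le_mul_of_nonneg_left h4 hℓ0.le
        have h6 : κp * eD y ≤ ε ^ 2 / 128 * eD y := mul_le_mul_of_nonneg_right hκpe hℓ0.le
        have h7 : eD y * (2 * c + 2 * δ) ≤ eD y * (r + 2 * (ε ^ 2 / 256)) :=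
          mul_le_mul_of_nonneg_left (by linarith) hℓ0.le
        rw [hm]
        have h12 : 0 ≤ ε ^ 2 * eD y := by positivity
        linarith
    have hlast := HA (eD y) _ t (sh Xd y) (hMa.trans hℓM) ud pfa mp ht (by linarith) hcase
    have hstrip := heat_strip ht.le hz
    have hsx : s = 1 / 2 + (y : ℂ) * I + ((s.re - 1 / 2 : ℝ) : ℂ) := by
      apply Complex.ext
      · simp
      · simp [hs]
    have hre : s.re = 1 / 2 := by
      by_contra hne
      refine hlast.1 (s.re - 1 / 2) ?_ (by linarith) ?_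
      · intro h
        exact hne (by linarith)
      · rw [heat_sh, ← hsx]
        exact hz
    refine ⟨hre, fun hd => ?_⟩
    have hsx' : s = 1 / 2 + (y : ℂ) * I := by
      apply Complex.ext
      · simp [hre]
      · simp [hs]
    rw [hsx'] at hz hd
    have := heat_multJ slow_Xd Xd_fe ht hz hd
    have h9 := hlast.2
    linarith
  · refine HC Xd (gaf 1 mu) (gaD 1 mu) S slow_Xd t y ht ht1 (hMc.trans hℓM) ?_ s hs hz
    change 2 * (3 / 2 - 1 / 2) + 1 ≤ 2 * t * eD y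
    linarith

/-- backward: at a given height -/
theorem back_loc {c g : ℝ} (hc : 0 < c) (hg : 0 < g) : ∃ t1 R : ℝ, 0 < t1 ∧ 0 ≤ R ∧
    ∀ t y : ℝ, 0 < t → t ≤ t1 → 1 ≤ |y| → t * Real.log |y| = c →
      (∀ s : ℂ, heat t Xd s = 0 → |s.im - y| ≤ R → s.re = 1 / 2) →
      ∀ r : ℝ, 0 ≤ r → r ≤ 2 * c → ‖Xd (1 / 2 + (y : ℂ) * I + (r : ℂ))‖ ≤
        Real.exp (((2 * c - r) ^ 2 / (4 * c) + g) * Real.log |y|) * ‖gaf 1 mu (1 / 2 + (y : ℂ) * I + (r : ℂ))‖ := by
  obtain ⟨B, hB, S⟩ := sharp_Xd (η := 1 / 2) (by norm_num) (by norm_num)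
  have e32 : (1 + 1 / 2 : ℝ) = 3 / 2 := by norm_num
  rw [e32] at S
  have e1 : (3 / 2 - 1 / 2 : ℝ) = 1 := by norm_num
  have hK : 1 ≤ 5 * (B + 4 * 12) := by linarith
  obtain ⟨Rb, ℓb, HB⟩ := size3_all (5 * (B + 4 * 12)) 1 c (2 * c + 1) (g / 4) hK (by norm_num) (by norm_num)
    hc (by linarith) (by positivity)
  obtain ⟨q, hq⟩ : ∃ q : ℝ, q = max 1 (2 * (60 * c + 7 + 7 * g + 48 * (1 + 4 * c ^ 2)) / g) := ⟨_, rfl⟩
  have hq1 : 1 ≤ q := by rw [hq]; exact le_max_left _ _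
  have hqg : 2 * (60 * c + 7 + 7 * g + 48 * (1 + 4 * c ^ 2)) / g ≤ q := by
    rw [hq]; exact le_max_right _ _
  obtain ⟨L, hL⟩ : ∃ L : ℝ, L = max q ℓb + 14 := ⟨_, rfl⟩
  have hL0 : 0 < L := by rw [hL]; have := le_max_left q ℓb; linarith
  refine ⟨min (c / L) (min (1 / 28) (c / 28)), max 0 Rb, lt_min (by positivity)
    (lt_min (by norm_num) (by positivity)), le_max_left _ _, ?_⟩
  intro t y ht htt hy hty hzf r hr0 hr1
  have ht2 : t ≤ c / L := htt.trans (min_le_left _ _)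
  have ht3 : t ≤ 1 / 28 := htt.trans ((min_le_right _ _).trans (min_le_left _ _))
  have ht4 : t ≤ c / 28 := htt.trans ((min_le_right _ _).trans (min_le_right _ _))
  rw [le_div_iff₀ hL0] at ht2
  obtain ⟨hℓ1, hℓ2⟩ := eD_bounds hy
  have hlogL : L ≤ Real.log |y| := by
    by_contra hcon
    push Not at hcon
    have : t * Real.log |y| < t * L := mul_lt_mul_of_pos_left hcon ht
    linarith
  have hℓL : max q ℓb ≤ eD y := by rw [hL] at hlogL; linarith
  have hℓb : ℓb ≤ eD y := (le_max_right _ _).trans hℓL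
  have hℓq : q ≤ eD y := (le_max_left _ _).trans hℓL
  have hℓ0 : 0 < eD y := by linarith
  have htlo : t * eD y ≤ c + 14 * t := by
    have h3 : t * eD y ≤ t * (Real.log |y| + 14) := mul_le_mul_of_nonneg_left hℓ2 ht.le
    linarith
  have htup : c - 14 * t ≤ t * eD y := by
    have h3 : t * (Real.log |y| - 14) ≤ t * eD y := mul_le_mul_of_nonneg_left hℓ1 ht.le
    linarith
  have e2t : 2 * t * eD y = 2 * (t * eD y) := by ring
  have ud := ud_of_sharp S slow_Xd (by norm_num) y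
  rw [e1] at ud
  have h1 := HB (eD y) (GG (gaf 1 mu) (gaD 1 mu) y) t (sh Xd y) hℓb ud ht (by rw [e2t]; linarith)
    (by rw [e2t]; linarith) (fun u hu1 hu2 h0 => by
      rw [heat_sh] at h0
      have h3 := hzf (1 / 2 + (y : ℂ) * I + u) h0 (by
        have : (1 / 2 + (y : ℂ) * I + u).im - y = u.im := by simp
        rw [this]
        exact hu2.trans (le_max_right _ _))
      have h4 : (1 / 2 + (y : ℂ) * I + u).re = 1 / 2 + u.re := by simp
      rw [h4] at h3
      linarith) r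
  unfold sh at h1
  refine h1.trans ?_
  have h2 := (gaf_two y (u := (r : ℂ)) (by simpa using hr0)).2
  rw [ofReal_re] at h2
  have hn : ‖(r : ℂ)‖ ^ 2 = r ^ 2 := by rw [Complex.norm_real, Real.norm_eq_abs, sq_abs]
  rw [hn] at h2
  refine le_trans ?_ (mul_le_mul_of_nonneg_left h2 (Real.exp_pos _).le)
  rw [mul_left_comm, ← Real.exp_add]
  apply mul_le_mul_of_nonneg_left _ ud.hG.le
  apply Real.exp_le_exp.2
  obtain ⟨lg, hlg⟩ : ∃ lg : ℝ, lg = Real.log |y| := ⟨_, rfl⟩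
  rw [← hlg] at hℓ1 hℓ2 hty hlogL ⊢
  have hlg0 : 0 < lg := by linarith
  have ht' : t = c / lg := by
    rw [eq_div_iff hlg0.ne']
    exact hty
  have e6 : ((2 * c - r) ^ 2 / (4 * c) + g) * lg = (c - r + r ^ 2 / (4 * c) + g) * lg := by
    congr 2
    field_simp
    ring
  have e7 : r ^ 2 / (4 * t) = r ^ 2 / (4 * c) * lg := by
    rw [ht']
    field_simp
  -- `t ℓ² ≤ (c + 14 t) ℓ ≤ (c + 14 t) (lg + 14) ≤ c lg + 28 c + 7`
  have h3 : t * eD y ^ 2 ≤ (c + 14 * t) * eD y := by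
    have : t * eD y ^ 2 = (t * eD y) * eD y := by ring
    rw [this]
    exact mul_le_mul_of_nonneg_right htlo hℓ0.le
  have h4 : (c + 14 * t) * eD y ≤ (c + 14 * t) * (lg + 14) :=
    mul_le_mul_of_nonneg_left hℓ2 (by positivity)
  have h5 : (c + 14 * t) * (lg + 14) ≤ c * lg + 28 * c + 7 := by
    have h14 : 14 * t * 14 ≤ 7 := by linarith
    have h15 : t * lg = c := hty
    have h16 : (c + 14 * t) * (lg + 14) = c * lg + 14 * c + 14 * (t * lg) + 14 * t * 14 := by ring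
    rw [h16, h15]
    linarith
  have h6 : r * lg - 14 * r ≤ eD y * r := by
    have := mul_le_mul_of_nonneg_right hℓ1 hr0
    linarith
  have h7 : g / 4 * eD y ≤ g / 4 * (lg + 14) := mul_le_mul_of_nonneg_left hℓ2 (by positivity)
  have h8 : r ^ 2 ≤ 4 * c ^ 2 := by
    have := pow_le_pow_left₀ hr0 hr1 2
    linarith
  have h9 : 2 * (60 * c + 7 + 7 * g + 48 * (1 + 4 * c ^ 2)) ≤ g * lg := by
    have hql : q ≤ lg := by
      have h11 : q + 14 ≤ L := by
        rw [hL]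
        linarith [le_max_left q ℓb]
      linarith
    have h10 := hqg.trans hql
    rw [div_le_iff₀ hg] at h10
    linarith
  rw [e6, e7]
  have h17 : 0 ≤ g * lg := by positivity
  linarith

end Pool.Agent.H83XI
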