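import Pool.Agent.Helper41x.Dl.LF
import Pool.Agent.W169.HF.Aut2

set_option autoImplicit false

/-!
# The analytic data of the L-function of the discriminant
-/

open Complex Set MeasureTheory intervalIntegral Filter Topology
open scoped ComplexConjugate NNReal ENNReal

namespace Pool.Agent.H83XI

open H353.E H353.F Pool.Agent.W169.HF Pool.Agent.Helper41x.Dl

/-- sharp data from bounds for the Dirichlet series in half planes `Re s ≥ σ > 1` -/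
theorem sharp_of {m : ℕ} (hm : 1 ≤ m) {N : ℝ} (hN : 1 ≤ N) {μ : Fin m → ℂ} (hμ : ∀ j, (μ j).re ≤ 1 / 2)
    {X F : ℂ → ℂ} (hXd : Differentiable ℂ X) (hXe : ∀ z : ℂ, 1 < z.re → X z = gaf N μ z * F z)
    (hF : ∀ σ : ℝ, 1 < σ → ∃ B : ℝ, 1 ≤ B ∧ ∀ z : ℂ, σ ≤ z.re → ‖F z‖ ≤ B ∧ 1 ≤ B * ‖F z‖)
    {ε : ℂ} (hε : ‖ε‖ = 1) (hfe : ∀ z : ℂ, X z = ε * conj (X (1 - conj z)))
    (hbdd : ∃ M, ∀ z : ℂ, -3 ≤ z.re → z.re ≤ 4 → ‖X z‖ ≤ Real.exp (M * (1 + |z.im|)))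
    {η : ℝ} (hη : 0 < η) (hη1 : η ≤ 1) :
    ∃ B : ℝ, 1 ≤ B ∧ Sharp (6 * m) B (1 + η) (fun K => 4 * Real.exp (2 * |K| + 10)) X (gaf N μ) (gaD N μ) := by
  have hm' : (1 : ℝ) ≤ m := by exact_mod_cast hm
  obtain ⟨B2, hB2, hBe⟩ := hF (1 + η) (by linarith)
  obtain ⟨σ, hσ⟩ : ∃ σ : ℝ, σ = 1 + η := ⟨_, rfl⟩
  rw [← hσ] at hBe ⊢
  have hσ1 : 1 ≤ σ := by linarith
  have hC1 : 1 ≤ 6 * (m : ℝ) := by linarith
  have hexp1 : 1 ≤ Real.exp ((6 * (m : ℝ)) ^ 2 / 4 + 64) := Real.one_le_exp (by positivity)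
  have hBB : 1 ≤ B2 * Real.exp ((6 * (m : ℝ)) ^ 2 / 4 + 64) := one_le_mul_of_one_le_of_one_le hB2 hexp1
  refine ⟨B2 * Real.exp ((6 * (m : ℝ)) ^ 2 / 4 + 64), hBB, ?_⟩
  have gp := gaf_GP hm hN hμ
  have hhi : ∀ z : ℂ, σ ≤ z.re → ‖X z‖ ≤ B2 * ‖gaf N μ z‖ := fun z hz => by
    rw [hXe z (by linarith), norm_mul, mul_comm]
    exact mul_le_mul_of_nonneg_right (hBe z hz).1 (norm_nonneg _)
  refine
    { gp := gp, hC := hC1, hB := hBB, hσ := hσ1, diff := hXd,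
      fe := ⟨ε, hε, hfe⟩, hi := fun z hz => ?_, lo := fun z hz => ?_,
      strip := fun z h1 h2 => ?_ }
  · refine (hhi z hz).trans (mul_le_mul_of_nonneg_right ?_ (norm_nonneg _))
    nlinarith
  · rw [hXe z (by linarith), norm_mul]
    have h3 := (hBe z hz).2
    have h4 := norm_nonneg (gaf N μ z)
    have h5 : 1 ≤ B2 * Real.exp ((6 * (m : ℝ)) ^ 2 / 4 + 64) * ‖F z‖ := by
      calc (1 : ℝ) ≤ B2 * ‖F z‖ := h3
        _ = B2 * 1 * ‖F z‖ := by ring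
        _ ≤ B2 * Real.exp ((6 * (m : ℝ)) ^ 2 / 4 + 64) * ‖F z‖ := by gcongr
    calc ‖gaf N μ z‖ = ‖gaf N μ z‖ * 1 := by ring
      _ ≤ ‖gaf N μ z‖ * (B2 * Real.exp ((6 * (m : ℝ)) ^ 2 / 4 + 64) * ‖F z‖) := by gcongr
      _ = _ := by ring
  · exact strip_sharp gp hC1 hB2 hσ1 (by linarith) hXd hhi ⟨ε, hε, hfe⟩ hbdd h1 h2

theorem slow_gen {m : ℕ} (hm : 1 ≤ m) {N : ℝ} (hN : 1 ≤ N) {μ : Fin m → ℂ} (hμ : ∀ j, (μ j).re ≤ 1 / 2)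
    {X F : ℂ → ℂ} (hXd : Differentiable ℂ X) (hXe : ∀ z : ℂ, 1 < z.re → X z = gaf N μ z * F z)
    {B1 : ℝ} (hB1 : 1 ≤ B1) (hBc : ∀ z : ℂ, 4 ≤ z.re → ‖F z - 1‖ ≤ B1 * (1 / 2 : ℝ) ^ z.re)
    {ε : ℂ} (hε : ‖ε‖ = 1) (hfe : ∀ z : ℂ, X z = ε * conj (X (1 - conj z)))
    (hbdd : ∃ M, ∀ z : ℂ, -3 ≤ z.re → z.re ≤ 4 → ‖X z‖ ≤ Real.exp (M * (1 + |z.im|))) : Slow X := by
  have hm' : (1 : ℝ) ≤ m := by exact_mod_cast hm
  have hC1 : 1 ≤ 6 * (m : ℝ) := by linarith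
  have gp := gaf_GP hm hN hμ
  have hclose : ∀ z : ℂ, 4 ≤ z.re → ‖X z - gaf N μ z‖ ≤ B1 * (1 / 2 : ℝ) ^ z.re * ‖gaf N μ z‖ :=
    fun z hz => by
      have e : X z - gaf N μ z = (F z - 1) * gaf N μ z := by
        rw [hXe z (by linarith)]
        ring
      rw [e, norm_mul]
      exact mul_le_mul_of_nonneg_right (hBc z hz) (norm_nonneg _)
  have L : LD (6 * m) ((1 + B1) * Real.exp (6 * m * 7)) (fun K => 4 * Real.exp (2 * |K| + 10)) X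
      (gaf N μ) (gaD N μ) :=
    LD_of gp hC1 hB1 hXd hclose ⟨ε, hε, hfe⟩ hbdd
  have hcond1 : 1 ≤ N * ∏ j, (1 + ‖μ j‖) := by
    have h1 : 1 ≤ ∏ j, (1 + ‖μ j‖) := by
      refine Finset.prod_induction _ (fun x => (1 : ℝ) ≤ x) (fun a b ha hb => ?_) le_rfl fun j _ => ?_
      · nlinarith
      · linarith [norm_nonneg (μ j)]
    nlinarith
  refine slow_of_E hXd (slow_of L (a := Real.log (N * ∏ j, (1 + ‖μ j‖)) + 7 * m) (k := m) ?_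
    (by linarith) (fun z hz => ?_))
  · have := Real.log_nonneg hcond1
    linarith
  · have := gaD_norm hN hμ hz
    linarith

theorem hmu : ∀ j, (mu j).re ≤ 1 / 2 := by
  intro j
  fin_cases j
  · simp [mu]
    norm_num
  · simp [mu]
    norm_num

/-- the data for `L(s, Δ)` -/
theorem sharp_Xd {η : ℝ} (hη : 0 < η) (hη1 : η ≤ 1) :
    ∃ B : ℝ, 1 ≤ B ∧ Sharp 12 B (1 + η) (fun K => 4 * Real.exp (2 * |K| + 10)) Xd (gaf 1 mu) (gaD 1 mu) := by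
  obtain ⟨F, hF, hsum, hne, hprod⟩ := dir_lam
  have h := sharp_of (m := 2) (by norm_num) (N := 1) le_rfl hmu diff_Xd
    (fun z hz => by rw [Xd_series hz, hF]) (fun σ hσ => F_bounds hF hsum hne hprod σ hσ)
    (ε := 1) norm_one Xd_fe Xd_bdd hη hη1
  have e : (6 * ((2 : ℕ) : ℝ)) = 12 := by norm_num
  rw [e] at h
  exact h

theorem slow_Xd : Slow Xd := by
  obtain ⟨F, hF, hsum, hne, hprod⟩ := dir_lam
  obtain ⟨B1, hB1, hB1'⟩ := F_far hF hsum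
  exact slow_gen (m := 2) (by norm_num) (N := 1) le_rfl hmu diff_Xd
    (fun z hz => by rw [Xd_series hz, hF]) hB1 hB1' (ε := 1) norm_one Xd_fe Xd_bdd

theorem fe_Xd : Fe Xd := ⟨1, norm_one, Xd_fe⟩

theorem Xd_zero_re {z : ℂ} (hz : Xd z = 0) : z.re ≤ 1 := by
  obtain ⟨F, hF, hsum, hne, hprod⟩ := dir_lam
  by_contra hcon
  push Not at hcon
  rw [Xd_series hcon, ← hF] at hz
  rcases mul_eq_zero.mp hz with h | h
  · exact (gaf_GP (m := 2) (by norm_num) (N := 1) le_rfl hmu).ne z hcon.le h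
  · exact hne z hcon h

theorem Xd_ne : ∃ z, Xd z ≠ 0 := ⟨2, fun h => by
  have := Xd_zero_re h
  norm_num at this⟩

end Pool.Agent.H83XI
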