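import Pool.Agent.Helper41x.Dl.Fin
import Pool.Agent.W169.HF.Defs

set_option autoImplicit false

/-!
# The de Bruijn-Newman family of the Ramanujan Xi-function
-/

open Complex Set MeasureTheory Filter Topology
open scoped ComplexConjugate NNReal ENNReal

namespace Pool.Agent.H83XI

open Pool.Agent.Helper41x.Dl Pool.Agent.Helper41x.GN Pool.Agent.N963.GN Pool.Agent.W169.HF

/-- the family `H_t(z) = ∫_0^∞ exp(t log² y) Δ(i y) y^(6 + i z) dy/y` -/
noncomputable def XiT (t : ℝ) (z : ℂ) : ℂ :=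
  mellin (fun y : ℝ => ((Real.exp (t * Real.log y ^ 2) * dl y : ℝ) : ℂ)) (6 + I * z)

theorem dl_bounds {y : ℝ} (hy : 0 < y) : 0 ≤ dl y ∧ dl y ≤ Real.exp (-2 * Real.pi * y) := by
  have hfac : ∀ n : ℕ, 0 ≤ (1 - Real.exp (-2 * Real.pi * ((n : ℝ) + 1) * y)) ^ 24 ∧
      (1 - Real.exp (-2 * Real.pi * ((n : ℝ) + 1) * y)) ^ 24 ≤ 1 := fun n => by
    have h1 : 0 < Real.exp (-2 * Real.pi * ((n : ℝ) + 1) * y) := Real.exp_pos _
    have h2 : Real.exp (-2 * Real.pi * ((n : ℝ) + 1) * y) ≤ 1 := by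
      rw [Real.exp_le_one_iff]
      have := Real.pi_pos
      have h3 : 0 ≤ Real.pi * ((n : ℝ) + 1) * y := by positivity
      linarith
    exact ⟨pow_nonneg (by linarith) _, pow_le_one₀ (by linarith) (by linarith)⟩
  have hprod : 0 ≤ ∏' n : ℕ, (1 - Real.exp (-2 * Real.pi * ((n : ℝ) + 1) * y)) ^ 24 ∧
      ∏' n : ℕ, (1 - Real.exp (-2 * Real.pi * ((n : ℝ) + 1) * y)) ^ 24 ≤ 1 := by
    by_cases hm : Multipliable (fun n : ℕ => (1 - Real.exp (-2 * Real.pi * ((n : ℝ) + 1) * y)) ^ 24)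
    · constructor
      · refine ge_of_tendsto' hm.hasProd fun s => Finset.prod_nonneg fun n _ => (hfac n).1
      · refine le_of_tendsto' hm.hasProd fun s => Finset.prod_le_one (fun n _ => (hfac n).1) fun n _ => (hfac n).2
    · rw [tprod_eq_one_of_not_multipliable hm]
      exact ⟨zero_le_one, le_rfl⟩
  unfold dl
  have h1 := Real.exp_pos (-2 * Real.pi * y)
  exact ⟨mul_nonneg h1.le hprod.1, by nlinarith [hprod.2]⟩

theorem KD_norm (u : ℝ) : ‖KD (u : ℂ)‖ ≤ Real.exp (6 * |u| - |u| ^ 3) := by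
  -- for u ≥ 0
  have hpos : ∀ v : ℝ, 0 ≤ v → ‖KD (v : ℂ)‖ ≤ Real.exp (6 * v - v ^ 3) := fun v hv => by
    rw [KD_real, Complex.norm_real, Real.norm_eq_abs]
    obtain ⟨h1, h2⟩ := dl_bounds (Real.exp_pos v)
    rw [abs_of_nonneg (mul_nonneg h1 (Real.exp_pos _).le)]
    refine (mul_le_mul_of_nonneg_right h2 (Real.exp_pos _).le).trans ?_
    rw [← Real.exp_add]
    apply Real.exp_le_exp.2
    have h3 := Real.pow_div_factorial_le_exp v hv 3
    have h4 : ((3 : ℕ).factorial : ℝ) = 6 := by norm_num [Nat.factorial]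
    rw [h4] at h3
    have hpi := Real.pi_gt_three
    have h5 := Real.exp_pos v
    nlinarith
  rcases le_total 0 u with h | h
  · rw [abs_of_nonneg h]
    exact hpos u h
  · have h1 := KD_herm (-u)
    rw [neg_neg] at h1
    rw [h1, Complex.norm_conj, abs_of_nonpos h]
    exact hpos (-u) (by linarith)

theorem poly_bd {A B : ℝ} (hA : 0 ≤ A) (hB : 0 ≤ B) : ∃ C : ℝ, ∀ x : ℝ, 0 ≤ x → A * x + B * x ^ 2 - x ^ 3 ≤ C := by
  refine ⟨A * (A + B + 1) + B * (A + B + 1) ^ 2, fun x hx => ?_⟩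
  rcases le_or_gt (A + B + 1) x with h | h
  · have h1 : 1 ≤ x := by linarith
    have h2 : A * x ≤ A * x ^ 2 := by
      apply mul_le_mul_of_nonneg_left _ hA
      nlinarith
    have h3 : (A + B) * x ^ 2 ≤ x ^ 3 := by
      have : x ^ 3 = x * x ^ 2 := by ring
      rw [this]
      apply mul_le_mul_of_nonneg_right _ (by positivity)
      linarith
    have h4 : 0 ≤ A * (A + B + 1) + B * (A + B + 1) ^ 2 := by positivity
    nlinarith
  · have h1 : A * x ≤ A * (A + B + 1) := mul_le_mul_of_nonneg_left h.le hA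
    have h2 : B * x ^ 2 ≤ B * (A + B + 1) ^ 2 :=
      mul_le_mul_of_nonneg_left (pow_le_pow_left₀ hx h.le 2) hB
    have h3 : 0 ≤ x ^ 3 := by positivity
    linarith

theorem KD_cont : Continuous (fun u : ℝ => KD (u : ℂ)) := by
  rw [continuous_iff_continuousAt]
  intro u
  have h1 := (kern_delta.diff (u : ℂ) (by simpa using kern_delta.pos)).continuousAt
  exact ContinuousAt.comp (f := fun u : ℝ => (u : ℂ)) h1 Complex.continuous_ofReal.continuousAt

theorem KD_int {M B : ℝ} (hM : 0 ≤ M) (hB : 0 ≤ B) :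
    Integrable (fun u : ℝ => ‖KD (u : ℂ)‖ * Real.exp (M * |u| + B * u ^ 2)) := by
  obtain ⟨C, hC⟩ := poly_bd (A := 6 + M) (B := B + 1) (by linarith) (by linarith)
  refine ((integrable_exp_neg_mul_sq (b := 1) one_pos).const_mul (Real.exp C)).mono' ?_ ?_
  · exact Continuous.aestronglyMeasurable (KD_cont.norm.mul (by fun_prop))
  · refine Eventually.of_forall fun u => ?_
    rw [Real.norm_of_nonneg (by positivity)]
    refine (mul_le_mul_of_nonneg_right (KD_norm u) (Real.exp_pos _).le).trans ?_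
    rw [← Real.exp_add, ← Real.exp_add]
    apply Real.exp_le_exp.2
    have h1 := hC |u| (abs_nonneg u)
    rw [sq_abs] at h1
    linarith

/-- `H_t` as a Fourier transform -/
theorem XiT_eq (t : ℝ) (z : ℂ) :
    XiT t z = ∫ u : ℝ, ((Real.exp (t * u ^ 2) : ℝ) : ℂ) * KD (u : ℂ) * cexp (I * z * u) := by
  unfold XiT mellin
  rw [← Real.range_exp, ← Set.image_univ, integral_image_eq_integral_abs_deriv_smul MeasurableSet.univ
    (fun x _ => (Real.hasDerivAt_exp x).hasDerivWithinAt) Real.exp_injective.injOn, Measure.restrict_univ]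
  refine integral_congr_ae (Eventually.of_forall fun u => ?_)
  simp only
  rw [KD_real, abs_of_pos (Real.exp_pos u), Complex.ofReal_mul, Complex.ofReal_mul, smul_eq_mul,
    Complex.real_smul, Real.log_exp]
  have h1 : ((Real.exp u : ℝ) : ℂ) ^ (6 + I * z - 1) = cexp (u * (6 + I * z - 1)) := by
    rw [Complex.cpow_def_of_ne_zero (by exact_mod_cast (Real.exp_pos u).ne'), ← Complex.ofReal_log (Real.exp_pos u).le,
      Real.log_exp]
  rw [h1, Complex.ofReal_exp u, Complex.ofReal_exp (6 * u)]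
  have h2 : cexp (u : ℂ) * (cexp (u * (6 + I * z - 1)) *
      (((Real.exp (t * u ^ 2) : ℝ) : ℂ) * ((dl (Real.exp u) : ℝ) : ℂ))) =
      ((Real.exp (t * u ^ 2) : ℝ) : ℂ) * ((dl (Real.exp u) : ℝ) : ℂ) *
        (cexp (u : ℂ) * cexp (u * (6 + I * z - 1))) := by ring
  have h3 : ((Real.exp (t * u ^ 2) : ℝ) : ℂ) * (((dl (Real.exp u) : ℝ) : ℂ) * cexp ((6 * u : ℝ) : ℂ)) *
      cexp (I * z * u) = ((Real.exp (t * u ^ 2) : ℝ) : ℂ) * ((dl (Real.exp u) : ℝ) : ℂ) *
      (cexp ((6 * u : ℝ) : ℂ) * cexp (I * z * u)) := by ring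
  rw [h2, h3, ← Complex.exp_add, ← Complex.exp_add]
  congr 2
  push_cast
  ring

lemma gauss_mgf (t u : ℝ) (ht : 0 ≤ t) :
    (1 / Real.sqrt Real.pi) * ∫ v : ℝ, Real.exp (-v ^ 2) * Real.exp (2 * Real.sqrt t * v * u) =
      Real.exp (t * u ^ 2) := by
  have e : (fun v : ℝ => Real.exp (-v ^ 2) * Real.exp (2 * Real.sqrt t * v * u)) =
      fun v : ℝ => Real.exp (t * u ^ 2) * Real.exp (-(1 : ℝ) * (v - Real.sqrt t * u) ^ 2) := by
    funext v
    rw [← Real.exp_add, ← Real.exp_add]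
    congr 1
    have := Real.sq_sqrt ht
    linear_combination (u ^ 2) * this
  rw [e, MeasureTheory.integral_const_mul,
    integral_sub_right_eq_self (fun v : ℝ => Real.exp (-(1 : ℝ) * v ^ 2)) (Real.sqrt t * u),
    integral_gaussian]
  have : 0 < Real.sqrt Real.pi := Real.sqrt_pos.2 Real.pi_pos
  rw [div_one]
  field_simp

/-- `H_t` is the heat flow -/
theorem heat_XiT {t : ℝ} (ht : 0 ≤ t) (z : ℂ) : heat t Xd (1 / 2 + I * z) = 2 * XiT t z := by
  unfold heat
  have h1 : ∀ v : ℝ, Xd (1 / 2 + I * z + ((2 * Real.sqrt t * v : ℝ) : ℂ)) =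
      2 * ∫ u : ℝ, KD (u : ℂ) * cexp ((I * z + ((2 * Real.sqrt t * v : ℝ) : ℂ)) * u) := by
    intro v
    unfold Xd Lt
    congr 1
    refine integral_congr_ae (Eventually.of_forall fun u => ?_)
    simp only
    congr 2
    linear_combination (-(I * z + ((2 * Real.sqrt t * v : ℝ) : ℂ)) * u) * I_mul_I
  simp only [h1]
  -- Fubini
  obtain ⟨F, hF⟩ : ∃ F : ℝ → ℝ → ℂ, F = fun (v u : ℝ) => ((Real.exp (-v ^ 2) : ℝ) : ℂ) *
      (KD (u : ℂ) * cexp ((I * z + ((2 * Real.sqrt t * v : ℝ) : ℂ)) * u)) := ⟨_, rfl⟩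
  have hFc : Continuous (Function.uncurry F) := by
    rw [hF]
    have := KD_cont
    simp only [Function.uncurry_def]
    refine Continuous.mul (by fun_prop) (Continuous.mul (this.comp continuous_snd) (by fun_prop))
  have hFn : ∀ v u : ℝ, ‖F v u‖ ≤ Real.exp (-(1 / 2 : ℝ) * v ^ 2) *
      (‖KD (u : ℂ)‖ * Real.exp (‖z‖ * |u| + 2 * t * u ^ 2)) := by
    intro v u
    rw [hF]
    simp only
    rw [norm_mul, norm_mul, Complex.norm_real, Real.norm_of_nonneg (Real.exp_pos _).le, Complex.norm_exp]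
    have e1 : ((I * z + ((2 * Real.sqrt t * v : ℝ) : ℂ)) * u).re =
        (-z.im + 2 * Real.sqrt t * v) * u := by
      rw [Complex.re_mul_ofReal, Complex.add_re, Complex.ofReal_re, Complex.I_mul_re]
    rw [e1]
    have h2 : -v ^ 2 + (-z.im + 2 * Real.sqrt t * v) * u ≤
        -(1 / 2 : ℝ) * v ^ 2 + (‖z‖ * |u| + 2 * t * u ^ 2) := by
      have h3 : -z.im * u ≤ ‖z‖ * |u| := by
        have h4 := Complex.abs_im_le_norm z
        have h5 : -z.im * u ≤ |z.im| * |u| := by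
          rw [← abs_mul]
          exact (neg_mul z.im u ▸ neg_le_abs (z.im * u))
        exact h5.trans (mul_le_mul_of_nonneg_right h4 (abs_nonneg u))
      have h6 := Real.sq_sqrt ht
      nlinarith [sq_nonneg (v - 2 * Real.sqrt t * u)]
    calc Real.exp (-v ^ 2) * (‖KD (u : ℂ)‖ * Real.exp ((-z.im + 2 * Real.sqrt t * v) * u))
        = ‖KD (u : ℂ)‖ * Real.exp (-v ^ 2 + (-z.im + 2 * Real.sqrt t * v) * u) := by
          rw [Real.exp_add]; ring
      _ ≤ ‖KD (u : ℂ)‖ * Real.exp (-(1 / 2 : ℝ) * v ^ 2 + (‖z‖ * |u| + 2 * t * u ^ 2)) :=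
          mul_le_mul_of_nonneg_left (Real.exp_le_exp.2 h2) (norm_nonneg _)
      _ = _ := by rw [Real.exp_add]; ring
  have hFi : Integrable (Function.uncurry F) (volume.prod volume) := by
    have h2 := (integrable_exp_neg_mul_sq (b := 1 / 2) (by norm_num)).mul_prod
      (KD_int (M := ‖z‖) (B := 2 * t) (norm_nonneg _) (by positivity))
    refine h2.mono' hFc.aestronglyMeasurable (Eventually.of_forall fun p => ?_)
    exact hFn p.1 p.2
  have hswap := integral_integral_swap hFi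
  have hL : ∫ v : ℝ, ((Real.exp (-v ^ 2) : ℝ) : ℂ) *
      (2 * ∫ u : ℝ, KD (u : ℂ) * cexp ((I * z + ((2 * Real.sqrt t * v : ℝ) : ℂ)) * u)) =
      2 * ∫ v : ℝ, ∫ u : ℝ, F v u := by
    rw [← MeasureTheory.integral_const_mul]
    refine integral_congr_ae (Eventually.of_forall fun v => ?_)
    rw [hF]
    simp only
    rw [MeasureTheory.integral_const_mul]
    ring
  rw [hL, hswap]
  have hin : ∀ u : ℝ, ∫ v : ℝ, F v u = ((Real.sqrt Real.pi * Real.exp (t * u ^ 2) : ℝ) : ℂ) *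
      (KD (u : ℂ) * cexp (I * z * u)) := by
    intro u
    have e1 : (fun v : ℝ => F v u) = fun v : ℝ =>
        ((Real.exp (-v ^ 2) * Real.exp (2 * Real.sqrt t * v * u) : ℝ) : ℂ) * (KD (u : ℂ) * cexp (I * z * u)) := by
      funext v
      rw [hF]
      simp only
      have : cexp (((2 * Real.sqrt t * v : ℝ) : ℂ) * u) = ((Real.exp (2 * Real.sqrt t * v * u) : ℝ) : ℂ) := by
        rw [Complex.ofReal_exp]
        congr 1
        push_cast
        ring
      rw [add_mul, Complex.exp_add, this, Complex.ofReal_mul (Real.exp (-v ^ 2))]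
      ring
    rw [e1, integral_mul_const, integral_complex_ofReal]
    congr 2
    have h3 := gauss_mgf t u ht
    have h4 : 0 < Real.sqrt Real.pi := Real.sqrt_pos.2 Real.pi_pos
    rw [← h3, ← mul_assoc, mul_one_div, div_self h4.ne', one_mul]
  simp only [hin]
  rw [XiT_eq]
  have h4 : 0 < Real.sqrt Real.pi := Real.sqrt_pos.2 Real.pi_pos
  have h5 : ∫ u : ℝ, ((Real.sqrt Real.pi * Real.exp (t * u ^ 2) : ℝ) : ℂ) * (KD (u : ℂ) * cexp (I * z * u)) =
      ((Real.sqrt Real.pi : ℝ) : ℂ) * ∫ u : ℝ, ((Real.exp (t * u ^ 2) : ℝ) : ℂ) * KD (u : ℂ) * cexp (I * z * u) := by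
    rw [← MeasureTheory.integral_const_mul]
    refine integral_congr_ae (Eventually.of_forall fun u => ?_)
    simp only
    push_cast
    ring
  rw [h5]
  have h6 : (((1 / Real.sqrt Real.pi : ℝ)) : ℂ) * ((Real.sqrt Real.pi : ℝ) : ℂ) = 1 := by
    rw [← Complex.ofReal_mul, one_div, inv_mul_cancel₀ h4.ne', Complex.ofReal_one]
  calc (((1 / Real.sqrt Real.pi : ℝ)) : ℂ) * (2 * (((Real.sqrt Real.pi : ℝ) : ℂ) *
        ∫ u : ℝ, ((Real.exp (t * u ^ 2) : ℝ) : ℂ) * KD (u : ℂ) * cexp (I * z * u)))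
      = ((((1 / Real.sqrt Real.pi : ℝ)) : ℂ) * ((Real.sqrt Real.pi : ℝ) : ℂ)) *
        (2 * ∫ u : ℝ, ((Real.exp (t * u ^ 2) : ℝ) : ℂ) * KD (u : ℂ) * cexp (I * z * u)) := by ring
    _ = _ := by rw [h6, one_mul]

theorem XiT_zero (z : ℂ) : XiT 0 z = XiD z := by
  unfold XiT XiD
  simp

end Pool.Agent.H83XI
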