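import Pool.Agent.H83XI.Tcz
import Pool.Agent.H83XI.Asm2
import Pool.Agent.W160.HF.Hpx
import Pool.Agent.W251.HF.Jen
import Pool.Agent.W193.HF.Net
import Pool.Agent.W583.HF.InvX

set_option autoImplicit false

/-!
# Few zeros off the line and the growth exponents: abstract statements
-/

open Complex Set MeasureTheory Filter Topology
open scoped ComplexConjugate

namespace Pool.Agent.H83XI

open Pool.Agent.W169.HF

theorem hpx_all : S_HPX := Pool.Agent.W160.HF.hpx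

theorem jen_all : S_JEN := Pool.Agent.W251.HF.jen

theorem tcz_all : S_TCZ := tcz_of tc_all

theorem invx_all : S_INVX := Pool.Agent.W583.HF.invx_of hup_all inv_all

theorem net_all : S_NET := Pool.Agent.W193.HF.net_of rect_all

/-- growth gives few zeros -/
theorem few_abs (K ϑ0 x X δ ε : ℝ) (hK : 1 ≤ K) (h1 : 1 / 2 ≤ ϑ0) (h2 : ϑ0 ≤ 2) (hx : 0 < x) (hxX : x ≤ X)
    (hX : 1 ≤ X) (hδ : 0 < δ) (hδ1 : δ ≤ 1) (hε : 0 < ε) :
    ∃ (M : ℕ) (κ R ℓ0 : ℝ), 1 ≤ M ∧ 0 < κ ∧ 1 ≤ R ∧ ∀ (ℓ G t : ℝ) (f : ℂ → ℂ), ℓ0 ≤ ℓ → UD K ϑ0 ℓ G f →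
      Pf κ (1 / 2 + 1 / (2 * M)) R ℓ G f →
      (∀ k : ℕ, 1 ≤ k → k ≤ M → ∀ v : ℝ, |v| ≤ R → ‖f (((k / (2 * M) : ℝ) : ℂ) + v * I)‖ ≤
        G * Real.exp (ℓ * phx x (k / (2 * M)) + κ * ℓ)) →
      0 < t → x ≤ 2 * t * ℓ → 2 * t * ℓ ≤ X →
      Cnt (heat t f) {z : ℂ | δ ≤ z.re ∧ z.re ≤ 1 ∧ |z.im| ≤ 1} (ε * ℓ) := by
  obtain ⟨κj, Rj, hκj, hRj, HJ⟩ := jen_all 1 δ ε (ϑ0 + 1 / 2) le_rfl hδ hδ1 hε (by linarith)
  obtain ⟨κh, Rh, ℓh, hκh, hRh, HH⟩ := hpx_all K ϑ0 x X κj Rj hK h1 h2 hx hxX hX hκj hRj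
  obtain ⟨ℓl, HL⟩ := hlo_all K ϑ0 x X κj Rj hK h1 h2 hx hX hκj hRj
  obtain ⟨M, κn, Rn, ℓn, hM, hκn, hRn, HN⟩ := net_all K ϑ0 x κh Rh hK h1 h2 hx hκh (by linarith)
  refine ⟨M, κn, Rn, max 1 (max ℓh (max ℓl ℓn)), hM, hκn, hRn, ?_⟩
  intro ℓ G t f hℓ hf hpf hb ht ht1 ht2
  have hℓ1 : 1 ≤ ℓ := (le_max_left _ _).trans hℓ
  have hℓ2 : max ℓh (max ℓl ℓn) ≤ ℓ := (le_max_right _ _).trans hℓ
  have hℓh : ℓh ≤ ℓ := (le_max_left _ _).trans hℓ2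
  have hℓ3 : max ℓl ℓn ≤ ℓ := (le_max_right _ _).trans hℓ2
  have hℓl : ℓl ≤ ℓ := (le_max_left _ _).trans hℓ3
  have hℓn : ℓn ≤ ℓ := (le_max_right _ _).trans hℓ3
  have hG := hf.hG
  have hN := HN ℓ G f hℓn hf hpf hb
  have hH := HH ℓ G t f hℓh hf hN ht (by linarith) ht2
  have hL := HL ℓ G t f hℓl hf ht ht1 ht2
  refine HJ ℓ (G * Real.exp (t * ℓ ^ 2)) (heat t f) (by linarith) (by positivity)
    (Pool.Agent.W327.HF.heat_diff hf.slow ht.le) (fun u hu0 hu1 hu2 => ?_) (fun u hu0 hu1 hu2 => (hL u hu0 hu1 hu2).1)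
  have h3 := hH u (by rw [abs_of_nonneg hu0]; exact hu1) hu2
  rwa [abs_of_nonneg hu0] at h3

/-- few zeros give growth -/
theorem few_inv (K ϑ0 g X κ : ℝ) (hK : 1 ≤ K) (h1 : 1 / 2 ≤ ϑ0) (h2 : ϑ0 ≤ 2) (hg : 0 < g) (hX : 1 ≤ X)
    (hκ : 0 < κ) :
    ∃ κ1 R ℓ0 : ℝ, 0 < κ1 ∧ 1 ≤ R ∧ ∀ (ℓ G t : ℝ) (f : ℂ → ℂ), ℓ0 ≤ ℓ → UD K ϑ0 ℓ G f → 0 < t →
      g ≤ 2 * t * ℓ → 2 * t * ℓ ≤ X →
      Cnt (heat t f) {z : ℂ | κ1 ≤ z.re ∧ z.re ≤ R ∧ |z.im| ≤ R} (κ1 * ℓ) →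
      ∀ r : ℝ, 0 ≤ r → r ≤ 1 → ‖f r‖ ≤ G * Real.exp (ℓ * phx (2 * t * ℓ) r + κ * ℓ) := by
  obtain ⟨κi, Ri, ℓi, hκi, hκi1, hRi, HI⟩ := invx_all K ϑ0 g X κ hK h1 h2 hg hX hκ
  obtain ⟨κt, Rt, hκt, hRt, HT⟩ := tcz_all (ϑ0 + 1) (ϑ0 + 1 / 2) κi κi (max 2 Ri) (by linarith) (by linarith)
    (by linarith) hκi hκi1 hκi (by linarith [le_max_left 2 Ri])
  have hRt2 : 2 ≤ Rt := (le_max_left _ _).trans hRt
  have hRti : Ri ≤ Rt := (le_max_right _ _).trans hRt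
  obtain ⟨K', ℓu, hK', HU⟩ := hup_all K ϑ0 X hK h1 h2 hX
  obtain ⟨ℓl, HL⟩ := hlo_all K ϑ0 g X κt Rt hK h1 h2 hg hX hκt (by linarith)
  refine ⟨κt, Rt, max (K' * (1 + (2 * Rt) ^ 2)) (max 1 (max ℓi (max ℓu ℓl))), hκt, by linarith, ?_⟩
  intro ℓ G t f hℓ hf ht ht1 ht2 hcnt
  have hℓ0 : K' * (1 + (2 * Rt) ^ 2) ≤ ℓ := (le_max_left _ _).trans hℓ
  have hℓ' : max 1 (max ℓi (max ℓu ℓl)) ≤ ℓ := (le_max_right _ _).trans hℓ
  have hℓ1 : 1 ≤ ℓ := (le_max_left _ _).trans hℓ'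
  have hℓ2 : max ℓi (max ℓu ℓl) ≤ ℓ := (le_max_right _ _).trans hℓ'
  have hℓi : ℓi ≤ ℓ := (le_max_left _ _).trans hℓ2
  have hℓ3 : max ℓu ℓl ≤ ℓ := (le_max_right _ _).trans hℓ2
  have hℓu : ℓu ≤ ℓ := (le_max_left _ _).trans hℓ3
  have hℓl : ℓl ≤ ℓ := (le_max_right _ _).trans hℓ3
  have hG := hf.hG
  have hU := HU ℓ G t f hℓu hf ht ht2
  have hL := HL ℓ G t f hℓl hf ht ht1 ht2
  have hT := HT ℓ (G * Real.exp (t * ℓ ^ 2)) (heat t f) (by linarith) (by positivity)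
    (Pool.Agent.W327.HF.heat_diff hf.slow ht.le) (fun u hu0 hu1 hu2 => by
      refine (hU u).trans ?_
      apply mul_le_mul_of_nonneg_left _ (by positivity)
      apply Real.exp_le_exp.2
      have h3 : ‖u‖ ≤ 2 * Rt := by
        refine (norm_le_abs_re_add_abs_im u).trans ?_
        rw [abs_of_nonneg hu0]
        linarith
      have h4 : ‖u‖ ^ 2 ≤ (2 * Rt) ^ 2 := pow_le_pow_left₀ (norm_nonneg _) h3 2
      have h5 : K' * (1 + ‖u‖ ^ 2) ≤ ℓ := by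
        refine le_trans ?_ hℓ0
        apply mul_le_mul_of_nonneg_left _ (by linarith)
        linarith
      have h6 : max |u.re| ϑ0 ≤ u.re + ϑ0 := by
        rw [abs_of_nonneg hu0]
        exact max_le (by linarith) (by linarith)
      have h7 : ℓ * max |u.re| ϑ0 ≤ ℓ * (u.re + ϑ0) := mul_le_mul_of_nonneg_left h6 (by linarith)
      linarith) (fun u hu0 hu1 hu2 => hL u hu0 hu1 hu2) hcnt
  exact HI ℓ G t f hℓi hf ht ht1 ht2 (fun u hu0 hu1 hu2 =>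
    hT u hu0 (hu1.trans (le_max_left _ _)) (hu2.trans (le_max_right _ _)))

/-- the exponent increases with the time -/
lemma phx_mono_x {x x' r : ℝ} (hx : 0 < x) (hxx : x ≤ x') (hr : 0 ≤ r) : phx x r ≤ phx x' r := by
  have hx' : 0 < x' := by linarith
  unfold phx
  have h0 : 0 ≤ max (x' - r) 0 ^ 2 / (2 * x') := by positivity
  rcases le_total (x - r) 0 with h1 | h1
  · rw [max_eq_right h1]
    simp only [ne_eq, OfNat.ofNat_ne_zero, not_false_eq_true, zero_pow, zero_div]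
    linarith
  · have h2 : 0 ≤ x' - r := by linarith
    rw [max_eq_left h1, max_eq_left h2]
    have e1 : (x' - r) ^ 2 / (2 * x') - (x - r) ^ 2 / (2 * x) = (x' - x) * (x * x' - r ^ 2) / (2 * x * x') := by
      field_simp
      ring
    have h3 : r ^ 2 ≤ x * x' := by
      have : r * r ≤ x * x' := mul_le_mul (by linarith) (by linarith) hr hx.le
      nlinarith
    have h4 : 0 ≤ (x' - x) * (x * x' - r ^ 2) / (2 * x * x') :=
      div_nonneg (mul_nonneg (by linarith) (by linarith)) (by positivity)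
    linarith

/-- the exponent as a function of the time -/
lemma phx_time {x x' r : ℝ} (hx : 0 < x) (hxx : x ≤ x') : phx x' r ≤ phx x r + (x' - x) / 2 := by
  have hx' : 0 < x' := by linarith
  unfold phx
  have h0 : 0 ≤ max (x - r) 0 ^ 2 / (2 * x) := by positivity
  rcases le_total (x' - r) 0 with h1 | h1
  · rw [max_eq_right h1]
    simp only [ne_eq, OfNat.ofNat_ne_zero, not_false_eq_true, zero_pow, zero_div]
    linarith
  · rw [max_eq_left h1]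
    rcases le_total (x - r) 0 with h2 | h2
    · have h3 : (x' - r) ^ 2 / (2 * x') ≤ (x' - x) / 2 := by
        rw [div_le_iff₀ (by positivity)]
        have : (x' - r) * (x' - r) ≤ (x' - x) * x' := mul_le_mul (by linarith) (by linarith) h1 (by linarith)
        nlinarith
      linarith
    · rw [max_eq_left h2]
      have e1 : (x' - r) ^ 2 / (2 * x') = x' / 2 - r + r ^ 2 / (2 * x') := by
        field_simp
        ring
      have e2 : (x - r) ^ 2 / (2 * x) = x / 2 - r + r ^ 2 / (2 * x) := by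
        field_simp
        ring
      have h3 : r ^ 2 / (2 * x') ≤ r ^ 2 / (2 * x) := by
        apply div_le_div_of_nonneg_left (sq_nonneg r) (by positivity)
        linarith
      rw [e1, e2]
      linarith

end Pool.Agent.H83XI
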