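import Pool.Agent.H83XI.Few
import Pool.Agent.H83XI.Grow

set_option autoImplicit false

/-!
# Few zeros off the line and the growth exponents: local statements for `Xd`
-/

open Complex Set MeasureTheory Filter Topology
open scoped ComplexConjugate NNReal ENNReal

namespace Pool.Agent.H83XI

open H353.E H353.F Pool.Agent.W169.HF Pool.Agent.Helper41x.Dl

/-- the order of a zero under an affine map -/
theorem ord_affine {F : ℂ → ℂ} (hF : Differentiable ℂ F) (hne : ∃ u, F u ≠ 0) {k a b : ℂ} (hk : k ≠ 0)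
    (ha : a ≠ 0) (z : ℂ) :
    analyticOrderNatAt (fun w => k * F (b + a * w)) z = analyticOrderNatAt F (b + a * z) := by
  obtain ⟨h, hh, hz, hfac⟩ := Pool.Agent.W186.LH.single hF hne (b + a * z)
  obtain ⟨n, hn⟩ : ∃ n : ℕ, n = analyticOrderNatAt F (b + a * z) := ⟨_, rfl⟩
  rw [← hn] at hfac ⊢
  refine Pool.Agent.W186.LH.ord_of (h := fun w => k * a ^ n * h (b + a * w)) ?_ ?_ ?_ ?_
  · exact (hF.comp (f := fun w : ℂ => b + a * w) (by fun_prop)).const_mul k
  · exact (hh.comp (f := fun w : ℂ => b + a * w) (by fun_prop)).const_mul _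
  · exact mul_ne_zero (mul_ne_zero hk (pow_ne_zero _ ha)) hz
  · intro u
    rw [hfac (b + a * u)]
    have e : b + a * u - (b + a * z) = a * (u - z) := by ring
    rw [e, mul_pow]
    ring

/-- counting in the shifted plane -/
theorem cnt_sh {t y c : ℝ} (ht : 0 ≤ t) {A : Set ℂ} (h : Cnt (heat t (sh Xd y)) A c) (hne : ∃ u, heat t Xd u ≠ 0)
    (S : Finset ℂ) (hS : ∀ s ∈ S, heat t Xd s = 0 ∧ s - (1 / 2 + (y : ℂ) * I) ∈ A) :
    ∑ s ∈ S, (analyticOrderNatAt (heat t Xd) s : ℝ) ≤ c := by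
  classical
  have h1 := h (S.image fun s => s - (1 / 2 + (y : ℂ) * I)) (by
    intro u hu
    rw [Finset.mem_image] at hu
    obtain ⟨s, hs, rfl⟩ := hu
    obtain ⟨h2, h3⟩ := hS s hs
    refine ⟨?_, h3⟩
    rw [heat_sh]
    have e : 1 / 2 + (y : ℂ) * I + (s - (1 / 2 + (y : ℂ) * I)) = s := by ring
    rw [e, h2])
  rw [Finset.sum_image (by intro a _ b _ hab; simpa using hab)] at h1
  refine le_trans (le_of_eq ?_) h1
  refine Finset.sum_congr rfl fun s _ => ?_
  congr 1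
  have e1 : heat t (sh Xd y) = fun w => 1 * heat t Xd ((1 / 2 + (y : ℂ) * I) + 1 * w) := by
    funext w
    rw [heat_sh, one_mul, one_mul]
  rw [e1, ord_affine (Pool.Agent.W327.HF.heat_diff slow_Xd ht) hne one_ne_zero one_ne_zero]
  congr 1
  ring

theorem cnt_sh' {t y c : ℝ} (ht : 0 ≤ t) {A : Set ℂ} (hne : ∃ u, heat t Xd u ≠ 0)
    (h : ∀ S : Finset ℂ, (∀ s ∈ S, heat t Xd s = 0 ∧ s - (1 / 2 + (y : ℂ) * I) ∈ A) →
      ∑ s ∈ S, (analyticOrderNatAt (heat t Xd) s : ℝ) ≤ c) : Cnt (heat t (sh Xd y)) A c := by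
  classical
  intro S hS
  have h1 := h (S.image fun u => 1 / 2 + (y : ℂ) * I + u) (by
    intro s hs
    rw [Finset.mem_image] at hs
    obtain ⟨u, hu, rfl⟩ := hs
    obtain ⟨h2, h3⟩ := hS u hu
    rw [heat_sh] at h2
    refine ⟨h2, ?_⟩
    have e : 1 / 2 + (y : ℂ) * I + u - (1 / 2 + (y : ℂ) * I) = u := by ring
    rw [e]
    exact h3)
  rw [Finset.sum_image (by intro a _ b _ hab; simpa using hab)] at h1
  refine le_trans (le_of_eq ?_) h1
  refine Finset.sum_congr rfl fun s _ => ?_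
  congr 1
  have e1 : heat t (sh Xd y) = fun w => 1 * heat t Xd ((1 / 2 + (y : ℂ) * I) + 1 * w) := by
    funext w
    rw [heat_sh, one_mul, one_mul]
  rw [e1, ord_affine (Pool.Agent.W327.HF.heat_diff slow_Xd ht) hne one_ne_zero one_ne_zero, one_mul]

/-- growth gives few zeros at a given height -/
theorem few_loc {c ε δ : ℝ} (hc : 0 < c) (hc1 : c ≤ 1 / 2) (hε : 0 < ε) (hε1 : ε ≤ 1) (hδ : 0 < δ)
    (hδ1 : δ ≤ 1) : ∃ t1 R κ : ℝ, 0 < t1 ∧ 0 ≤ R ∧ 0 < κ ∧
    ∀ t y : ℝ, 0 < t → t ≤ t1 → 1 ≤ |y| → c + ε ≤ t * Real.log |y| →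
      (∀ v r : ℝ, |v| ≤ R → 0 ≤ r → r ≤ 1 / 2 → ‖Xd (1 / 2 + ((y + v : ℝ) : ℂ) * I + (r : ℂ))‖ ≤
        Real.exp ((max (2 * c - r) 0 ^ 2 / (4 * c) + κ) * Real.log |y|) *
          ‖gaf 1 mu (1 / 2 + ((y + v : ℝ) : ℂ) * I + (r : ℂ))‖) →
      ∀ S : Finset ℂ, (∀ s ∈ S, heat t Xd s = 0 ∧ 1 / 2 + δ ≤ s.re ∧ |s.im - y| ≤ 1) →
        ∑ s ∈ S, (analyticOrderNatAt (heat t Xd) s : ℝ) ≤ ε * Real.log |y| := by
  obtain ⟨B, hB, SS⟩ := sharp_Xd (η := 1 / 2) (by norm_num) (by norm_num)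
  have e32 : (1 + 1 / 2 : ℝ) = 3 / 2 := by norm_num
  rw [e32] at SS
  have e1 : (3 / 2 - 1 / 2 : ℝ) = 1 := by norm_num
  have hC : (1 : ℝ) ≤ 12 := by norm_num
  have hK : 1 ≤ 5 * (B + 4 * 12) := by linarith
  obtain ⟨M, κa, Ra, ℓa, hM1, hκa, hRa, HA⟩ := few_abs (5 * (B + 4 * 12)) 1 (2 * c) 4 δ (ε / 2) hK (by norm_num)
    (by norm_num) (by positivity) (by linarith) (by norm_num) hδ hδ1 (by positivity)
  have hM0 : (1 : ℝ) ≤ M := by exact_mod_cast hM1
  obtain ⟨ℓq, HP⟩ : ∃ ℓ0 : ℝ, ∀ (ℓ G : ℝ) (f : ℂ → ℂ), ℓ0 ≤ ℓ → UD (5 * (B + 4 * 12)) 1 ℓ G f →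
      (∀ u : ℂ, 1 / 2 < u.re → f u ≠ 0) → Pf κa (1 / 2 + 1 / (2 * M)) Ra ℓ G f := by
    obtain ⟨Rq, ℓq, hRq, H⟩ := prof_all (5 * (B + 4 * 12)) 1 (1 / 2) (1 / (2 * M)) κa Ra hK (by norm_num)
      (by norm_num) (by norm_num) (by norm_num) (by positivity) (by
        rw [div_le_one (by positivity)]
        linarith) hκa hRa
    exact ⟨ℓq, fun ℓ G f h1 h2 h3 => H ℓ G f h1 h2 fun u hu _ => h3 u hu⟩
  obtain ⟨tc, ℓc, htc, HC⟩ := local_simple 12 B (3 / 2) (fun K => 4 * Real.exp (2 * |K| + 10)) hC hB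
    (by norm_num) (by norm_num) (η := 1) one_pos
  obtain ⟨κ, hκd⟩ : ∃ κ : ℝ, κ = min (κa / 2) 1 := ⟨_, rfl⟩
  have hκ : 0 < κ := by rw [hκd]; exact lt_min (by positivity) one_pos
  have hκ1 : κ ≤ 1 := by rw [hκd]; exact min_le_right _ _
  have hκ2 : κ ≤ κa / 2 := by rw [hκd]; exact min_le_left _ _
  obtain ⟨q, hq⟩ : ∃ q : ℝ, q = 2 * (21 + 48 * (2 + Ra ^ 2)) / κa := ⟨_, rfl⟩
  obtain ⟨L, hL⟩ : ∃ L : ℝ, L = max (max q ℓa) (max ℓq (ℓc + 15)) := ⟨_, rfl⟩
  have hL1 : q ≤ L := by rw [hL]; exact (le_max_left _ _).trans (le_max_left _ _)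
  have hL2 : ℓa ≤ L := by rw [hL]; exact (le_max_right _ _).trans (le_max_left _ _)
  have hL3 : ℓq ≤ L := by rw [hL]; exact (le_max_left _ _).trans (le_max_right _ _)
  have hL4 : ℓc + 15 ≤ L := by rw [hL]; exact (le_max_right _ _).trans (le_max_right _ _)
  have hq0 : 0 < q := by rw [hq]; positivity
  have hL0 : 0 < L := by linarith
  refine ⟨min tc (min (ε / 58) (c / (L + 30))), Ra, κ,
    lt_min htc (lt_min (by positivity) (by positivity)), by linarith, hκ, ?_⟩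
  intro t y ht htt hy hty hgr S hS
  have ht1 : t ≤ tc := htt.trans (min_le_left _ _)
  have ht2 : t ≤ ε / 58 := htt.trans ((min_le_right _ _).trans (min_le_left _ _))
  have ht3 : t ≤ c / (L + 30) := htt.trans ((min_le_right _ _).trans (min_le_right _ _))
  rw [le_div_iff₀ (by norm_num)] at ht2
  rw [le_div_iff₀ (by linarith)] at ht3
  obtain ⟨hℓ1, hℓ2⟩ := eD_bounds hy
  have hlogL : L + 30 ≤ Real.log |y| := by
    by_contra hcon
    push Not at hcon
    have : t * Real.log |y| < t * (L + 30) := mul_lt_mul_of_pos_left hcon ht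
    linarith
  have hℓL : L ≤ eD y := by linarith
  have hℓ0 : 0 < eD y := by linarith
  have htℓ : c + ε - 14 * t ≤ t * eD y := by
    have h3 : t * (Real.log |y| - 14) ≤ t * eD y := mul_le_mul_of_nonneg_left hℓ1 ht.le
    linarith
  have htℓ2 : 2 * c ≤ 2 * t * eD y := by
    have : 2 * t * eD y = 2 * (t * eD y) := by ring
    rw [this]
    linarith
  obtain ⟨hne, -⟩ := db_all (1 / 2) Xd cl_Xd Xd_ne t ht.le
  rcases le_or_gt (2 * t * eD y) 4 with hcase | hcase
  · have ud := ud_of_sharp SS slow_Xd (by norm_num) y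
    rw [e1] at ud
    have hG := ud.hG
    have pf : Pf κa (1 / 2 + 1 / (2 * M)) Ra (eD y) (GG (gaf 1 mu) (gaD 1 mu) y) (sh Xd y) := by
      refine HP (eD y) _ _ (hL3.trans hℓL) ud ?_
      intro u hu1 h0
      have h3 := Xd_zero_re h0
      have h4 : (1 / 2 + (y : ℂ) * I + u).re = 1 / 2 + u.re := by simp
      rw [h4] at h3
      linarith
    have hcnt := HA (eD y) _ t (sh Xd y) (hL2.trans hℓL) ud pf (by
      intro k hk1 hk2 v hv
      obtain ⟨r, hr⟩ : ∃ r : ℝ, r = k / (2 * M) := ⟨_, rfl⟩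
      have hk1' : (1 : ℝ) ≤ k := by exact_mod_cast hk1
      have hk2' : (k : ℝ) ≤ M := by exact_mod_cast hk2
      have hr0 : 0 ≤ r := by rw [hr]; positivity
      have hr1 : r ≤ 1 / 2 := by
        rw [hr, div_le_div_iff₀ (by positivity) (by norm_num)]
        linarith
      rw [← hr]
      obtain ⟨u, hu⟩ : ∃ u : ℂ, u = (r : ℂ) + (v : ℂ) * I := ⟨_, rfl⟩
      have hure : u.re = r := by rw [hu]; simp
      have hun : ‖u‖ ^ 2 ≤ 1 / 4 + Ra ^ 2 := by
        have h3 : ‖u‖ ^ 2 = r ^ 2 + v ^ 2 := by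
          rw [← Complex.normSq_eq_norm_sq, Complex.normSq_apply, hu]
          simp
          ring
        have h4 : v ^ 2 ≤ Ra ^ 2 := by
          rw [← sq_abs]
          exact pow_le_pow_left₀ (abs_nonneg _) hv 2
        have h5 : r ^ 2 ≤ (1 / 2) ^ 2 := pow_le_pow_left₀ hr0 hr1 2
        linarith
      have hpt : 1 / 2 + ((y + v : ℝ) : ℂ) * I + (r : ℂ) = 1 / 2 + (y : ℂ) * I + u := by
        rw [hu]
        push_cast
        ring
      have h1 := hgr v r hv hr0 hr1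
      rw [hpt] at h1
      have h2 := (gaf_two y (u := u) (by rw [hure]; exact hr0)).1
      rw [hure] at h2
      rw [← hu]
      unfold sh
      refine h1.trans ((mul_le_mul_of_nonneg_left h2 (Real.exp_pos _).le).trans ?_)
      rw [mul_left_comm, ← Real.exp_add]
      apply mul_le_mul_of_nonneg_left _ hG.le
      apply Real.exp_le_exp.2
      obtain ⟨E, hE⟩ : ∃ E : ℝ, E = max (2 * c - r) 0 ^ 2 / (4 * c) := ⟨_, rfl⟩
      have hphx : phx (2 * c) r = r + E := by
        unfold phx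
        rw [hE]
        congr 2
        ring
      have hE0 : 0 ≤ E := by rw [hE]; positivity
      have hE1 : E ≤ 1 / 2 := by
        rw [hE, div_le_iff₀ (by positivity)]
        have h3 : max (2 * c - r) 0 ≤ 2 * c := max_le (by linarith) (by positivity)
        have h4 : max (2 * c - r) 0 ^ 2 ≤ (2 * c) ^ 2 := pow_le_pow_left₀ (le_max_right _ _) h3 2
        nlinarith
      rw [hphx, ← hE]
      have h6 : (E + κ) * Real.log |y| ≤ (E + κ) * (eD y + 14) :=
        mul_le_mul_of_nonneg_left (by linarith) (by positivity)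
      have h7 : (E + κ) * 14 ≤ 21 := by linarith
      have h8 : κ * eD y ≤ κa / 2 * eD y := mul_le_mul_of_nonneg_right hκ2 hℓ0.le
      have h9 : 21 + 48 * (2 + Ra ^ 2) ≤ κa / 2 * eD y := by
        have h10 : q ≤ eD y := hL1.trans hℓL
        rw [hq, div_le_iff₀ hκa] at h10
        linarith
      linarith) ht htℓ2 hcase
    refine (cnt_sh ht.le hcnt hne S ?_).trans ?_
    · intro s hs
      obtain ⟨h1, h2, h3⟩ := hS s hs
      refine ⟨h1, ?_, ?_, ?_⟩
      · rw [sub_re]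
        simp
        linarith
      · have h4 := abs_le.1 (heat_strip ht.le h1)
        rw [sub_re]
        simp
        linarith
      · rw [sub_im]
        simpa using h3
    · have h3 : ε / 2 * eD y ≤ ε / 2 * (Real.log |y| + 14) := mul_le_mul_of_nonneg_left hℓ2 (by positivity)
      have h4 : ε / 2 * (Real.log |y| + 14) ≤ ε / 2 * (2 * Real.log |y|) :=
        mul_le_mul_of_nonneg_left (by linarith) (by positivity)
      linarith
  · have hemp : S = ∅ := by
      rw [Finset.eq_empty_iff_forall_notMem]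
      intro s hs
      obtain ⟨h1, h2, h3⟩ := hS s hs
      have hy2 : 2 ≤ |y| := by
        have h4 := Real.log_le_sub_one_of_pos (show 0 < |y| by linarith)
        linarith
      have h4 : |y| / 2 ≤ |s.im| := by
        have := abs_sub_abs_le_abs_sub y s.im
        rw [abs_sub_comm] at this
        linarith
      have h5 : 1 ≤ |s.im| := by linarith
      have h6 : Real.log |y| - 1 ≤ Real.log |s.im| := by
        have h7 := Real.log_le_log (by linarith) h4
        rw [Real.log_div (by linarith) (by norm_num)] at h7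
        have := Real.log_two_lt_d9
        linarith
      obtain ⟨h8, -⟩ := eD_bounds h5
      have h9 : eD y - 29 ≤ eD s.im := by linarith
      have h10 := (HC Xd (gaf 1 mu) (gaD 1 mu) SS slow_Xd t s.im ht ht1 (by
        change ℓc ≤ eD s.im
        linarith) (by
        change 2 * (3 / 2 - 1 / 2) + 1 ≤ 2 * t * eD s.im
        have h11 : 2 * t * (eD y - 29) ≤ 2 * t * eD s.im := mul_le_mul_of_nonneg_left h9 (by positivity)
        linarith) s rfl h1).1
      linarith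
    rw [hemp, Finset.sum_empty]
    have : 0 ≤ Real.log |y| := by linarith
    positivity

/-- few zeros give growth at a given height -/
theorem few_back {c g : ℝ} (hc : 0 < c) (hg : 0 < g) : ∃ t1 R κ : ℝ, 0 < t1 ∧ 1 ≤ R ∧ 0 < κ ∧
    ∀ t y : ℝ, 0 < t → t ≤ t1 → 1 ≤ |y| → t * Real.log |y| = c →
      (∀ S : Finset ℂ, (∀ s ∈ S, heat t Xd s = 0 ∧ 1 / 2 + κ ≤ s.re ∧ |s.im - y| ≤ R) →
        ∑ s ∈ S, (analyticOrderNatAt (heat t Xd) s : ℝ) ≤ κ * Real.log |y|) →
      ∀ r : ℝ, 0 ≤ r → r ≤ 1 → ‖Xd (1 / 2 + (y : ℂ) * I + (r : ℂ))‖ ≤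
        Real.exp ((max (2 * c - r) 0 ^ 2 / (4 * c) + g) * Real.log |y|) *
          ‖gaf 1 mu (1 / 2 + (y : ℂ) * I + (r : ℂ))‖ := by
  obtain ⟨B, hB, S⟩ := sharp_Xd (η := 1 / 2) (by norm_num) (by norm_num)
  have e32 : (1 + 1 / 2 : ℝ) = 3 / 2 := by norm_num
  rw [e32] at S
  have e1 : (3 / 2 - 1 / 2 : ℝ) = 1 := by norm_num
  have hK : 1 ≤ 5 * (B + 4 * 12) := by linarith
  obtain ⟨κb, Rb, ℓb, hκb, hRb, HB⟩ := few_inv (5 * (B + 4 * 12)) 1 c (2 * c + 1) (g / 4) hK (by norm_num)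
    (by norm_num) hc (by linarith) (by positivity)
  obtain ⟨q, hq⟩ : ∃ q : ℝ, q = max 28 (4 * (50 * c + 150 + 7 * g) / g) := ⟨_, rfl⟩
  have hq1 : 28 ≤ q := by rw [hq]; exact le_max_left _ _
  have hqg : 4 * (50 * c + 150 + 7 * g) / g ≤ q := by rw [hq]; exact le_max_right _ _
  obtain ⟨L, hL⟩ : ∃ L : ℝ, L = max q ℓb + 14 := ⟨_, rfl⟩
  have hL0 : 0 < L := by rw [hL]; have := le_max_left q ℓb; linarith
  refine ⟨min (c / L) (min (1 / 28) (c / 28)), Rb, κb / 2, lt_min (by positivity)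
    (lt_min (by norm_num) (by positivity)), hRb, by positivity, ?_⟩
  intro t y ht htt hy hty hcnt r hr0 hr1
  have ht2 : t ≤ c / L := htt.trans (min_le_left _ _)
  have ht3 : t ≤ 1 / 28 := htt.trans ((min_le_right _ _).trans (min_le_left _ _))
  have ht4 : t ≤ c / 28 := htt.trans ((min_le_right _ _).trans (min_le_right _ _))
  rw [le_div_iff₀ hL0] at ht2
  obtain ⟨hℓ1, hℓ2⟩ := eD_bounds hy
  have hlogL : L ≤ Real.log |y| := by
    by_contra hcon
    push Not at hcon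
    have : t * Real.log |y| < t * L := mul_lt_mul_of_pos_left hcon ht
    linarith
  have hℓL : max q ℓb ≤ eD y := by rw [hL] at hlogL; linarith
  have hℓb : ℓb ≤ eD y := (le_max_right _ _).trans hℓL
  have hℓq : q ≤ eD y := (le_max_left _ _).trans hℓL
  have hℓ0 : 0 < eD y := by linarith
  have htlo : t * eD y ≤ c + 14 * t := by
    have h3 : t * eD y ≤ t * (Real.log |y| + 14) := mul_le_mul_of_nonneg_left hℓ2 ht.le
    linarith
  have htup : c - 14 * t ≤ t * eD y := by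
    have h3 : t * (Real.log |y| - 14) ≤ t * eD y := mul_le_mul_of_nonneg_left hℓ1 ht.le
    linarith
  have e2t : 2 * t * eD y = 2 * (t * eD y) := by ring
  have ud := ud_of_sharp S slow_Xd (by norm_num) y
  rw [e1] at ud
  have hG := ud.hG
  obtain ⟨hne, -⟩ := db_all (1 / 2) Xd cl_Xd Xd_ne t ht.le
  have h1 := HB (eD y) (GG (gaf 1 mu) (gaD 1 mu) y) t (sh Xd y) hℓb ud ht (by rw [e2t]; linarith)
    (by rw [e2t]; linarith) (cnt_sh' ht.le hne fun S hS => by
      refine (hcnt S fun s hs => ?_).trans ?_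
      · obtain ⟨h3, h4, h5, h6⟩ := hS s hs
        refine ⟨h3, ?_, ?_⟩
        · rw [sub_re] at h4
          simp at h4
          linarith
        · rw [sub_im] at h6
          simpa using h6
      · have h3 : κb / 2 * Real.log |y| ≤ κb / 2 * (2 * eD y) :=
          mul_le_mul_of_nonneg_left (by linarith) (by positivity)
        linarith) r hr0 hr1
  unfold sh at h1
  refine h1.trans ?_
  have h2 := (gaf_two y (u := (r : ℂ)) (by simpa using hr0)).2
  rw [ofReal_re] at h2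
  have hn : ‖(r : ℂ)‖ ^ 2 = r ^ 2 := by rw [Complex.norm_real, Real.norm_eq_abs, sq_abs]
  rw [hn] at h2
  refine le_trans ?_ (mul_le_mul_of_nonneg_left h2 (Real.exp_pos _).le)
  rw [mul_left_comm, ← Real.exp_add]
  apply mul_le_mul_of_nonneg_left _ ud.hG.le
  apply Real.exp_le_exp.2
  obtain ⟨lg, hlg⟩ : ∃ lg : ℝ, lg = Real.log |y| := ⟨_, rfl⟩
  rw [← hlg] at hℓ1 hℓ2 hty hlogL ⊢
  have hlg0 : 0 < lg := by linarith
  obtain ⟨E, hE⟩ : ∃ E : ℝ, E = max (2 * c - r) 0 ^ 2 / (4 * c) := ⟨_, rfl⟩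
  have hphx : phx (2 * c) r = r + E := by
    unfold phx
    rw [hE]
    congr 2
    ring
  have hE0 : 0 ≤ E := by rw [hE]; positivity
  have hE1 : E ≤ c := by
    rw [hE, div_le_iff₀ (by positivity)]
    have h3 : max (2 * c - r) 0 ≤ 2 * c := max_le (by linarith) (by positivity)
    have h4 : max (2 * c - r) 0 ^ 2 ≤ (2 * c) ^ 2 := pow_le_pow_left₀ (le_max_right _ _) h3 2
    nlinarith
  have h3 : phx (2 * t * eD y) r ≤ r + E + 14 * t := by
    have h4 := phx_time (x := 2 * c) (x' := 2 * c + 28 * t) (r := r) (by positivity) (by linarith)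
    have h5 := phx_mono_x (x := 2 * t * eD y) (x' := 2 * c + 28 * t) (r := r) (by positivity)
      (by rw [e2t]; linarith) hr0
    rw [hphx] at h4
    linarith
  rw [← hE]
  have h4 : eD y * phx (2 * t * eD y) r ≤ eD y * (r + E + 14 * t) := mul_le_mul_of_nonneg_left h3 hℓ0.le
  have h5 : eD y * E ≤ (lg + 14) * E := mul_le_mul_of_nonneg_right hℓ2 hE0
  have h6 : 14 * (t * eD y) ≤ 14 * (c + 14 * t) := by linarith
  have h7 : g / 4 * eD y ≤ g / 4 * (lg + 14) := mul_le_mul_of_nonneg_left hℓ2 (by positivity)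
  have h8 : r ^ 2 ≤ 1 := by nlinarith
  have h9 : 4 * (50 * c + 150 + 7 * g) ≤ g * lg := by
    have hql : q ≤ lg := by
      have h11 : q + 14 ≤ L := by
        rw [hL]
        linarith [le_max_left q ℓb]
      linarith
    have h10 := hqg.trans hql
    rw [div_le_iff₀ hg] at h10
    linarith
  have h17 : 0 ≤ g * lg := by positivity
  nlinarith

end Pool.Agent.H83XI
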