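import Pool.Agent.H83XI.Grow
import Pool.Agent.H83XI.Fam
import Pool.Agent.W169.HF.Small

set_option autoImplicit false

/-!
# The de Bruijn-Newman family of the Ramanujan Xi-function: final statements
-/

open Complex Set MeasureTheory Filter Topology
open scoped ComplexConjugate NNReal ENNReal

namespace Pool.Agent.H83XI

open H353.E Pool.Agent.Helper41x.Dl Pool.Agent.Helper41x.GN Pool.Agent.W169.HF

/-- all zeros of `H_t` with `|Re z| ≥ exp ((c + ε) / t)` are real and simple, for small `t` -/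
def LineP (c : ℝ) : Prop := ∀ ε : ℝ, 0 < ε → ∃ t1 : ℝ, 0 < t1 ∧ ∀ t : ℝ, 0 < t → t ≤ t1 → ∀ z : ℂ,
  XiT t z = 0 → Real.exp ((c + ε) / t) ≤ |z.re| → z.im = 0 ∧ deriv (XiT t) z ≠ 0

/-- the zeros of `Ξ` with large real part satisfy `|Im z| ≤ ϑ + ε` -/
def StripP (ϑ : ℝ) : Prop := ∀ ε : ℝ, 0 < ε → ∃ Y : ℝ, ∀ z : ℂ, XiD z = 0 → Y ≤ |z.re| → |z.im| ≤ ϑ + ε

/-- `L(6 + i y, Δ) ≪ |y|^(μ + ε)` -/
def SizeP (μ : ℝ) : Prop := ∀ ε : ℝ, 0 < ε → ∃ Y : ℝ, ∀ y : ℝ, Y ≤ |y| →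
  ‖XiD y‖ ≤ |y| ^ (μ + ε) * ‖Gamma (6 + I * y)‖

lemma pt_re (z : ℂ) : (1 / 2 + I * z).re = 1 / 2 - z.im := by
  rw [Complex.add_re, Complex.I_mul_re]
  norm_num
  ring

lemma pt_im (z : ℂ) : (1 / 2 + I * z).im = z.re := by
  rw [Complex.add_im, Complex.I_mul_im]
  norm_num

lemma XiT_heat {t : ℝ} (ht : 0 ≤ t) (z : ℂ) : XiT t z = 1 / 2 * heat t Xd (1 / 2 + I * z) := by
  rw [heat_XiT ht]
  ring

lemma XiT_der {t : ℝ} (ht : 0 ≤ t) (z : ℂ) :
    deriv (XiT t) z = I / 2 * deriv (heat t Xd) (1 / 2 + I * z) := by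
  have e : XiT t = fun z => 1 / 2 * heat t Xd (1 / 2 + I * z) := by
    funext z
    exact XiT_heat ht z
  have h1 : HasDerivAt (fun z : ℂ => 1 / 2 + I * z) I z := by
    simpa using ((hasDerivAt_id z).const_mul I).const_add (1 / 2)
  have h2 := (Pool.Agent.W327.HF.heat_diff slow_Xd ht (1 / 2 + I * z)).hasDerivAt
  have h3 : HasDerivAt (fun z : ℂ => heat t Xd (1 / 2 + I * z)) (deriv (heat t Xd) (1 / 2 + I * z) * I) z :=
    HasDerivAt.comp (h₂ := heat t Xd) z h2 h1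
  rw [e, (h3.const_mul (1 / 2 : ℂ)).deriv]
  ring

lemma zero_iff {t : ℝ} (ht : 0 ≤ t) (z : ℂ) : XiT t z = 0 ↔ heat t Xd (1 / 2 + I * z) = 0 := by
  rw [XiT_heat ht, mul_eq_zero]
  norm_num

lemma zero_iff0 (z : ℂ) : XiD z = 0 ↔ Xd (1 / 2 + I * z) = 0 := by
  rw [XiD_eq, mul_eq_zero]
  norm_num

/-- from the plane of `s` to the plane of `z` -/
lemma pt_inv (s : ℂ) : 1 / 2 + I * (-I * (s - 1 / 2)) = s := by
  linear_combination (-(s - 1 / 2)) * I_mul_I

lemma inv_re (s : ℂ) : (-I * (s - 1 / 2)).re = s.im := by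
  have := pt_im (-I * (s - 1 / 2))
  rw [pt_inv] at this
  exact this.symm

lemma inv_im (s : ℂ) : (-I * (s - 1 / 2)).im = 1 / 2 - s.re := by
  have := pt_re (-I * (s - 1 / 2))
  rw [pt_inv] at this
  linarith

lemma exp_big {c M : ℝ} (hM : 0 < M) {t : ℝ} (ht : 0 < t) (htt : t ≤ c / M) : M ≤ Real.exp (c / t) := by
  rw [le_div_iff₀ hM] at htt
  have h1 : M ≤ c / t := by
    rw [le_div_iff₀ ht]
    linarith
  linarith [Real.add_one_le_exp (c / t)]

lemma log_big {c y t : ℝ} (ht : 0 < t) (h : Real.exp (c / t) ≤ |y|) : c ≤ t * Real.log |y| := by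
  have h1 := Real.log_le_log (Real.exp_pos _) h
  rw [Real.log_exp, div_le_iff₀ ht] at h1
  linarith

/-- (2) zero-free strips give zeros of the flow on the line -/
theorem line_of_strip {ϑ : ℝ} (hϑ : 0 ≤ ϑ) (hϑ1 : ϑ ≤ 1 / 2) (h : StripP ϑ) : LineP ϑ := by
  intro ε hε
  rcases lt_or_ge (ϑ + ε / 3) (1 / 2) with hcase | hcase
  · obtain ⟨Y, hY⟩ := h (ε / 3) (by positivity)
    obtain ⟨t1, R, ht1, hR, H⟩ := fwd_loc (ϑ := ϑ + ε / 3) (g := ε / 3) (by positivity) hcase.le (by positivity)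
    obtain ⟨M, hM⟩ : ∃ M : ℝ, M = max 1 (Y + R) := ⟨_, rfl⟩
    have hM1 : 1 ≤ M := by rw [hM]; exact le_max_left _ _
    have hMY : Y + R ≤ M := by rw [hM]; exact le_max_right _ _
    refine ⟨min t1 ((ϑ + ε) / M), lt_min ht1 (by positivity), fun t ht htt z hz hzr => ?_⟩
    have hbig := exp_big (by linarith) ht (htt.trans (min_le_right _ _))
    have hlog := log_big ht hzr
    obtain ⟨h1, h2⟩ := H t z.re ht (htt.trans (min_le_left _ _)) (by linarith) (by linarith) (fun s hs hsy => by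
      have h3 := hY (-I * (s - 1 / 2)) (by rw [zero_iff0, pt_inv]; exact hs) (by
        rw [inv_re]
        have h4 := abs_sub_abs_le_abs_sub z.re s.im
        rw [abs_sub_comm] at h4
        linarith)
      rw [inv_im] at h3
      linarith [(abs_le.1 h3).1]) (1 / 2 + I * z) (pt_im z) ((zero_iff ht.le z).1 hz)
    rw [pt_re] at h1
    refine ⟨by linarith, ?_⟩
    rw [XiT_der ht.le]
    exact mul_ne_zero (div_ne_zero I_ne_zero two_ne_zero) h2
  · obtain ⟨t1, R, ht1, hR, H⟩ := fwd_loc (ϑ := 1 / 2) (g := ε / 3) (by norm_num) le_rfl (by positivity)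
    refine ⟨min t1 ((ϑ + ε) / 1), lt_min ht1 (by positivity), fun t ht htt z hz hzr => ?_⟩
    have hbig := exp_big one_pos ht (htt.trans (min_le_right _ _))
    have hlog := log_big ht hzr
    obtain ⟨h1, h2⟩ := H t z.re ht (htt.trans (min_le_left _ _)) (by linarith) (by linarith) (fun s hs hsy => by
      have := Xd_zero_re hs
      linarith) (1 / 2 + I * z) (pt_im z) ((zero_iff ht.le z).1 hz)
    rw [pt_re] at h1
    refine ⟨by linarith, ?_⟩
    rw [XiT_der ht.le]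
    exact mul_ne_zero (div_ne_zero I_ne_zero two_ne_zero) h2

theorem strip_half : StripP (1 / 2) := by
  intro ε hε
  refine ⟨0, fun z hz _ => ?_⟩
  rw [zero_iff0] at hz
  have h1 := Xd_zero_re hz
  have h2 : Xd (1 - conj (1 / 2 + I * z)) = 0 := by
    have h3 := Xd_fe (1 - conj (1 / 2 + I * z))
    have h4 : 1 - conj (1 - conj (1 / 2 + I * z)) = 1 / 2 + I * z := by
      rw [map_sub, map_one, Complex.conj_conj]
      ring
    rw [h4, hz, map_zero, mul_zero] at h3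
    exact h3
  have h3 := Xd_zero_re h2
  rw [Complex.sub_re, Complex.one_re, Complex.conj_re, pt_re] at h3
  rw [pt_re] at h1
  rw [abs_le]
  constructor <;> linarith

/-- (1) the unconditional theorem -/
theorem line_half : LineP (1 / 2) := line_of_strip (by norm_num) le_rfl strip_half

lemma gaf_line (y : ℝ) : ‖gaf 1 mu (1 / 2 + (y : ℂ) * I)‖ = 2 * (2 * Real.pi) ^ (-6 : ℝ) * ‖Gamma (6 + I * y)‖ := by
  rw [gaf_mu', norm_mul, norm_mul]
  have e : (1 / 2 + (y : ℂ) * I) + 11 / 2 = 6 + I * y := by ring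
  have h2 : (2 * Real.pi : ℂ) = ((2 * Real.pi : ℝ) : ℂ) := by push_cast; ring
  rw [e, h2, Complex.norm_cpow_eq_rpow_re_of_pos (by positivity)]
  have h3 : (-(6 + I * (y : ℂ))).re = -6 := by simp
  rw [h3]
  norm_num

/-- (3) bounds on the critical line give zeros of the flow on the line -/
theorem line_of_size {μ : ℝ} (hμ : 0 ≤ μ) (hμ1 : μ ≤ 1 / 2) (h : SizeP μ) : LineP (1 / (4 * (1 - μ))) := by
  intro ε hε
  obtain ⟨c, hc⟩ : ∃ c : ℝ, c = 1 / (4 * (1 - μ)) + ε := ⟨_, rfl⟩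
  rw [← hc]
  have hc0 : 0 < c := by
    have : 0 < 1 / (4 * (1 - μ)) := by
      apply div_pos one_pos
      linarith
    linarith
  obtain ⟨t1, R, κ, ht1, hR, hκ, H⟩ := grow_loc (μ := μ) (c := c) hμ hμ1 (by linarith)
  obtain ⟨Y, hY⟩ := h (κ / 2) (by positivity)
  -- for large `y`: `(2 (2 π)^6)⁻¹ (2 |y|)^(μ + κ/2) ≤ |y|^(μ + κ)`
  obtain ⟨A, hA⟩ : ∃ A : ℝ, A = (2 * Real.pi) ^ (6 : ℝ) * 2 ^ (μ + κ / 2) := ⟨_, rfl⟩
  have hA0 : 0 < A := by rw [hA]; positivity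
  obtain ⟨M, hM⟩ : ∃ M : ℝ, M = max (max 1 R) (max (Y + R) (A ^ (2 / κ))) := ⟨_, rfl⟩
  have hM1 : 1 ≤ M := by rw [hM]; exact (le_max_left _ _).trans (le_max_left _ _)
  have hMR : R ≤ M := by rw [hM]; exact (le_max_right _ _).trans (le_max_left _ _)
  have hMY : Y + R ≤ M := by rw [hM]; exact (le_max_left _ _).trans (le_max_right _ _)
  have hMA : A ^ (2 / κ) ≤ M := by rw [hM]; exact (le_max_right _ _).trans (le_max_right _ _)
  have hM0 : 0 < M := by linarith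
  refine ⟨min t1 (c / M), lt_min ht1 (by positivity), fun t ht htt z hz hzr => ?_⟩
  have hbig := exp_big hM0 ht (htt.trans (min_le_right _ _))
  have hlog := log_big ht hzr
  have hzM : M ≤ |z.re| := hbig.trans hzr
  have hz1 : 1 ≤ |z.re| := hM1.trans hzM
  have hz0 : 0 < |z.re| := by linarith
  obtain ⟨h1, h2⟩ := H t z.re ht (htt.trans (min_le_left _ _)) hz1 hlog (fun v hv => by
    have h3 : |z.re| - R ≤ |z.re + v| := by
      have := abs_sub_abs_le_abs_sub z.re (-v)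
      rw [sub_neg_eq_add, abs_neg] at this
      linarith
    have h4 : |z.re + v| ≤ 2 * |z.re| := by
      refine (abs_add_le _ _).trans ?_
      linarith
    have h5 := hY (z.re + v) (by linarith)
    have hpt : (1 / 2 + I * ((z.re + v : ℝ) : ℂ)) = 1 / 2 + ((z.re + v : ℝ) : ℂ) * I := by ring
    have h6 : ‖Xd (1 / 2 + ((z.re + v : ℝ) : ℂ) * I)‖ = 2 * ‖XiD ((z.re + v : ℝ) : ℂ)‖ := by
      rw [XiD_eq, hpt, norm_mul]
      norm_num
      ring
    rw [h6, gaf_line]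
    have hp : 0 ≤ μ + κ / 2 := by positivity
    have h7 : |z.re + v| ^ (μ + κ / 2) ≤ 2 ^ (μ + κ / 2) * |z.re| ^ (μ + κ / 2) := by
      rw [← Real.mul_rpow (by norm_num) hz0.le]
      exact Real.rpow_le_rpow (abs_nonneg _) h4 hp
    have h8 : A ≤ |z.re| ^ (κ / 2) := by
      have h9 : (A ^ (2 / κ)) ^ (κ / 2) ≤ |z.re| ^ (κ / 2) :=
        Real.rpow_le_rpow (by positivity) (hMA.trans hzM) (by positivity)
      rw [← Real.rpow_mul hA0.le] at h9
      have : 2 / κ * (κ / 2) = 1 := by field_simp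
      rwa [this, Real.rpow_one] at h9
    have h9 : Real.exp ((μ + κ) * Real.log |z.re|) = |z.re| ^ (μ + κ / 2) * |z.re| ^ (κ / 2) := by
      rw [← Real.rpow_add hz0, Real.rpow_def_of_pos hz0]
      congr 1
      ring
    rw [h9]
    have h10 : (2 * Real.pi) ^ (6 : ℝ) * (2 * Real.pi) ^ (-6 : ℝ) = 1 := by
      rw [← Real.rpow_add (by positivity)]
      norm_num
    have hΓ := norm_nonneg (Gamma (6 + I * ((z.re + v : ℝ) : ℂ)))
    calc 2 * ‖XiD ((z.re + v : ℝ) : ℂ)‖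
        ≤ 2 * (|z.re + v| ^ (μ + κ / 2) * ‖Gamma (6 + I * ((z.re + v : ℝ) : ℂ))‖) := by gcongr
      _ ≤ 2 * ((2 ^ (μ + κ / 2) * |z.re| ^ (μ + κ / 2)) * ‖Gamma (6 + I * ((z.re + v : ℝ) : ℂ))‖) := by gcongr
      _ = |z.re| ^ (μ + κ / 2) * (((2 * Real.pi) ^ (6 : ℝ) * (2 * Real.pi) ^ (-6 : ℝ)) * 2 ^ (μ + κ / 2)) *
            (2 * ‖Gamma (6 + I * ((z.re + v : ℝ) : ℂ))‖) := by rw [h10]; ring
      _ = |z.re| ^ (μ + κ / 2) * A * (2 * (2 * Real.pi) ^ (-6 : ℝ) * ‖Gamma (6 + I * ((z.re + v : ℝ) : ℂ))‖) := by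
          rw [hA]; ring
      _ ≤ _ := by gcongr) (1 / 2 + I * z) (pt_im z) ((zero_iff ht.le z).1 hz)
  rw [pt_re] at h1
  refine ⟨by linarith, ?_⟩
  rw [XiT_der ht.le]
  exact mul_ne_zero (div_ne_zero I_ne_zero two_ne_zero) h2

/-- choice of the time: at height `y` take `t = (c + g) / log |y|` -/
theorem choice {c : ℝ} (hc : 0 ≤ c) (h : LineP c) {g : ℝ} (hg : 0 < g) {t1 R : ℝ} (ht1 : 0 < t1) (hR : 0 ≤ R) :
    ∃ Y : ℝ, 1 ≤ Y ∧ ∀ y : ℝ, Y ≤ |y| → ∃ t : ℝ, 0 < t ∧ t ≤ t1 ∧ t * Real.log |y| = c + g ∧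
      ∀ s : ℂ, heat t Xd s = 0 → |s.im - y| ≤ R → s.re = 1 / 2 := by
  obtain ⟨c', hc'⟩ : ∃ c' : ℝ, c' = c + g := ⟨_, rfl⟩
  have hc'0 : 0 < c' := by rw [hc']; positivity
  obtain ⟨t0, ht0, H0⟩ := h (g / 2) (by positivity)
  obtain ⟨lam, hlam⟩ : ∃ lam : ℝ, lam = (c + g / 2) / c' := ⟨_, rfl⟩
  have hlam1 : lam < 1 := by
    rw [hlam, div_lt_one hc'0, hc']
    linarith
  have hlam0 : 0 < 1 - lam := by linarith
  obtain ⟨L, hL⟩ : ∃ L : ℝ, L = max (max (c' / t0) (c' / t1)) (max (1 / (1 - lam)) (2 * R + 1)) := ⟨_, rfl⟩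
  have hL1 : c' / t0 ≤ L := by rw [hL]; exact (le_max_left _ _).trans (le_max_left _ _)
  have hL2 : c' / t1 ≤ L := by rw [hL]; exact (le_max_right _ _).trans (le_max_left _ _)
  have hL3 : 1 / (1 - lam) ≤ L := by rw [hL]; exact (le_max_left _ _).trans (le_max_right _ _)
  have hL4 : 2 * R + 1 ≤ L := by rw [hL]; exact (le_max_right _ _).trans (le_max_right _ _)
  have hL0 : 1 ≤ L := by linarith
  refine ⟨Real.exp L, Real.one_le_exp (by linarith), fun y hy => ?_⟩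
  have hy1 : 1 ≤ |y| := (Real.one_le_exp (by linarith)).trans hy
  have hy0 : 0 < |y| := by linarith
  obtain ⟨lg, hlg⟩ : ∃ lg : ℝ, lg = Real.log |y| := ⟨_, rfl⟩
  have hlgL : L ≤ lg := by
    have := Real.log_le_log (Real.exp_pos _) hy
    rw [Real.log_exp] at this
    rw [hlg]
    exact this
  have hlg0 : 0 < lg := by linarith
  have hyexp : |y| = Real.exp lg := by rw [hlg, Real.exp_log hy0]
  obtain ⟨t, ht⟩ : ∃ t : ℝ, t = c' / lg := ⟨_, rfl⟩
  have ht0' : 0 < t := by rw [ht]; positivity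
  have htt0 : t ≤ t0 := by
    rw [ht, div_le_iff₀ hlg0]
    have := hL1.trans hlgL
    rw [div_le_iff₀ ht0] at this
    linarith
  have htt1 : t ≤ t1 := by
    rw [ht, div_le_iff₀ hlg0]
    have := hL2.trans hlgL
    rw [div_le_iff₀ ht1] at this
    linarith
  refine ⟨t, ht0', htt1, ?_, fun s hs hsy => ?_⟩
  · rw [← hlg, ht, ← hc']
    field_simp
  · have h1 : Real.exp ((c + g / 2) / t) ≤ |s.im| := by
      have e1 : (c + g / 2) / t = lam * lg := by
        rw [ht, hlam]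
        field_simp
      rw [e1]
      have h2 : |y| - R ≤ |s.im| := by
        have := abs_sub_abs_le_abs_sub y s.im
        rw [abs_sub_comm] at this
        linarith
      refine le_trans ?_ h2
      rw [hyexp]
      have h3 : Real.exp (lam * lg) ≤ Real.exp lg * (1 / 2) := by
        have e2 : lam * lg = lg + -((1 - lam) * lg) := by ring
        rw [e2, Real.exp_add]
        refine mul_le_mul_of_nonneg_left ?_ (Real.exp_pos _).le
        have h4 : 1 ≤ (1 - lam) * lg := by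
          have := hL3.trans hlgL
          rw [div_le_iff₀ hlam0] at this
          linarith
        have h5 : Real.exp (-((1 - lam) * lg)) ≤ Real.exp (-1) := Real.exp_le_exp.2 (by linarith)
        refine h5.trans ?_
        rw [Real.exp_neg, one_div]
        apply inv_anti₀ (by norm_num)
        linarith [Real.add_one_le_exp (1 : ℝ)]
      have h6 : lg + 1 ≤ Real.exp lg := Real.add_one_le_exp lg
      linarith
    have h2 := H0 t ht0' htt0 (-I * (s - 1 / 2)) (by rw [zero_iff ht0'.le, pt_inv]; exact hs) (by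
      rw [inv_re]; exact h1)
    have h3 := h2.1
    rw [inv_im] at h3
    linarith

/-- the main step of (4) -/
theorem of_line {c : ℝ} (hc : 0 ≤ c) (h : LineP c) {g : ℝ} (hg : 0 < g) : ∃ Y : ℝ, 1 ≤ Y ∧ ∀ y : ℝ, Y ≤ |y| →
    (∀ s : ℂ, s.im = y → Xd s = 0 → s.re ≤ 1 / 2 + (2 * c + 3 * g)) ∧
    ‖Xd (1 / 2 + (y : ℂ) * I)‖ ≤ GG (gaf 1 mu) (gaD 1 mu) y * |y| ^ (c + 2 * g) := by
  obtain ⟨t1, R, ht1, hR, H⟩ := bwd_loc (c := c + g) (g := g) (by positivity) hg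
  obtain ⟨Y, hY1, hY⟩ := choice hc h hg ht1 hR
  refine ⟨Y, hY1, fun y hy => ?_⟩
  obtain ⟨t, ht, htt, hty, hz⟩ := hY y hy
  have hy1 : 1 ≤ |y| := hY1.trans hy
  have hy0 : 0 < |y| := by linarith
  obtain ⟨r1, r2⟩ := H t y ht htt hy1 hty hz
  refine ⟨fun s hs hz => ?_, ?_⟩
  · have := r1 s hs hz
    linarith
  · refine r2.trans (le_of_eq ?_)
    rw [Real.rpow_def_of_pos hy0]
    congr 2
    ring

/-- (4) -/
theorem strip_of_line {c : ℝ} (hc : 0 ≤ c) (h : LineP c) : StripP (2 * c) := by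
  intro ε hε
  obtain ⟨Y, hY1, hY⟩ := of_line hc h (g := ε / 3) (by positivity)
  refine ⟨Y, fun z hz hzr => ?_⟩
  obtain ⟨h1, -⟩ := hY z.re hzr
  have hz' : Xd (1 / 2 + I * z) = 0 := (zero_iff0 z).1 hz
  have h2 := h1 (1 / 2 + I * z) (pt_im z) hz'
  have hzc : Xd (1 - conj (1 / 2 + I * z)) = 0 := by
    have h3 := Xd_fe (1 - conj (1 / 2 + I * z))
    have h4 : 1 - conj (1 - conj (1 / 2 + I * z)) = 1 / 2 + I * z := by
      rw [map_sub, map_one, Complex.conj_conj]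
      ring
    rw [h4, hz', map_zero, mul_zero] at h3
    exact h3
  have h3 := h1 (1 - conj (1 / 2 + I * z)) (by
    rw [Complex.sub_im, Complex.one_im, Complex.conj_im, pt_im]
    ring) hzc
  rw [Complex.sub_re, Complex.one_re, Complex.conj_re, pt_re] at h3
  rw [pt_re] at h2
  rw [abs_le]
  constructor <;> linarith

theorem size_of_line {c : ℝ} (hc : 0 ≤ c) (h : LineP c) : SizeP c := by
  intro ε hε
  obtain ⟨Y, hY1, hY⟩ := of_line hc h (g := ε / 4) (by positivity)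
  obtain ⟨A, hA⟩ : ∃ A : ℝ, A = Real.exp 48 * (2 * Real.pi) ^ (-6 : ℝ) := ⟨_, rfl⟩
  have hA0 : 0 < A := by rw [hA]; positivity
  refine ⟨max Y (A ^ (2 / ε)), fun y hy => ?_⟩
  have hyY : Y ≤ |y| := (le_max_left _ _).trans hy
  have hyA : A ^ (2 / ε) ≤ |y| := (le_max_right _ _).trans hy
  have hy0 : 0 < |y| := by linarith
  obtain ⟨-, h2⟩ := hY y hyY
  have hGG : GG (gaf 1 mu) (gaD 1 mu) y ≤ Real.exp 48 * ‖gaf 1 mu (1 / 2 + (y : ℂ) * I)‖ := by
    have h3 := (gaf_two y (u := 0) le_rfl).2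
    rw [norm_zero, Complex.zero_re, mul_zero, zero_sub, add_zero] at h3
    have h4 := mul_le_mul_of_nonneg_left h3 (Real.exp_pos 48).le
    refine le_trans (le_of_eq ?_) h4
    rw [mul_left_comm, ← Real.exp_add]
    norm_num
  have h5 : ‖XiD (y : ℂ)‖ = 1 / 2 * ‖Xd (1 / 2 + (y : ℂ) * I)‖ := by
    rw [XiD_eq, norm_mul, mul_comm I]
    norm_num
  have h8 : A ≤ |y| ^ (ε / 2) := by
    have h9 : (A ^ (2 / ε)) ^ (ε / 2) ≤ |y| ^ (ε / 2) :=
      Real.rpow_le_rpow (by positivity) hyA (by positivity)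
    rw [← Real.rpow_mul hA0.le] at h9
    have : 2 / ε * (ε / 2) = 1 := by field_simp
    rwa [this, Real.rpow_one] at h9
  have hΓ := norm_nonneg (Gamma (6 + I * (y : ℂ)))
  rw [h5]
  calc 1 / 2 * ‖Xd (1 / 2 + (y : ℂ) * I)‖
      ≤ 1 / 2 * ((Real.exp 48 * ‖gaf 1 mu (1 / 2 + (y : ℂ) * I)‖) * |y| ^ (c + 2 * (ε / 4))) := by
        gcongr
        exact h2.trans (by gcongr)
    _ = A * |y| ^ (c + 2 * (ε / 4)) * ‖Gamma (6 + I * (y : ℂ))‖ := by
        rw [gaf_line, hA]; ring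
    _ ≤ |y| ^ (ε / 2) * |y| ^ (c + 2 * (ε / 4)) * ‖Gamma (6 + I * (y : ℂ))‖ := by gcongr
    _ = _ := by
        rw [← Real.rpow_add hy0]
        congr 2
        ring

theorem strip_iff : StripP 0 ↔ LineP 0 :=
  ⟨fun h => line_of_strip le_rfl (by norm_num) h, fun h => by
    have := strip_of_line le_rfl h
    rwa [mul_zero] at this⟩

/-- (6) the Riemann hypothesis for `Δ` in terms of the zeros of `H_t` in a box -/
theorem rh_iff {c : ℝ} (hc : 1 / 2 < c) : (∀ z : ℂ, XiD z = 0 → z.im = 0) ↔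
    ∃ t1 : ℝ, 0 < t1 ∧ ∀ t : ℝ, 0 < t → t ≤ t1 → ∀ z : ℂ, XiT t z = 0 → |z.re| < Real.exp (c / t) → z.im = 0 := by
  constructor
  · intro h
    refine ⟨1, one_pos, fun t ht _ z hz _ => ?_⟩
    have h1 := mono_all Xd slow_Xd fe_Xd Xd_ne 0 t le_rfl ht.le (fun s hs => by
      rw [heat_zero_time Xd slow_Xd] at hs
      have h2 := h (-I * (s - 1 / 2)) (by rw [zero_iff0, pt_inv]; exact hs)
      rw [inv_im] at h2
      linarith) (1 / 2 + I * z) ((zero_iff ht.le z).1 hz)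
    rw [pt_re] at h1
    linarith
  · rintro ⟨t1, ht1, h⟩ z hz
    obtain ⟨t2, ht2, h2⟩ := line_half (c - 1 / 2) (by linarith)
    have h3 := zero_of_small slow_Xd Xd_ne (T := min t1 t2) (lt_min ht1 ht2) (fun t ht htt s hs => by
      have hz' : XiT t (-I * (s - 1 / 2)) = 0 := by rw [zero_iff ht.le, pt_inv]; exact hs
      have h4 : (-I * (s - 1 / 2)).im = 0 := by
        rcases lt_or_ge |(-I * (s - 1 / 2)).re| (Real.exp (c / t)) with h5 | h5
        · exact h t ht (htt.le.trans (min_le_left _ _)) _ hz' h5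
        · exact (h2 t ht (htt.le.trans (min_le_right _ _)) _ hz' (by
            have : 1 / 2 + (c - 1 / 2) = c := by ring
            rw [this]; exact h5)).1
      rw [inv_im] at h4
      linarith) (1 / 2 + I * z) ((zero_iff0 z).1 hz)
    rw [pt_re] at h3
    linarith

end Pool.Agent.H83XI
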