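import Pool.Agent.H83XI.Fin
import Pool.Agent.H83XI.Char

set_option autoImplicit false

/-!
# The exact characterisation: final statement
-/

open Complex Set MeasureTheory Filter Topology
open scoped ComplexConjugate NNReal ENNReal

namespace Pool.Agent.H83XI

open H353.E Pool.Agent.Helper41x.Dl Pool.Agent.Helper41x.GN Pool.Agent.W169.HF

/-- `L(6 + r + i y, Δ) ≪ |y|^((2c - r)²/(4c) + ε)` uniformly for `0 ≤ r ≤ 2c` -/
def GrowP (c : ℝ) : Prop := ∀ ε : ℝ, 0 < ε → ∃ Y : ℝ, ∀ y r : ℝ, Y ≤ |y| → 0 ≤ r → r ≤ 2 * c →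
  ‖XiD (y - I * r)‖ ≤ |y| ^ ((2 * c - r) ^ 2 / (4 * c) + ε) * ‖Gamma (6 + r + I * y)‖

theorem LineP_mono {c c' : ℝ} (hc : c ≤ c') (h : LineP c) : LineP c' := by
  intro ε hε
  obtain ⟨t1, ht1, H⟩ := h ε hε
  refine ⟨t1, ht1, fun t ht htt z hz hzr => H t ht htt z hz (le_trans ?_ hzr)⟩
  apply Real.exp_le_exp.2
  gcongr

lemma gaf_line2 (y r : ℝ) : ‖gaf 1 mu (1 / 2 + (y : ℂ) * I + (r : ℂ))‖ =
    2 * (2 * Real.pi) ^ (-(6 + r)) * ‖Gamma (6 + r + I * y)‖ := by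
  rw [gaf_mu', norm_mul, norm_mul]
  have e : (1 / 2 + (y : ℂ) * I + (r : ℂ)) + 11 / 2 = 6 + r + I * y := by ring
  have h2 : (2 * Real.pi : ℂ) = ((2 * Real.pi : ℝ) : ℂ) := by push_cast; ring
  rw [e, h2, Complex.norm_cpow_eq_rpow_re_of_pos (by positivity)]
  have h3 : (-(6 + (r : ℂ) + I * (y : ℂ))).re = -(6 + r) := by simp
  rw [h3]
  norm_num

lemma XiD_pt (y r : ℝ) : ‖Xd (1 / 2 + (y : ℂ) * I + (r : ℂ))‖ = 2 * ‖XiD (y - I * r)‖ := by
  have e : 1 / 2 + I * ((y : ℂ) - I * r) = 1 / 2 + (y : ℂ) * I + (r : ℂ) := by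
    linear_combination (-(r : ℂ)) * I_mul_I
  rw [XiD_eq, e, norm_mul]
  norm_num
  ring

theorem grow_of_line {c : ℝ} (hc : 0 < c) (h : LineP c) : GrowP c := by
  intro ε hε
  obtain ⟨g, hg⟩ : ∃ g : ℝ, g = ε / 2 := ⟨_, rfl⟩
  have hg0 : 0 < g := by rw [hg]; positivity
  obtain ⟨t1, R, ht1, hR, H⟩ := back_loc (c := c + g) (g := g) (by positivity) hg0
  obtain ⟨Y, hY1, hY⟩ := choice hc.le h hg0 ht1 hR
  refine ⟨Y, fun y r hy hr0 hr1 => ?_⟩
  obtain ⟨t, ht, htt, hty, hz⟩ := hY y hy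
  have hy1 : 1 ≤ |y| := hY1.trans hy
  have hy0 : 0 < |y| := by linarith
  have h1 := H t y ht htt hy1 hty hz r hr0 (by linarith)
  rw [XiD_pt, gaf_line2] at h1
  have hΓ := norm_nonneg (Gamma (6 + r + I * (y : ℂ)))
  have hpi : (2 * Real.pi) ^ (-(6 + r)) ≤ 1 := by
    apply Real.rpow_le_one_of_one_le_of_nonpos
    · have := Real.pi_gt_three
      linarith
    · linarith
  have hexp : (2 * (c + g) - r) ^ 2 / (4 * (c + g)) + g ≤ (2 * c - r) ^ 2 / (4 * c) + ε := by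
    have e1 : (2 * (c + g) - r) ^ 2 / (4 * (c + g)) = (c + g) - r + r ^ 2 / (4 * (c + g)) := by
      field_simp
      ring
    have e2 : (2 * c - r) ^ 2 / (4 * c) = c - r + r ^ 2 / (4 * c) := by
      field_simp
      ring
    have h3 : r ^ 2 / (4 * (c + g)) ≤ r ^ 2 / (4 * c) := by
      apply div_le_div_of_nonneg_left (sq_nonneg r) (by positivity)
      linarith
    rw [e1, e2]
    linarith
  have h4 : Real.exp (((2 * (c + g) - r) ^ 2 / (4 * (c + g)) + g) * Real.log |y|) ≤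
      |y| ^ ((2 * c - r) ^ 2 / (4 * c) + ε) := by
    rw [Real.rpow_def_of_pos hy0]
    apply Real.exp_le_exp.2
    rw [mul_comm]
    exact mul_le_mul_of_nonneg_left hexp (Real.log_nonneg hy1)
  have h5 : 2 * ‖XiD (y - I * r)‖ ≤ 2 * (|y| ^ ((2 * c - r) ^ 2 / (4 * c) + ε) * ‖Gamma (6 + r + I * y)‖) := by
    refine h1.trans ?_
    calc Real.exp (((2 * (c + g) - r) ^ 2 / (4 * (c + g)) + g) * Real.log |y|) *
          (2 * (2 * Real.pi) ^ (-(6 + r)) * ‖Gamma (6 + r + I * y)‖)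
        ≤ |y| ^ ((2 * c - r) ^ 2 / (4 * c) + ε) * (2 * 1 * ‖Gamma (6 + r + I * y)‖) := by gcongr
      _ = _ := by ring
  linarith

/-- **The exact characterisation.** -/
theorem char_iff {c : ℝ} (hc : 0 < c) : LineP c ↔ StripP (2 * c) ∧ GrowP c := by
  refine ⟨fun h => ⟨strip_of_line hc.le h, grow_of_line hc h⟩, fun ⟨hs, hg⟩ => ?_⟩
  rcases le_or_gt (1 / 2) c with hc1 | hc1
  · exact LineP_mono hc1 line_half
  intro ε0 hε0
  obtain ⟨ε, hεd⟩ : ∃ ε : ℝ, ε = min ε0 1 := ⟨_, rfl⟩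
  have hε : 0 < ε := by rw [hεd]; exact lt_min hε0 one_pos
  have hε1 : ε ≤ 1 := by rw [hεd]; exact min_le_right _ _
  have hεε : ε ≤ ε0 := by rw [hεd]; exact min_le_left _ _
  obtain ⟨t1, R, δ, κ, ht1, hR, hδ, hκ, H⟩ := char_loc hc hc1 hε hε1
  obtain ⟨Y1, hY1⟩ := hs δ hδ
  obtain ⟨Y2, hY2⟩ := hg (κ / 2) (by positivity)
  obtain ⟨A, hA⟩ : ∃ A : ℝ, A = (2 * Real.pi) ^ (7 : ℝ) := ⟨_, rfl⟩
  have hA0 : 0 < A := by rw [hA]; positivity
  obtain ⟨M, hM⟩ : ∃ M : ℝ, M = max (max 1 (Y1 + R)) (max Y2 (A ^ (2 / κ))) := ⟨_, rfl⟩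
  have hM1 : 1 ≤ M := by rw [hM]; exact (le_max_left _ _).trans (le_max_left _ _)
  have hMY1 : Y1 + R ≤ M := by rw [hM]; exact (le_max_right _ _).trans (le_max_left _ _)
  have hMY2 : Y2 ≤ M := by rw [hM]; exact (le_max_left _ _).trans (le_max_right _ _)
  have hMA : A ^ (2 / κ) ≤ M := by rw [hM]; exact (le_max_right _ _).trans (le_max_right _ _)
  have hM0 : 0 < M := by linarith
  refine ⟨min t1 ((c + ε) / M), lt_min ht1 (by positivity), fun t ht htt z hz hzr => ?_⟩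
  have hzr' : Real.exp ((c + ε) / t) ≤ |z.re| := by
    refine le_trans (Real.exp_le_exp.2 ?_) hzr
    gcongr
  have hbig := exp_big hM0 ht (htt.trans (min_le_right _ _))
  have hlog := log_big ht hzr'
  have hzM : M ≤ |z.re| := hbig.trans hzr'
  have hz1 : 1 ≤ |z.re| := hM1.trans hzM
  have hz0 : 0 < |z.re| := by linarith
  obtain ⟨h1, h2⟩ := H t z.re ht (htt.trans (min_le_left _ _)) hz1 hlog (fun s hs hsy => by
      have h3 := hY1 (-I * (s - 1 / 2)) (by rw [zero_iff0, pt_inv]; exact hs) (by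
        rw [inv_re]
        have h4 := abs_sub_abs_le_abs_sub z.re s.im
        rw [abs_sub_comm] at h4
        linarith)
      rw [inv_im] at h3
      linarith [(abs_le.1 h3).1]) (fun r hr0 hr1 => by
      have h3 := hY2 z.re r (hMY2.trans hzM) hr0 hr1
      rw [XiD_pt, gaf_line2]
      have h8 : A ≤ |z.re| ^ (κ / 2) := by
        have h9 : (A ^ (2 / κ)) ^ (κ / 2) ≤ |z.re| ^ (κ / 2) :=
          Real.rpow_le_rpow (by positivity) (hMA.trans hzM) (by positivity)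
        rw [← Real.rpow_mul hA0.le] at h9
        have : 2 / κ * (κ / 2) = 1 := by field_simp
        rwa [this, Real.rpow_one] at h9
      have hpi : 1 ≤ A * (2 * Real.pi) ^ (-(6 + r)) := by
        rw [hA, ← Real.rpow_add (by positivity)]
        apply Real.one_le_rpow
        · have := Real.pi_gt_three
          linarith
        · linarith
      have h9 : Real.exp (((2 * c - r) ^ 2 / (4 * c) + κ) * Real.log |z.re|) =
          |z.re| ^ ((2 * c - r) ^ 2 / (4 * c) + κ / 2) * |z.re| ^ (κ / 2) := by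
        rw [← Real.rpow_add hz0, Real.rpow_def_of_pos hz0]
        congr 1
        ring
      rw [h9]
      have hΓ := norm_nonneg (Gamma (6 + r + I * (z.re : ℂ)))
      have hp := Real.rpow_nonneg (abs_nonneg z.re) ((2 * c - r) ^ 2 / (4 * c) + κ / 2)
      calc 2 * ‖XiD ((z.re : ℂ) - I * r)‖
          ≤ 2 * (|z.re| ^ ((2 * c - r) ^ 2 / (4 * c) + κ / 2) * ‖Gamma (6 + r + I * (z.re : ℂ))‖ * 1) := by
            rw [mul_one]
            gcongr
        _ ≤ 2 * (|z.re| ^ ((2 * c - r) ^ 2 / (4 * c) + κ / 2) * ‖Gamma (6 + r + I * (z.re : ℂ))‖ *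
              (A * (2 * Real.pi) ^ (-(6 + r)))) := by gcongr
        _ = |z.re| ^ ((2 * c - r) ^ 2 / (4 * c) + κ / 2) * A *
              (2 * (2 * Real.pi) ^ (-(6 + r)) * ‖Gamma (6 + r + I * (z.re : ℂ))‖) := by ring
        _ ≤ _ := by gcongr) (1 / 2 + I * z) (pt_im z) ((zero_iff ht.le z).1 hz)
  rw [pt_re] at h1
  refine ⟨by linarith, ?_⟩
  rw [XiT_der ht.le]
  exact mul_ne_zero (div_ne_zero I_ne_zero two_ne_zero) h2

end Pool.Agent.H83XI
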