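import Pool.Agent.H83XI.FewL
import Pool.Agent.H83XI.Fin2

set_option autoImplicit false

/-!
# Few zeros off the line, the growth exponents and the Lindelöf hypothesis for `L(s, Δ)`: final statements
-/

open Complex Set MeasureTheory Filter Topology
open scoped ComplexConjugate NNReal ENNReal

namespace Pool.Agent.H83XI

open H353.E H353.F Pool.Agent.Helper41x.Dl Pool.Agent.Helper41x.GN Pool.Agent.W169.HF

/-- for small `t` and `|y| ≥ exp ((c + ε) / t)` the zeros of `H_t` with `|Re z - y| ≤ 1`, `|Im z| ≥ δ` have total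
multiplicity at most `ε log |y|` -/
def FewP (c : ℝ) : Prop := ∀ ε : ℝ, 0 < ε → ∀ δ : ℝ, 0 < δ → ∃ t1 : ℝ, 0 < t1 ∧ ∀ t : ℝ, 0 < t → t ≤ t1 →
  ∀ y : ℝ, Real.exp ((c + ε) / t) ≤ |y| → ∀ S : Finset ℂ,
    (∀ z ∈ S, XiT t z = 0 ∧ |z.re - y| ≤ 1 ∧ δ ≤ |z.im|) →
    ∑ z ∈ S, (analyticOrderNatAt (XiT t) z : ℝ) ≤ ε * Real.log |y|

/-- `L(6 + r + i y, Δ) ≪ |y|^(max(2c - r, 0)²/(4c) + ε)` uniformly for `0 ≤ r ≤ a` -/
def GrowA (a c : ℝ) : Prop := ∀ ε : ℝ, 0 < ε → ∃ Y : ℝ, ∀ y r : ℝ, Y ≤ |y| → 0 ≤ r → r ≤ a →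
  ‖XiD (y - I * r)‖ ≤ |y| ^ (max (2 * c - r) 0 ^ 2 / (4 * c) + ε) * ‖Gamma (6 + r + I * y)‖

theorem XiT_neg (t : ℝ) (z : ℂ) : XiT t (-z) = XiT t z := by
  rw [XiT_eq, XiT_eq, ← integral_neg_eq_self]
  refine integral_congr_ae (Eventually.of_forall fun u => ?_)
  simp only
  have e1 : KD ((-u : ℝ) : ℂ) = KD (u : ℂ) := by
    have h1 := KD_herm (-u)
    rw [neg_neg] at h1
    rw [h1, KD_real, Complex.conj_ofReal]
  rw [e1]
  congr 2
  · congr 2
    ring
  · push_cast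
    ring

/-- choice of the time: at height `y` take `t = (c + g) / log |y|` -/
theorem choice2 {c g t1 R : ℝ} (hc : 0 ≤ c) (hg : 0 < g) (ht1 : 0 < t1) (hR : 0 ≤ R) :
    ∃ Y : ℝ, 2 * (R + 1) ≤ Y ∧ ∀ y : ℝ, Y ≤ |y| → ∃ t : ℝ, 0 < t ∧ t ≤ t1 ∧ t * Real.log |y| = c + g ∧
      ∀ y' : ℝ, |y' - y| ≤ R → Real.exp ((c + g / 2) / t) ≤ |y'| := by
  obtain ⟨c', hc'⟩ : ∃ c' : ℝ, c' = c + g := ⟨_, rfl⟩
  have hc'0 : 0 < c' := by rw [hc']; positivity
  obtain ⟨lam, hlam⟩ : ∃ lam : ℝ, lam = (c + g / 2) / c' := ⟨_, rfl⟩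
  have hlam1 : lam < 1 := by
    rw [hlam, div_lt_one hc'0, hc']
    linarith
  have hlam0 : 0 < 1 - lam := by linarith
  obtain ⟨L, hL⟩ : ∃ L : ℝ, L = max (c' / t1) (max (1 / (1 - lam)) (2 * R + 2)) := ⟨_, rfl⟩
  have hL2 : c' / t1 ≤ L := by rw [hL]; exact le_max_left _ _
  have hL3 : 1 / (1 - lam) ≤ L := by rw [hL]; exact (le_max_left _ _).trans (le_max_right _ _)
  have hL4 : 2 * R + 2 ≤ L := by rw [hL]; exact (le_max_right _ _).trans (le_max_right _ _)
  have hL0 : 1 ≤ L := by linarith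
  refine ⟨Real.exp L, by linarith [Real.add_one_le_exp L], fun y hy => ?_⟩
  have hy1 : 1 ≤ |y| := (Real.one_le_exp (by linarith)).trans hy
  have hy0 : 0 < |y| := by linarith
  obtain ⟨lg, hlg⟩ : ∃ lg : ℝ, lg = Real.log |y| := ⟨_, rfl⟩
  have hlgL : L ≤ lg := by
    have := Real.log_le_log (Real.exp_pos _) hy
    rw [Real.log_exp] at this
    rw [hlg]
    exact this
  have hlg0 : 0 < lg := by linarith
  have hyexp : |y| = Real.exp lg := by rw [hlg, Real.exp_log hy0]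
  obtain ⟨t, ht⟩ : ∃ t : ℝ, t = c' / lg := ⟨_, rfl⟩
  have ht0' : 0 < t := by rw [ht]; positivity
  have htt1 : t ≤ t1 := by
    rw [ht, div_le_iff₀ hlg0]
    have := hL2.trans hlgL
    rw [div_le_iff₀ ht1] at this
    linarith
  refine ⟨t, ht0', htt1, ?_, fun y' hy' => ?_⟩
  · rw [← hlg, ht, ← hc']
    field_simp
  · have e1 : (c + g / 2) / t = lam * lg := by
      rw [ht, hlam]
      field_simp
    rw [e1]
    have h2 : |y| - R ≤ |y'| := by
      have := abs_sub_abs_le_abs_sub y y'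
      rw [abs_sub_comm] at this
      linarith
    refine le_trans ?_ h2
    rw [hyexp]
    have h3 : Real.exp (lam * lg) ≤ Real.exp lg * (1 / 2) := by
      have e2 : lam * lg = lg + -((1 - lam) * lg) := by ring
      rw [e2, Real.exp_add]
      refine mul_le_mul_of_nonneg_left ?_ (Real.exp_pos _).le
      have h4 : 1 ≤ (1 - lam) * lg := by
        have := hL3.trans hlgL
        rw [div_le_iff₀ hlam0] at this
        linarith
      have h5 : Real.exp (-((1 - lam) * lg)) ≤ Real.exp (-1) := Real.exp_le_exp.2 (by linarith)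
      refine h5.trans ?_
      rw [Real.exp_neg, one_div]
      apply inv_anti₀ (by norm_num)
      linarith [Real.add_one_le_exp (1 : ℝ)]
    have h6 : lg + 1 ≤ Real.exp lg := Real.add_one_le_exp lg
    linarith

/-- covering a window by windows of size one -/
theorem cover {w : ℂ → ℝ} {P : ℂ → Prop} {y a : ℝ} (n : ℕ)
    (h : ∀ y' : ℝ, |y' - y| ≤ n → ∀ S : Finset ℂ, (∀ s ∈ S, P s ∧ |s.im - y'| ≤ 1) → ∑ s ∈ S, w s ≤ a) :
    ∀ S : Finset ℂ, (∀ s ∈ S, P s ∧ |s.im - y| ≤ n + 1) → ∑ s ∈ S, w s ≤ (2 * n + 1) * a := by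
  classical
  induction n with
  | zero =>
    intro S hS
    have := h y (by simp) S (fun s hs => by
      obtain ⟨h1, h2⟩ := hS s hs
      refine ⟨h1, ?_⟩
      simpa using h2)
    simpa using this
  | succ n ih =>
    intro S hS
    have h1 := ih (fun y' hy' => h y' (by push_cast; linarith)) (S.filter fun s => |s.im - y| ≤ n + 1) (by
      intro s hs
      rw [Finset.mem_filter] at hs
      exact ⟨(hS s hs.1).1, hs.2⟩)
    have h2 := h (y + (n + 1)) (by
      have : y + ((n : ℝ) + 1) - y = (n : ℝ) + 1 := by ring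
      rw [this, abs_of_nonneg (by positivity)]
      push_cast
      linarith) ((S.filter fun s => ¬ |s.im - y| ≤ n + 1).filter fun s => 0 ≤ s.im - y) (by
      intro s hs
      rw [Finset.mem_filter, Finset.mem_filter] at hs
      obtain ⟨⟨h2, h3⟩, h4⟩ := hs
      obtain ⟨h5, h6⟩ := hS s h2
      refine ⟨h5, ?_⟩
      rw [abs_of_nonneg h4] at h3 h6
      push_cast at h6
      rw [abs_le]
      constructor <;> linarith)
    have h3 := h (y - (n + 1)) (by
      have : y - ((n : ℝ) + 1) - y = -((n : ℝ) + 1) := by ring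
      rw [this, abs_neg, abs_of_nonneg (by positivity)]
      push_cast
      linarith) ((S.filter fun s => ¬ |s.im - y| ≤ n + 1).filter fun s => ¬ 0 ≤ s.im - y) (by
      intro s hs
      rw [Finset.mem_filter, Finset.mem_filter] at hs
      obtain ⟨⟨h2, h3⟩, h4⟩ := hs
      obtain ⟨h5, h6⟩ := hS s h2
      refine ⟨h5, ?_⟩
      push Not at h4
      rw [abs_of_neg h4] at h3 h6
      push_cast at h6
      rw [abs_le]
      constructor <;> linarith)
    have e1 := Finset.sum_filter_add_sum_filter_not S (fun s => |s.im - y| ≤ n + 1) w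
    have e2 := Finset.sum_filter_add_sum_filter_not (S.filter fun s => ¬ |s.im - y| ≤ n + 1)
      (fun s => 0 ≤ s.im - y) w
    push_cast
    linarith

/-- from the plane of `s` to the plane of `z` -/
theorem ord_XiT {t : ℝ} (ht : 0 ≤ t) (z : ℂ) :
    analyticOrderNatAt (XiT t) z = analyticOrderNatAt (heat t Xd) (1 / 2 + I * z) := by
  obtain ⟨hne, -⟩ := db_all (1 / 2) Xd cl_Xd Xd_ne t ht
  have e1 : XiT t = fun w => (1 / 2) * heat t Xd (1 / 2 + I * w) := by
    funext w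
    exact XiT_heat ht w
  rw [e1, ord_affine (Pool.Agent.W327.HF.heat_diff slow_Xd ht) hne (by norm_num) I_ne_zero]

/-- few zeros in the plane of `s` -/
theorem few_s {t y a δ : ℝ} (ht : 0 ≤ t)
    (h : ∀ S : Finset ℂ, (∀ z ∈ S, XiT t z = 0 ∧ |z.re - y| ≤ 1 ∧ δ ≤ |z.im|) →
      ∑ z ∈ S, (analyticOrderNatAt (XiT t) z : ℝ) ≤ a) (S : Finset ℂ)
    (hS : ∀ s ∈ S, (heat t Xd s = 0 ∧ 1 / 2 + δ ≤ s.re) ∧ |s.im - y| ≤ 1) :
    ∑ s ∈ S, (analyticOrderNatAt (heat t Xd) s : ℝ) ≤ a := by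
  classical
  have h1 := h (S.image fun s => -I * (s - 1 / 2)) (by
    intro z hz
    rw [Finset.mem_image] at hz
    obtain ⟨s, hs, rfl⟩ := hz
    obtain ⟨⟨h2, h3⟩, h4⟩ := hS s hs
    refine ⟨?_, ?_, ?_⟩
    · rw [zero_iff ht, pt_inv]
      exact h2
    · rw [inv_re]
      exact h4
    · rw [inv_im, abs_sub_comm]
      refine le_trans ?_ (le_abs_self _)
      linarith)
  rw [Finset.sum_image (by
    intro a _ b _ hab
    have h2 := congrArg (fun w => 1 / 2 + I * w) hab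
    simp only [pt_inv] at h2
    exact h2)] at h1
  refine le_trans (le_of_eq ?_) h1
  refine Finset.sum_congr rfl fun s _ => ?_
  rw [ord_XiT ht, pt_inv]

/-- growth gives few zeros -/
theorem few_of_grow {c : ℝ} (hc : 0 < c) (hc1 : c ≤ 1 / 2) (h : GrowA (1 / 2) c) : FewP c := by
  classical
  intro ε hε δ hδ
  obtain ⟨ε', hε'd⟩ : ∃ ε' : ℝ, ε' = min (ε / 2) 1 := ⟨_, rfl⟩
  have hε' : 0 < ε' := by rw [hε'd]; exact lt_min (by positivity) one_pos
  have hε'1 : ε' ≤ 1 := by rw [hε'd]; exact min_le_right _ _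
  have hε'ε : ε' ≤ ε / 2 := by rw [hε'd]; exact min_le_left _ _
  obtain ⟨δ', hδ'd⟩ : ∃ δ' : ℝ, δ' = min δ 1 := ⟨_, rfl⟩
  have hδ' : 0 < δ' := by rw [hδ'd]; exact lt_min hδ one_pos
  have hδ'1 : δ' ≤ 1 := by rw [hδ'd]; exact min_le_right _ _
  have hδ'δ : δ' ≤ δ := by rw [hδ'd]; exact min_le_left _ _
  obtain ⟨t1, R, κ, ht1, hR, hκ, H⟩ := few_loc hc hc1 hε' hε'1 hδ' hδ'1
  obtain ⟨Y, hY⟩ := h (κ / 2) (by positivity)
  obtain ⟨A, hA⟩ : ∃ A : ℝ, A = (2 * Real.pi) ^ (7 : ℝ) * 2 ^ (c + κ / 2) := ⟨_, rfl⟩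
  have hA0 : 0 < A := by rw [hA]; positivity
  obtain ⟨M, hM⟩ : ∃ M : ℝ, M = max (max 1 (2 * R)) (max (Y + R) (A ^ (2 / κ))) := ⟨_, rfl⟩
  have hM1 : 1 ≤ M := by rw [hM]; exact (le_max_left _ _).trans (le_max_left _ _)
  have hMR : 2 * R ≤ M := by rw [hM]; exact (le_max_right _ _).trans (le_max_left _ _)
  have hMY : Y + R ≤ M := by rw [hM]; exact (le_max_left _ _).trans (le_max_right _ _)
  have hMA : A ^ (2 / κ) ≤ M := by rw [hM]; exact (le_max_right _ _).trans (le_max_right _ _)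
  have hM0 : 0 < M := by linarith
  -- the half with `Im z ≤ -δ`
  have half : ∀ t : ℝ, 0 < t → t ≤ min t1 ((c + ε') / M) → ∀ y : ℝ, Real.exp ((c + ε') / t) ≤ |y| →
      ∀ S : Finset ℂ, (∀ z ∈ S, XiT t z = 0 ∧ |z.re - y| ≤ 1 ∧ z.im ≤ -δ) →
      ∑ z ∈ S, (analyticOrderNatAt (XiT t) z : ℝ) ≤ ε' * Real.log |y| := by
    intro t ht htt y hy S hS
    have hbig := exp_big hM0 ht (htt.trans (min_le_right _ _))
    have hlog := log_big ht hy
    have hyM : M ≤ |y| := hbig.trans hy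
    have hy1 : 1 ≤ |y| := hM1.trans hyM
    have hy0 : 0 < |y| := by linarith
    have h1 := H t y ht (htt.trans (min_le_left _ _)) hy1 hlog (fun v r hv hr0 hr1 => by
      have h3 : |y| - R ≤ |y + v| := by
        have := abs_sub_abs_le_abs_sub y (-v)
        rw [sub_neg_eq_add, abs_neg] at this
        linarith
      have h4 : |y + v| ≤ 2 * |y| := by
        refine (abs_add_le _ _).trans ?_
        linarith
      have h5 := hY (y + v) r (by linarith) hr0 hr1
      rw [XiD_pt, gaf_line2]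
      obtain ⟨E, hE⟩ : ∃ E : ℝ, E = max (2 * c - r) 0 ^ 2 / (4 * c) := ⟨_, rfl⟩
      have hE0 : 0 ≤ E := by rw [hE]; positivity
      have hE1 : E ≤ c := by
        rw [hE, div_le_iff₀ (by positivity)]
        have h3 : max (2 * c - r) 0 ≤ 2 * c := max_le (by linarith) (by positivity)
        have h4 : max (2 * c - r) 0 ^ 2 ≤ (2 * c) ^ 2 := pow_le_pow_left₀ (le_max_right _ _) h3 2
        nlinarith
      rw [← hE] at h5 ⊢
      have hp : 0 ≤ E + κ / 2 := by positivity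
      have h7 : |y + v| ^ (E + κ / 2) ≤ 2 ^ (c + κ / 2) * |y| ^ (E + κ / 2) := by
        calc |y + v| ^ (E + κ / 2) ≤ (2 * |y|) ^ (E + κ / 2) := Real.rpow_le_rpow (abs_nonneg _) h4 hp
          _ = 2 ^ (E + κ / 2) * |y| ^ (E + κ / 2) := Real.mul_rpow (by norm_num) hy0.le
          _ ≤ 2 ^ (c + κ / 2) * |y| ^ (E + κ / 2) := by
              gcongr
              norm_num
      have h8 : A ≤ |y| ^ (κ / 2) := by
        have h9 : (A ^ (2 / κ)) ^ (κ / 2) ≤ |y| ^ (κ / 2) :=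
          Real.rpow_le_rpow (by positivity) (hMA.trans hyM) (by positivity)
        rw [← Real.rpow_mul hA0.le] at h9
        have : 2 / κ * (κ / 2) = 1 := by field_simp
        rwa [this, Real.rpow_one] at h9
      have h9 : Real.exp ((E + κ) * Real.log |y|) = |y| ^ (E + κ / 2) * |y| ^ (κ / 2) := by
        rw [← Real.rpow_add hy0, Real.rpow_def_of_pos hy0]
        congr 1
        ring
      rw [h9]
      have hpi : 1 ≤ (2 * Real.pi) ^ (7 : ℝ) * (2 * Real.pi) ^ (-(6 + r)) := by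
        rw [← Real.rpow_add (by positivity)]
        apply Real.one_le_rpow
        · have := Real.pi_gt_three
          linarith
        · linarith
      have hΓ := norm_nonneg (Gamma (6 + r + I * ((y + v : ℝ) : ℂ)))
      have hp1 := Real.rpow_nonneg (abs_nonneg y) (E + κ / 2)
      calc 2 * ‖XiD (((y + v : ℝ) : ℂ) - I * r)‖
          ≤ 2 * (|y + v| ^ (E + κ / 2) * ‖Gamma (6 + r + I * ((y + v : ℝ) : ℂ))‖) := by gcongr
        _ ≤ 2 * ((2 ^ (c + κ / 2) * |y| ^ (E + κ / 2)) * ‖Gamma (6 + r + I * ((y + v : ℝ) : ℂ))‖) := by gcongr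
        _ = (|y| ^ (E + κ / 2) * 2 ^ (c + κ / 2) * (2 * ‖Gamma (6 + r + I * ((y + v : ℝ) : ℂ))‖)) * 1 := by ring
        _ ≤ (|y| ^ (E + κ / 2) * 2 ^ (c + κ / 2) * (2 * ‖Gamma (6 + r + I * ((y + v : ℝ) : ℂ))‖)) *
              ((2 * Real.pi) ^ (7 : ℝ) * (2 * Real.pi) ^ (-(6 + r))) := by gcongr
        _ = |y| ^ (E + κ / 2) * A * (2 * (2 * Real.pi) ^ (-(6 + r)) *
              ‖Gamma (6 + r + I * ((y + v : ℝ) : ℂ))‖) := by rw [hA]; ring
        _ ≤ _ := by gcongr) (S.image fun z => 1 / 2 + I * z) (by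
      intro s hs
      rw [Finset.mem_image] at hs
      obtain ⟨z, hz, rfl⟩ := hs
      obtain ⟨h2, h3, h4⟩ := hS z hz
      refine ⟨(zero_iff ht.le z).1 h2, ?_, ?_⟩
      · rw [pt_re]
        linarith
      · rw [pt_im]
        exact h3)
    rw [Finset.sum_image (by
      intro a _ b _ hab
      have h2 : I * a = I * b := add_left_cancel hab
      exact mul_left_cancel₀ I_ne_zero h2)] at h1
    refine le_trans (le_of_eq ?_) h1
    refine Finset.sum_congr rfl fun z _ => ?_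
    rw [ord_XiT ht.le]
  refine ⟨min t1 ((c + ε') / M), lt_min ht1 (by positivity), fun t ht htt y hy S hS => ?_⟩
  have hy' : Real.exp ((c + ε') / t) ≤ |y| := by
    refine le_trans (Real.exp_le_exp.2 ?_) hy
    gcongr
    linarith
  have hlog : 0 ≤ Real.log |y| := by
    apply Real.log_nonneg
    refine le_trans (Real.one_le_exp ?_) hy'
    positivity
  have h1 := half t ht htt y hy' (S.filter fun z => z.im ≤ 0) (by
    intro z hz
    rw [Finset.mem_filter] at hz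
    obtain ⟨h2, h3, h4⟩ := hS z hz.1
    rw [abs_of_nonpos hz.2] at h4
    exact ⟨h2, h3, by linarith⟩)
  have h2 := half t ht htt (-y) (by rwa [abs_neg]) ((S.filter fun z => ¬ z.im ≤ 0).image fun z => -z) (by
    intro w hw
    rw [Finset.mem_image] at hw
    obtain ⟨z, hz, rfl⟩ := hw
    rw [Finset.mem_filter] at hz
    obtain ⟨h2, h3, h4⟩ := hS z hz.1
    have h5 := hz.2
    push Not at h5
    rw [abs_of_pos h5] at h4
    refine ⟨by rw [XiT_neg]; exact h2, ?_, ?_⟩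
    · have e : (-z).re - -y = -(z.re - y) := by rw [neg_re]; ring
      rw [e, abs_neg]
      exact h3
    · rw [neg_im]
      linarith)
  rw [Finset.sum_image (by intro a _ b _ hab; exact neg_injective hab), abs_neg] at h2
  have h3 : ∑ z ∈ S.filter (fun z => ¬ z.im ≤ 0), (analyticOrderNatAt (XiT t) z : ℝ) ≤ ε' * Real.log |y| := by
    refine le_trans (le_of_eq ?_) h2
    refine Finset.sum_congr rfl fun z _ => ?_
    congr 1
    have e1 : XiT t = fun w => 1 * XiT t (0 + (-1) * w) := by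
      funext w
      rw [one_mul, zero_add, neg_one_mul, XiT_neg]
    have hd : Differentiable ℂ (XiT t) := by
      have e2 : XiT t = fun w => (1 / 2) * heat t Xd (1 / 2 + I * w) := by
        funext w
        exact XiT_heat ht.le w
      rw [e2]
      exact ((Pool.Agent.W327.HF.heat_diff slow_Xd ht.le).comp (f := fun w : ℂ => 1 / 2 + I * w)
        (by fun_prop)).const_mul _
    have hne : ∃ u, XiT t u ≠ 0 := by
      obtain ⟨⟨u, hu⟩, -⟩ := db_all (1 / 2) Xd cl_Xd Xd_ne t ht.le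
      refine ⟨-I * (u - 1 / 2), ?_⟩
      rw [Ne, zero_iff ht.le, pt_inv]
      exact hu
    conv_lhs => rw [e1]
    rw [ord_affine hd hne one_ne_zero (by norm_num)]
    congr 1
    ring
  have h4 := Finset.sum_filter_add_sum_filter_not S (fun z => z.im ≤ 0)
    (fun z => (analyticOrderNatAt (XiT t) z : ℝ))
  have h5 : ε' * Real.log |y| ≤ ε / 2 * Real.log |y| := mul_le_mul_of_nonneg_right hε'ε hlog
  linarith

/-- few zeros give growth -/
theorem grow_of_few {c : ℝ} (hc : 0 < c) (h : FewP c) : GrowA 1 c := by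
  intro ε hε
  obtain ⟨g, hg⟩ : ∃ g : ℝ, g = ε / 2 := ⟨_, rfl⟩
  have hg0 : 0 < g := by rw [hg]; positivity
  obtain ⟨t1, R, κ, ht1, hR, hκ, H⟩ := few_back (c := c + g) (g := g) (by positivity) hg0
  obtain ⟨n, hn⟩ : ∃ n : ℕ, n = ⌈R⌉₊ := ⟨_, rfl⟩
  have hnR : R ≤ n := by rw [hn]; exact Nat.le_ceil R
  have hn0 : (0 : ℝ) ≤ n := Nat.cast_nonneg n
  obtain ⟨ε1, hε1d⟩ : ∃ ε1 : ℝ, ε1 = min (g / 2) (κ / (2 * (2 * n + 1))) := ⟨_, rfl⟩
  have hε1 : 0 < ε1 := by rw [hε1d]; exact lt_min (by positivity) (by positivity)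
  have hε1g : ε1 ≤ g / 2 := by rw [hε1d]; exact min_le_left _ _
  have hε1κ : ε1 * (2 * (2 * n + 1)) ≤ κ := by
    have : ε1 ≤ κ / (2 * (2 * n + 1)) := by rw [hε1d]; exact min_le_right _ _
    rwa [le_div_iff₀ (by positivity)] at this
  obtain ⟨t0, ht0, H0⟩ := h ε1 hε1 κ hκ
  obtain ⟨Y, hYR, hY⟩ := choice2 (c := c) (g := g) (t1 := min t0 t1) (R := n) hc.le hg0 (lt_min ht0 ht1) hn0
  refine ⟨Y, fun y r hy hr0 hr1 => ?_⟩
  obtain ⟨t, ht, htt, hty, hh⟩ := hY y hy
  have hy2 : 2 * (n + 1) ≤ |y| := hYR.trans hy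
  have hy1 : 1 ≤ |y| := by linarith
  have hy0 : 0 < |y| := by linarith
  have hlog : 1 / 2 ≤ Real.log |y| := by
    have h1 := Real.log_le_log (by norm_num) (show (2 : ℝ) ≤ |y| by linarith)
    have := Real.log_two_gt_d9
    linarith
  have h1 := H t y ht (htt.trans (min_le_right _ _)) hy1 hty (fun S hS => by
    have h2 := cover (w := fun s => (analyticOrderNatAt (heat t Xd) s : ℝ))
      (P := fun s => heat t Xd s = 0 ∧ 1 / 2 + κ ≤ s.re) (y := y) (a := ε1 * (2 * Real.log |y|)) n (by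
        intro y' hy' S' hS'
        refine (few_s ht.le (H0 t ht (htt.trans (min_le_left _ _)) y' (by
          refine le_trans (Real.exp_le_exp.2 ?_) (hh y' hy')
          gcongr)) S' hS').trans ?_
        apply mul_le_mul_of_nonneg_left _ hε1.le
        have h3 : |y'| ≤ |y| * |y| := by
          have h4 := abs_sub_abs_le_abs_sub y' y
          nlinarith
        have h5 : 0 < |y'| := lt_of_lt_of_le (Real.exp_pos _) (hh y' hy')
        have h6 := Real.log_le_log h5 h3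
        rw [Real.log_mul hy0.ne' hy0.ne'] at h6
        linarith) S (fun s hs => by
        obtain ⟨h3, h4, h5⟩ := hS s hs
        exact ⟨⟨h3, h4⟩, by linarith⟩)
    refine h2.trans ?_
    have h3 : (2 * (n : ℝ) + 1) * (ε1 * (2 * Real.log |y|)) = ε1 * (2 * (2 * n + 1)) * Real.log |y| := by ring
    rw [h3]
    exact mul_le_mul_of_nonneg_right hε1κ (by linarith)) r hr0 hr1
  rw [XiD_pt, gaf_line2] at h1
  have hΓ := norm_nonneg (Gamma (6 + r + I * (y : ℂ)))
  have hpi : (2 * Real.pi) ^ (-(6 + r)) ≤ 1 := by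
    apply Real.rpow_le_one_of_one_le_of_nonpos
    · have := Real.pi_gt_three
      linarith
    · linarith
  have hexp : max (2 * (c + g) - r) 0 ^ 2 / (4 * (c + g)) + g ≤ max (2 * c - r) 0 ^ 2 / (4 * c) + ε := by
    have h2 := phx_time (x := 2 * c) (x' := 2 * (c + g)) (r := r) (by positivity) (by linarith)
    unfold phx at h2
    have e1 : 2 * (2 * (c + g)) = 4 * (c + g) := by ring
    have e2 : 2 * (2 * c) = 4 * c := by ring
    rw [e1, e2] at h2
    linarith
  have h4 : Real.exp ((max (2 * (c + g) - r) 0 ^ 2 / (4 * (c + g)) + g) * Real.log |y|) ≤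
      |y| ^ (max (2 * c - r) 0 ^ 2 / (4 * c) + ε) := by
    rw [Real.rpow_def_of_pos hy0]
    apply Real.exp_le_exp.2
    rw [mul_comm]
    exact mul_le_mul_of_nonneg_left hexp (Real.log_nonneg hy1)
  have h5 : 2 * ‖XiD (y - I * r)‖ ≤
      2 * (|y| ^ (max (2 * c - r) 0 ^ 2 / (4 * c) + ε) * ‖Gamma (6 + r + I * y)‖) := by
    refine h1.trans ?_
    calc Real.exp ((max (2 * (c + g) - r) 0 ^ 2 / (4 * (c + g)) + g) * Real.log |y|) *
          (2 * (2 * Real.pi) ^ (-(6 + r)) * ‖Gamma (6 + r + I * y)‖)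
        ≤ |y| ^ (max (2 * c - r) 0 ^ 2 / (4 * c) + ε) * (2 * 1 * ‖Gamma (6 + r + I * y)‖) := by gcongr
      _ = _ := by ring
  linarith

theorem GrowA_mono {a b c : ℝ} (hab : a ≤ b) (h : GrowA b c) : GrowA a c := by
  intro ε hε
  obtain ⟨Y, hY⟩ := h ε hε
  exact ⟨Y, fun y r hy h0 h1 => hY y r hy h0 (h1.trans hab)⟩

/-- few zeros off the line and growth -/
theorem few_iff {c : ℝ} (hc : 0 < c) (hc1 : c ≤ 1 / 2) : FewP c ↔ GrowA (1 / 2) c :=
  ⟨fun h => GrowA_mono (by norm_num) (grow_of_few hc h), fun h => few_of_grow hc hc1 h⟩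

theorem FewP_mono {c c' : ℝ} (hc : c ≤ c') (h : FewP c) : FewP c' := by
  intro ε hε δ hδ
  obtain ⟨t1, ht1, H⟩ := h ε hε δ hδ
  refine ⟨t1, ht1, fun t ht htt y hy => H t ht htt y (le_trans ?_ hy)⟩
  apply Real.exp_le_exp.2
  gcongr

theorem few_of_line {c : ℝ} (hc : 0 ≤ c) (h : LineP c) : FewP c := by
  intro ε hε δ hδ
  obtain ⟨t1, ht1, H⟩ := h (ε / 2) (by positivity)
  refine ⟨min t1 (ε / 4), lt_min ht1 (by positivity), fun t ht htt y hy S hS => ?_⟩
  have ht2 : t ≤ ε / 4 := htt.trans (min_le_right _ _)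
  have hy1 : Real.exp ((c + ε / 2) / t) + 1 ≤ |y| := by
    refine le_trans ?_ hy
    have e1 : (c + ε) / t = (c + ε / 2) / t + (ε / 2) / t := by
      field_simp
      ring
    have h2 : 1 ≤ (ε / 2) / t := by
      rw [le_div_iff₀ ht]
      linarith
    have h3 : 2 ≤ Real.exp ((ε / 2) / t) := by linarith [Real.add_one_le_exp ((ε / 2) / t)]
    have h4 : 1 ≤ Real.exp ((c + ε / 2) / t) := Real.one_le_exp (by positivity)
    rw [e1, Real.exp_add]
    nlinarith
  have hemp : S = ∅ := by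
    rw [Finset.eq_empty_iff_forall_notMem]
    intro z hz
    obtain ⟨h1, h2, h3⟩ := hS z hz
    have h4 := (H t ht (htt.trans (min_le_left _ _)) z h1 (by
      have h5 := abs_sub_abs_le_abs_sub y z.re
      rw [abs_sub_comm] at h2
      linarith)).1
    rw [h4, abs_zero] at h3
    linarith
  rw [hemp, Finset.sum_empty]
  have h4 : 1 ≤ |y| := by linarith [Real.exp_pos ((c + ε / 2) / t)]
  have := Real.log_nonneg h4
  positivity

/-- zeros of the flow on the line = few zeros off the line + a zero-free strip -/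
theorem line_iff_few {c : ℝ} (hc : 0 < c) : LineP c ↔ FewP c ∧ StripP (2 * c) := by
  refine ⟨fun h => ⟨few_of_line hc.le h, strip_of_line hc.le h⟩, fun ⟨hf, hs⟩ => ?_⟩
  rcases le_or_gt (1 / 2) c with hc1 | hc1
  · exact LineP_mono hc1 line_half
  rw [char_iff hc]
  refine ⟨hs, fun ε hε => ?_⟩
  obtain ⟨Y, hY⟩ := grow_of_few hc hf ε hε
  refine ⟨Y, fun y r hy h0 h1 => ?_⟩
  have h2 := hY y r hy h0 (by linarith)
  rwa [max_eq_left (by linarith)] at h2

end Pool.Agent.H83XI
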