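import Pool.Agent.H83XI.LocS

set_option autoImplicit false

/-!
# The heat flow of the completed L-function of `Δ`: zero-free strips
-/

open Complex Set MeasureTheory intervalIntegral Filter Topology
open scoped ComplexConjugate NNReal ENNReal

namespace Pool.Agent.H83XI

open H353.E H353.F Pool.Agent.W169.HF Pool.Agent.Helper41x.Dl

/-- `ℓ` for the L-function of `Δ` -/
noncomputable def eD (y : ℝ) : ℝ := el (gaD 1 mu) y

theorem eD_bounds {y : ℝ} (hy : 1 ≤ |y|) : Real.log |y| - 14 ≤ eD y ∧ eD y ≤ Real.log |y| + 14 := by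
  have := abs_le.1 (el_bounds y hy)
  unfold eD
  constructor <;> linarith [this.1, this.2]

theorem cl_Xd : Cl (1 / 2) Xd :=
  { slow := slow_Xd, fe := fe_Xd, zer := fun s hs => by
      have := Xd_zero_re hs
      linarith }

theorem heat_strip {t : ℝ} (ht : 0 ≤ t) {s : ℂ} (hs : heat t Xd s = 0) : |s.re - 1 / 2| ≤ 1 / 2 := by
  obtain ⟨-, hcl⟩ := db_all (1 / 2) Xd cl_Xd Xd_ne t ht
  have h1 := hcl.zer s hs
  obtain ⟨ε, hε, hfe⟩ := hcl.fe
  have h2 : heat t Xd (1 - conj s) = 0 := by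
    rw [hfe]
    have : 1 - conj (1 - conj s) = s := by
      rw [map_sub, map_one, Complex.conj_conj]
      ring
    rw [this, hs, map_zero, mul_zero]
  have h3 := hcl.zer _ h2
  rw [Complex.sub_re, Complex.one_re, Complex.conj_re] at h3
  rw [abs_le]
  constructor <;> linarith

/-- the forward theorem at a given height -/
theorem fwd_loc {ϑ g : ℝ} (hϑ : 0 ≤ ϑ) (hϑ1 : ϑ ≤ 1 / 2) (hg : 0 < g) : ∃ t1 R : ℝ, 0 < t1 ∧ 0 ≤ R ∧
    ∀ t y : ℝ, 0 < t → t ≤ t1 → 1 ≤ |y| → ϑ + g ≤ t * Real.log |y| →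
      (∀ s : ℂ, Xd s = 0 → |s.im - y| ≤ R → s.re ≤ 1 / 2 + ϑ) →
      ∀ s : ℂ, s.im = y → heat t Xd s = 0 → s.re = 1 / 2 ∧ deriv (heat t Xd) s ≠ 0 := by
  -- the sharp data with a small `η`
  obtain ⟨B, hB, S⟩ := sharp_Xd (η := 1 / 2) (by norm_num) (by norm_num)
  have e32 : (1 + 1 / 2 : ℝ) = 3 / 2 := by norm_num
  rw [e32] at S
  have e1 : (3 / 2 - 1 / 2 : ℝ) = 1 := by norm_num
  have hC : (1 : ℝ) ≤ 12 := by norm_num
  have hK : 1 ≤ 5 * (B + 4 * 12) := by linarith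
  obtain ⟨Ra, ℓa, HA⟩ := fwd_all (5 * (B + 4 * 12)) 1 ϑ g 4 hK (by norm_num) (by norm_num) hϑ
    (by linarith) hg (by norm_num)
  obtain ⟨Rb, ℓb, HB⟩ := fwds_all (5 * (B + 4 * 12)) 1 ϑ g 4 hK (by norm_num) (by norm_num) hϑ
    (by linarith) hg (by norm_num)
  obtain ⟨tc, ℓc, htc, HC⟩ := local_simple 12 B (3 / 2) (fun K => 4 * Real.exp (2 * |K| + 10)) hC hB
    (by norm_num) (by norm_num) (η := 1) one_pos
  obtain ⟨L, hL⟩ : ∃ L : ℝ, L = max 1 (max ℓa (max ℓb ℓc)) + 14 := ⟨_, rfl⟩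
  have hL0 : 0 < L := by rw [hL]; have := le_max_left 1 (max ℓa (max ℓb ℓc)); linarith
  refine ⟨min tc (min (g / 28) (g / L)), max 0 (max Ra Rb), lt_min htc (lt_min (by positivity) (by positivity)),
    le_max_left _ _, ?_⟩
  intro t y ht htt hy hty hzf s hs hz
  have ht1 : t ≤ tc := htt.trans (min_le_left _ _)
  have ht2 : t ≤ g / 28 := htt.trans ((min_le_right _ _).trans (min_le_left _ _))
  have ht3 : t ≤ g / L := htt.trans ((min_le_right _ _).trans (min_le_right _ _))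
  rw [le_div_iff₀ (by norm_num)] at ht2
  rw [le_div_iff₀ hL0] at ht3
  obtain ⟨hℓ1, hℓ2⟩ := eD_bounds hy
  have hlogL : L ≤ Real.log |y| := by
    by_contra hcon
    push Not at hcon
    have : t * Real.log |y| < t * L := mul_lt_mul_of_pos_left hcon ht
    linarith
  have hℓL : max 1 (max ℓa (max ℓb ℓc)) ≤ eD y := by rw [hL] at hlogL; linarith
  have hℓa : ℓa ≤ eD y := ((le_max_left _ _).trans (le_max_right _ _)).trans hℓL
  have hℓb : ℓb ≤ eD y := (((le_max_left _ _).trans (le_max_right _ _)).trans (le_max_right _ _)).trans hℓL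
  have hℓc : ℓc ≤ eD y := (((le_max_right _ _).trans (le_max_right _ _)).trans (le_max_right _ _)).trans hℓL
  have h2tℓ : 2 * ϑ + g ≤ 2 * t * eD y := by
    have h3 : t * (Real.log |y| - 14) ≤ t * eD y := mul_le_mul_of_nonneg_left hℓ1 ht.le
    have h4 : 2 * t * eD y = 2 * (t * eD y) := by ring
    rw [h4]
    linarith
  rcases le_or_gt (2 * t * eD y) 4 with hcase | hcase
  · have ud := ud_of_sharp S slow_Xd (by norm_num) y
    rw [e1] at ud
    have hzf' : ∀ R : ℝ, R ≤ max 0 (max Ra Rb) → ∀ u : ℂ, ϑ < u.re → |u.im| ≤ R → sh Xd y u ≠ 0 := by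
      intro R hR u hu1 hu2 h0
      have h3 := hzf (1 / 2 + (y : ℂ) * I + u) h0 (by
        have : (1 / 2 + (y : ℂ) * I + u).im - y = u.im := by simp
        rw [this]
        exact hu2.trans hR)
      have h4 : (1 / 2 + (y : ℂ) * I + u).re = 1 / 2 + u.re := by simp
      rw [h4] at h3
      linarith
    have hstrip := heat_strip ht.le hz
    have hsx : s = 1 / 2 + (y : ℂ) * I + ((s.re - 1 / 2 : ℝ) : ℂ) := by
      apply Complex.ext
      · simp
      · simp [hs]
    have hre : s.re = 1 / 2 := by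
      by_contra hne
      refine HA (eD y) (GG (gaf 1 mu) (gaD 1 mu) y) t (sh Xd y) hℓa ud ht h2tℓ hcase
        (hzf' Ra ((le_max_left _ _).trans (le_max_right _ _))) (s.re - 1 / 2) ?_ (by linarith) ?_
      · intro h
        exact hne (by linarith)
      · rw [heat_sh, ← hsx]
        exact hz
    refine ⟨hre, fun hd => ?_⟩
    have hpos := HB (eD y) (GG (gaf 1 mu) (gaD 1 mu) y) t (sh Xd y) hℓb ud ht h2tℓ hcase
        (hzf' Rb ((le_max_right _ _).trans (le_max_right _ _)))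
    have hsx' : s = 1 / 2 + (y : ℂ) * I := by
      apply Complex.ext
      · simp [hre]
      · simp [hs]
    rw [hsx'] at hz hd
    have := heat_multJ slow_Xd Xd_fe ht hz hd
    linarith
  · refine HC Xd (gaf 1 mu) (gaD 1 mu) S slow_Xd t y ht ht1 hℓc ?_ s hs hz
    change 2 * (3 / 2 - 1 / 2) + 1 ≤ 2 * t * eD y
    linarith

/-- the backward theorem at a given height -/
theorem bwd_loc {c g : ℝ} (hc : 0 < c) (hg : 0 < g) : ∃ t1 R : ℝ, 0 < t1 ∧ 0 ≤ R ∧
    ∀ t y : ℝ, 0 < t → t ≤ t1 → 1 ≤ |y| → t * Real.log |y| = c →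
      (∀ s : ℂ, heat t Xd s = 0 → |s.im - y| ≤ R → s.re = 1 / 2) →
      (∀ s : ℂ, s.im = y → Xd s = 0 → s.re ≤ 1 / 2 + (2 * c + g)) ∧
      ‖Xd (1 / 2 + (y : ℂ) * I)‖ ≤ GG (gaf 1 mu) (gaD 1 mu) y * Real.exp ((c + g) * Real.log |y|) := by
  obtain ⟨B, hB, S⟩ := sharp_Xd (η := 1 / 2) (by norm_num) (by norm_num)
  have e32 : (1 + 1 / 2 : ℝ) = 3 / 2 := by norm_num
  rw [e32] at S
  have e1 : (3 / 2 - 1 / 2 : ℝ) = 1 := by norm_num
  have hK : 1 ≤ 5 * (B + 4 * 12) := by linarith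
  obtain ⟨g1, hg1d⟩ : ∃ g1 : ℝ, g1 = min (g / 4) c := ⟨_, rfl⟩
  have hg1 : 0 < g1 := by rw [hg1d]; exact lt_min (by positivity) hc
  have hg1a : g1 ≤ g / 4 := by rw [hg1d]; exact min_le_left _ _
  have hg1b : g1 ≤ c := by rw [hg1d]; exact min_le_right _ _
  obtain ⟨Ra, ℓa, HA⟩ := bwd_all (5 * (B + 4 * 12)) 1 g1 (2 * c + 1) hK (by norm_num) (by norm_num) hg1
    (by linarith)
  obtain ⟨Rb, ℓb, HB⟩ := size_all (5 * (B + 4 * 12)) 1 g1 (2 * c + 1) (g / 4) hK (by norm_num) (by norm_num)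
    hg1 (by linarith) (by positivity)
  obtain ⟨q, hq⟩ : ∃ q : ℝ, q = max 14 (56 * (c + g + 1) / g) := ⟨_, rfl⟩
  have hq14 : 14 ≤ q := by rw [hq]; exact le_max_left _ _
  have hqg : 56 * (c + g + 1) / g ≤ q := by rw [hq]; exact le_max_right _ _
  obtain ⟨L, hL⟩ : ∃ L : ℝ, L = max 1 (max ℓa (max ℓb q)) + 14 := ⟨_, rfl⟩
  have hL0 : 0 < L := by rw [hL]; have := le_max_left 1 (max ℓa (max ℓb q)); linarith
  have hLq : q ≤ L := by
    rw [hL]
    have := ((le_max_right ℓb q).trans (le_max_right ℓa _)).trans (le_max_right 1 _)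
    linarith
  have hgc : 0 < 28 * (c + g + 1) := by positivity
  refine ⟨min (min (g1 / (28 * (c + g + 1))) (c / L)) (1 / 28), max 0 (max Ra Rb),
    lt_min (lt_min (by positivity) (by positivity)) (by norm_num), le_max_left _ _, ?_⟩
  intro t y ht htt hy hty hzf
  have ht1 : t ≤ g1 / (28 * (c + g + 1)) := htt.trans ((min_le_left _ _).trans (min_le_left _ _))
  have ht2 : t ≤ c / L := htt.trans ((min_le_left _ _).trans (min_le_right _ _))
  have ht3 : t ≤ 1 / 28 := htt.trans (min_le_right _ _)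
  rw [le_div_iff₀ hgc] at ht1
  rw [le_div_iff₀ hL0] at ht2
  obtain ⟨hℓ1, hℓ2⟩ := eD_bounds hy
  have hlogL : L ≤ Real.log |y| := by
    by_contra hcon
    push Not at hcon
    have : t * Real.log |y| < t * L := mul_lt_mul_of_pos_left hcon ht
    linarith
  have hℓL : max 1 (max ℓa (max ℓb q)) ≤ eD y := by rw [hL] at hlogL; linarith
  have hℓa : ℓa ≤ eD y := ((le_max_left _ _).trans (le_max_right _ _)).trans hℓL
  have hℓb : ℓb ≤ eD y := (((le_max_left _ _).trans (le_max_right _ _)).trans (le_max_right _ _)).trans hℓL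
  have hℓ14 : q ≤ eD y := (((le_max_right _ _).trans (le_max_right _ _)).trans (le_max_right _ _)).trans hℓL
  have htlo : t * eD y ≤ c + 14 * t := by
    have h3 : t * eD y ≤ t * (Real.log |y| + 14) := mul_le_mul_of_nonneg_left hℓ2 ht.le
    linarith
  have htup : c - 14 * t ≤ t * eD y := by
    have h3 : t * (Real.log |y| - 14) ≤ t * eD y := mul_le_mul_of_nonneg_left hℓ1 ht.le
    linarith
  have ht28 : 28 * t * (c + g + 1) ≤ g1 := by linarith
  have htg1 : 28 * t ≤ g1 := by nlinarith [mul_pos ht (by positivity : 0 < c + g)]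
  have hgl : g1 ≤ 2 * t * eD y := by
    have : 2 * t * eD y = 2 * (t * eD y) := by ring
    rw [this]
    linarith
  have hlX : 2 * t * eD y ≤ 2 * c + 1 := by
    have : 2 * t * eD y = 2 * (t * eD y) := by ring
    rw [this]
    linarith
  have ud := ud_of_sharp S slow_Xd (by norm_num) y
  rw [e1] at ud
  have hzf' : ∀ R : ℝ, R ≤ max 0 (max Ra Rb) → ∀ u : ℂ, 0 < u.re → |u.im| ≤ R → heat t (sh Xd y) u ≠ 0 := by
    intro R hR u hu1 hu2 h0
    rw [heat_sh] at h0
    have h3 := hzf (1 / 2 + (y : ℂ) * I + u) h0 (by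
      have : (1 / 2 + (y : ℂ) * I + u).im - y = u.im := by simp
      rw [this]
      exact hu2.trans hR)
    have h4 : (1 / 2 + (y : ℂ) * I + u).re = 1 / 2 + u.re := by simp
    rw [h4] at h3
    linarith
  constructor
  · intro s hs hz
    by_contra hcon
    push Not at hcon
    have hsx : s = 1 / 2 + (y : ℂ) * I + ((s.re - 1 / 2 : ℝ) : ℂ) := by
      apply Complex.ext
      · simp
      · simp [hs]
    have hle := Xd_zero_re hz
    refine HA (eD y) (GG (gaf 1 mu) (gaD 1 mu) y) t (sh Xd y) hℓa ud ht hgl hlX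
      (hzf' Ra ((le_max_left _ _).trans (le_max_right _ _))) (s.re - 1 / 2) ?_ (by linarith) ?_
    · have : 2 * t * eD y = 2 * (t * eD y) := by ring
      rw [this]
      linarith
    · unfold sh
      rw [← hsx]
      exact hz
  · have h1 := HB (eD y) (GG (gaf 1 mu) (gaD 1 mu) y) t (sh Xd y) hℓb ud ht hgl hlX
      (hzf' Rb ((le_max_right _ _).trans (le_max_right _ _)))
    have h2 : sh Xd y 0 = Xd (1 / 2 + (y : ℂ) * I) := by unfold sh; rw [add_zero]
    rw [h2] at h1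
    refine h1.trans (mul_le_mul_of_nonneg_left (Real.exp_le_exp.2 ?_) ud.hG.le)
    -- `t ℓ² + (g/4) ℓ ≤ (c + g) log |y|`
    obtain ⟨lg, hlg⟩ : ∃ lg : ℝ, lg = Real.log |y| := ⟨_, rfl⟩
    rw [← hlg] at hℓ1 hℓ2 hty hlogL ⊢
    have hlgq : 56 * (c + g + 1) / g ≤ lg := hqg.trans (hLq.trans hlogL)
    rw [div_le_iff₀ hg] at hlgq
    have hlg0 : 0 < lg := by linarith
    have h3 : t * eD y ^ 2 ≤ (c + 14 * t) * eD y := by
      have : t * eD y ^ 2 = (t * eD y) * eD y := by ring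
      rw [this]
      exact mul_le_mul_of_nonneg_right htlo (by linarith)
    have h4 : (c + 14 * t + g / 4) * eD y ≤ (c + 14 * t + g / 4) * (lg + 14) := by
      apply mul_le_mul_of_nonneg_left hℓ2
      positivity
    have h5 : (c + 14 * t + g / 4) * 14 ≤ g / 4 * lg := by linarith
    have h6 : 14 * t * lg ≤ g / 4 * lg := mul_le_mul_of_nonneg_right (by linarith) hlg0.le
    linarith

end Pool.Agent.H83XI
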