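import Pool.Agent.H83XI.Fin3

set_option autoImplicit false

/-!
# The Lindelöf hypothesis for `L(s, Δ)` and the heat flow
-/

open Complex Set MeasureTheory Filter Topology
open scoped ComplexConjugate NNReal ENNReal

namespace Pool.Agent.H83XI

open H353.E H353.F Pool.Agent.Helper41x.Dl Pool.Agent.Helper41x.GN Pool.Agent.W169.HF

theorem lind_loc {κ : ℝ} (hκ : 0 < κ) : ∃ R κ' Y0 : ℝ, 0 ≤ R ∧ 0 < κ' ∧ 1 ≤ Y0 ∧ ∀ y : ℝ, Y0 ≤ |y| →
    (∀ v : ℝ, |v| ≤ R → ‖Xd (1 / 2 + ((y + v : ℝ) : ℂ) * I)‖ ≤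
      Real.exp (κ' * Real.log |y|) * ‖gaf 1 mu (1 / 2 + ((y + v : ℝ) : ℂ) * I)‖) →
    ∀ r : ℝ, 0 ≤ r → r ≤ 1 / 2 → ‖Xd (1 / 2 + (y : ℂ) * I + (r : ℂ))‖ ≤
      Real.exp (κ * Real.log |y|) * ‖gaf 1 mu (1 / 2 + (y : ℂ) * I + (r : ℂ))‖ := by
  obtain ⟨B, hB, S⟩ := sharp_Xd (η := 1 / 2) (by norm_num) (by norm_num)
  have e32 : (1 + 1 / 2 : ℝ) = 3 / 2 := by norm_num
  rw [e32] at S
  have e1 : (3 / 2 - 1 / 2 : ℝ) = 1 := by norm_num
  obtain ⟨K, hKd⟩ : ∃ K : ℝ, K = 5 * (B + 4 * 12) := ⟨_, rfl⟩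
  have hK : 1 ≤ K := by rw [hKd]; linarith
  obtain ⟨κ', R', ρ', ℓ', hκ', hρ', hρ'1, HM⟩ := maj rect_all (K := K) (K1 := 48) (ϑ0 := 1) (b := 1)
    (M0 := 0) (κ := κ / 2) hK (by norm_num) (by norm_num) (by norm_num) (by norm_num) (by norm_num) le_rfl
    (by norm_num) (by positivity) (fun _ => 48)
  obtain ⟨Rq, ℓq, hRq, HP⟩ := prof_all K 1 (1 / 2) (1 / 2) κ' (max 1 R') hK (by norm_num) (by norm_num)
    (by norm_num) (by norm_num) (by norm_num) (by norm_num) hκ' (le_max_left _ _)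
  obtain ⟨L, hL⟩ : ∃ L : ℝ, L = max (max ℓ' ℓq) (max 14 (2 * (7 * κ + 60) / κ)) := ⟨_, rfl⟩
  have hL1 : ℓ' ≤ L := by rw [hL]; exact (le_max_left _ _).trans (le_max_left _ _)
  have hL2 : ℓq ≤ L := by rw [hL]; exact (le_max_right _ _).trans (le_max_left _ _)
  have hL3 : 14 ≤ L := by rw [hL]; exact (le_max_left _ _).trans (le_max_right _ _)
  have hL4 : 2 * (7 * κ + 60) / κ ≤ L := by rw [hL]; exact (le_max_right _ _).trans (le_max_right _ _)
  refine ⟨max 0 R', κ' / 2, Real.exp (L + 14), le_max_left _ _, by positivity,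
    Real.one_le_exp (by linarith), fun y hyY hline r hr0 hr1 => ?_⟩
  have hy : 1 ≤ |y| := (Real.one_le_exp (by linarith)).trans hyY
  have hlogL : L + 14 ≤ Real.log |y| := by
    have := Real.log_le_log (Real.exp_pos _) hyY
    rwa [Real.log_exp] at this
  obtain ⟨hℓ1, hℓ2⟩ := eD_bounds hy
  have hℓL : L ≤ eD y := by linarith
  have hℓ0 : 0 < eD y := by linarith
  have ud := ud_of_sharp S slow_Xd (by norm_num) y
  rw [e1, ← hKd] at ud
  have hG := ud.hG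
  have pf0 : Pf κ' 1 (max 1 R') (eD y) (GG (gaf 1 mu) (gaD 1 mu) y) (sh Xd y) := by
    have e2 : (1 : ℝ) = 1 / 2 + 1 / 2 := by norm_num
    have h1 := HP (eD y) (GG (gaf 1 mu) (gaD 1 mu) y) (sh Xd y) (hL2.trans hℓL) ud (by
      intro u hu1 _ h0
      have h3 := Xd_zero_re h0
      have h4 : (1 / 2 + (y : ℂ) * I + u).re = 1 / 2 + u.re := by simp
      rw [h4] at h3
      linarith)
    rwa [← e2] at h1
  have pf' : Pf κ' 1 R' (eD y) (GG (gaf 1 mu) (gaD 1 mu) y) (sh Xd y) :=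
    Pf_monoR pf0 le_rfl (le_max_right _ _) hℓ0.le hG.le
  have hinv : ∀ s : ℂ, (gaf 1 mu s)⁻¹ = (Gammaℝ (s + 11 / 2))⁻¹ * (Gammaℝ (s + 13 / 2))⁻¹ := fun s => by
    rw [gaf_mu, mul_inv]
  have mj : Mj (κ / 2) 1 0 (eD y) (GG (gaf 1 mu) (gaD 1 mu) y) (sh Xd y) := by
    refine HM (eD y) _ (sh Xd y) (fun u => sh Xd y u * (gaf 1 mu (1 / 2 + (y : ℂ) * I + u))⁻¹)
      (fun u => gaf 1 mu (1 / 2 + (y : ℂ) * I + u)) (hL1.trans hℓL) ud pf' ?_ (fun u => rfl) ?_ ?_ ?_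
    · simp only [hinv]
      refine (slow_sh slow_Xd y).1.mul (Differentiable.mul ?_ ?_)
      · exact differentiable_Gammaℝ_inv.comp (f := fun u : ℂ => 1 / 2 + (y : ℂ) * I + u + 11 / 2) (by fun_prop)
      · exact differentiable_Gammaℝ_inv.comp (f := fun u : ℂ => 1 / 2 + (y : ℂ) * I + u + 13 / 2) (by fun_prop)
    · intro u hu
      have h1 := (gaf_two y hu).2
      rw [norm_inv]
      have h2 := inv_anti₀ (by positivity) h1
      refine h2.trans (le_of_eq ?_)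
      rw [mul_inv, ← Real.exp_neg]
      congr 2
      ring
    · intro u hu
      have hu0 : 0 ≤ u.re := by linarith
      refine ⟨gaf_ne ?_, (gaf_two y hu0).1⟩
      have : (1 / 2 + (y : ℂ) * I + u).re = 1 / 2 + u.re := by simp
      rw [this]
      linarith
    · intro v hv
      have h1 := hline v (hv.trans (le_max_right _ _))
      have e : 1 / 2 + (y : ℂ) * I + (v : ℂ) * I = 1 / 2 + ((y + v : ℝ) : ℂ) * I := by push_cast; ring
      unfold sh
      rw [e, norm_mul, norm_inv, ← div_eq_mul_inv, div_le_iff₀ (norm_pos_iff.2 (gaf_ne (by simp)))]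
      refine h1.trans (mul_le_mul_of_nonneg_right (Real.exp_le_exp.2 ?_) (norm_nonneg _))
      have h2 : κ' / 2 * Real.log |y| ≤ κ' / 2 * (2 * eD y) :=
        mul_le_mul_of_nonneg_left (by linarith) (by positivity)
      linarith
  have h1 := mj r hr0 (by linarith)
  unfold sh at h1
  refine h1.trans ?_
  have h2 := (gaf_two y (u := (r : ℂ)) (by simpa using hr0)).2
  rw [ofReal_re] at h2
  have hn : ‖(r : ℂ)‖ ^ 2 = r ^ 2 := by rw [Complex.norm_real, Real.norm_eq_abs, sq_abs]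
  rw [hn] at h2
  refine le_trans ?_ (mul_le_mul_of_nonneg_left h2 (Real.exp_pos _).le)
  rw [mul_left_comm, ← Real.exp_add]
  apply mul_le_mul_of_nonneg_left _ ud.hG.le
  apply Real.exp_le_exp.2
  have h3 : κ / 2 * eD y ≤ κ / 2 * (Real.log |y| + 14) := mul_le_mul_of_nonneg_left hℓ2 (by positivity)
  have h4 : r ^ 2 ≤ 1 / 4 := by nlinarith
  have h5 : 2 * (7 * κ + 60) ≤ κ * Real.log |y| := by
    have h6 : 2 * (7 * κ + 60) / κ ≤ Real.log |y| := by linarith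
    rw [div_le_iff₀ hκ] at h6
    linarith
  have e3 : eD y * (0 + (1 - 0 / 1) * r) = eD y * r := by ring
  rw [e3]
  linarith

/-- the Lindelöf hypothesis on the critical line gives it to the right -/
theorem grow_of_lind (h : SizeP 0) {c : ℝ} (hc : 0 < c) : GrowA (1 / 2) c := by
  intro ε hε
  obtain ⟨R, κ, Y0, hR, hκ, hY0, H⟩ := lind_loc hε
  obtain ⟨Y, hY⟩ := h (κ / 2) (by positivity)
  obtain ⟨A, hA⟩ : ∃ A : ℝ, A = (2 * Real.pi) ^ (6 : ℝ) * 2 ^ (κ / 2) := ⟨_, rfl⟩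
  have hA0 : 0 < A := by rw [hA]; positivity
  obtain ⟨M, hM⟩ : ∃ M : ℝ, M = max (max Y0 R) (max (Y + R) (A ^ (2 / κ))) := ⟨_, rfl⟩
  have hM1 : Y0 ≤ M := by rw [hM]; exact (le_max_left _ _).trans (le_max_left _ _)
  have hMR : R ≤ M := by rw [hM]; exact (le_max_right _ _).trans (le_max_left _ _)
  have hMY : Y + R ≤ M := by rw [hM]; exact (le_max_left _ _).trans (le_max_right _ _)
  have hMA : A ^ (2 / κ) ≤ M := by rw [hM]; exact (le_max_right _ _).trans (le_max_right _ _)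
  refine ⟨M, fun y r hyM hr0 hr1 => ?_⟩
  have hy1 : 1 ≤ |y| := by linarith
  have hy0 : 0 < |y| := by linarith
  have h1 := H y (hM1.trans hyM) (fun v hv => by
    have h3 : |y| - R ≤ |y + v| := by
      have := abs_sub_abs_le_abs_sub y (-v)
      rw [sub_neg_eq_add, abs_neg] at this
      linarith
    have h4 : |y + v| ≤ 2 * |y| := by
      refine (abs_add_le _ _).trans ?_
      linarith
    have h5 := hY (y + v) (by linarith)
    have hpt : (1 / 2 + I * ((y + v : ℝ) : ℂ)) = 1 / 2 + ((y + v : ℝ) : ℂ) * I := by ring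
    have h6 : ‖Xd (1 / 2 + ((y + v : ℝ) : ℂ) * I)‖ = 2 * ‖XiD ((y + v : ℝ) : ℂ)‖ := by
      rw [XiD_eq, hpt, norm_mul]
      norm_num
      ring
    rw [h6, gaf_line]
    rw [zero_add] at h5
    have hp : 0 ≤ κ / 2 := by positivity
    have h7 : |y + v| ^ (κ / 2) ≤ 2 ^ (κ / 2) * |y| ^ (κ / 2) := by
      rw [← Real.mul_rpow (by norm_num) hy0.le]
      exact Real.rpow_le_rpow (abs_nonneg _) h4 hp
    have h8 : A ≤ |y| ^ (κ / 2) := by
      have h9 : (A ^ (2 / κ)) ^ (κ / 2) ≤ |y| ^ (κ / 2) :=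
        Real.rpow_le_rpow (by positivity) (hMA.trans hyM) (by positivity)
      rw [← Real.rpow_mul hA0.le] at h9
      have : 2 / κ * (κ / 2) = 1 := by field_simp
      rwa [this, Real.rpow_one] at h9
    have h9 : Real.exp (κ * Real.log |y|) = |y| ^ (κ / 2) * |y| ^ (κ / 2) := by
      rw [← Real.rpow_add hy0, Real.rpow_def_of_pos hy0]
      congr 1
      ring
    rw [h9]
    have h10 : (2 * Real.pi) ^ (6 : ℝ) * (2 * Real.pi) ^ (-6 : ℝ) = 1 := by
      rw [← Real.rpow_add (by positivity)]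
      norm_num
    have hΓ := norm_nonneg (Gamma (6 + I * ((y + v : ℝ) : ℂ)))
    calc 2 * ‖XiD ((y + v : ℝ) : ℂ)‖
        ≤ 2 * (|y + v| ^ (κ / 2) * ‖Gamma (6 + I * ((y + v : ℝ) : ℂ))‖) := by gcongr
      _ ≤ 2 * ((2 ^ (κ / 2) * |y| ^ (κ / 2)) * ‖Gamma (6 + I * ((y + v : ℝ) : ℂ))‖) := by gcongr
      _ = |y| ^ (κ / 2) * (((2 * Real.pi) ^ (6 : ℝ) * (2 * Real.pi) ^ (-6 : ℝ)) * 2 ^ (κ / 2)) *
            (2 * ‖Gamma (6 + I * ((y + v : ℝ) : ℂ))‖) := by rw [h10]; ring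
      _ = |y| ^ (κ / 2) * A * (2 * (2 * Real.pi) ^ (-6 : ℝ) * ‖Gamma (6 + I * ((y + v : ℝ) : ℂ))‖) := by
          rw [hA]; ring
      _ ≤ _ := by gcongr) r hr0 hr1
  rw [XiD_pt, gaf_line2] at h1
  have hΓ := norm_nonneg (Gamma (6 + r + I * (y : ℂ)))
  have hpi : (2 * Real.pi) ^ (-(6 + r)) ≤ 1 := by
    apply Real.rpow_le_one_of_one_le_of_nonpos
    · have := Real.pi_gt_three
      linarith
    · linarith
  have h4 : Real.exp (ε * Real.log |y|) ≤ |y| ^ (max (2 * c - r) 0 ^ 2 / (4 * c) + ε) := by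
    rw [Real.rpow_def_of_pos hy0]
    apply Real.exp_le_exp.2
    rw [mul_comm]
    refine mul_le_mul_of_nonneg_left ?_ (Real.log_nonneg hy1)
    have : 0 ≤ max (2 * c - r) 0 ^ 2 / (4 * c) := by positivity
    linarith
  have h5 : 2 * ‖XiD (y - I * r)‖ ≤
      2 * (|y| ^ (max (2 * c - r) 0 ^ 2 / (4 * c) + ε) * ‖Gamma (6 + r + I * y)‖) := by
    refine h1.trans ?_
    calc Real.exp (ε * Real.log |y|) * (2 * (2 * Real.pi) ^ (-(6 + r)) * ‖Gamma (6 + r + I * y)‖)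
        ≤ |y| ^ (max (2 * c - r) 0 ^ 2 / (4 * c) + ε) * (2 * 1 * ‖Gamma (6 + r + I * y)‖) := by gcongr
      _ = _ := by ring
  linarith

/-- **The Lindelöf hypothesis in terms of the zeros of the heat flow.** -/
theorem lind_iff : FewP 0 ↔ SizeP 0 := by
  constructor
  · intro h ε hε
    obtain ⟨Y, hY⟩ := grow_of_few (c := ε / 2) (by positivity) (FewP_mono (by positivity) h) (ε / 2) (by positivity)
    refine ⟨Y, fun y hy => ?_⟩
    have h1 := hY y 0 hy le_rfl zero_le_one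
    have e1 : max (2 * (ε / 2) - 0) 0 ^ 2 / (4 * (ε / 2)) + ε / 2 = 0 + ε := by
      rw [max_eq_left (by linarith)]
      field_simp
      ring
    rw [e1] at h1
    simpa using h1
  · intro h ε hε δ hδ
    obtain ⟨c, hc⟩ : ∃ c : ℝ, c = min (ε / 2) (1 / 2) := ⟨_, rfl⟩
    have hc0 : 0 < c := by rw [hc]; exact lt_min (by positivity) (by norm_num)
    have hc1 : c ≤ 1 / 2 := by rw [hc]; exact min_le_right _ _
    have hc2 : c ≤ ε / 2 := by rw [hc]; exact min_le_left _ _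
    obtain ⟨t1, ht1, H⟩ := few_of_grow hc0 hc1 (grow_of_lind h hc0) (ε / 2) (by positivity) δ hδ
    refine ⟨t1, ht1, fun t ht htt y hy S hS => ?_⟩
    have h1 := H t ht htt y (by
      refine le_trans (Real.exp_le_exp.2 ?_) hy
      exact div_le_div_of_nonneg_right (by linarith) ht.le) S hS
    refine h1.trans ?_
    have hlog : 0 ≤ Real.log |y| := by
      apply Real.log_nonneg
      refine le_trans (Real.one_le_exp ?_) hy
      positivity
    have : ε / 2 * Real.log |y| ≤ ε * Real.log |y| := mul_le_mul_of_nonneg_right (by linarith) hlog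
    exact this

end Pool.Agent.H83XI
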