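import Pool.Agent.H83XI.Asm2
import Pool.Agent.W169.HF.Aut3

set_option autoImplicit false

/-!
# Simple zeros in the range of large `2 t ℓ`
-/

open Complex Set MeasureTheory intervalIntegral Filter Topology
open scoped ComplexConjugate NNReal ENNReal

namespace Pool.Agent.H83XI

open H353.E H353.F Pool.Agent.W169.HF

lemma hh_ww (t : ℝ) (g : ℝ → ℂ) (x : ℝ) : hh t g x = ∫ u in Ioi (0 : ℝ), ww t g x u := rfl

/-- the logarithmic derivative of the half-line integral at `0` has positive real part -/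
theorem rp_simple (K a η : ℝ) (hK : 1 ≤ K) (ha : 1 / 2 ≤ a) (hη : 0 < η) : ∃ t1 ℓ0 : ℝ, 0 < t1 ∧
    ∀ (ℓ t : ℝ) (g P : ℝ → ℂ), RP K a ℓ g P → 0 < t → t ≤ t1 → ℓ0 ≤ ℓ → 2 * a + η ≤ 2 * t * ℓ →
    ∃ h' : ℂ, HasDerivAt (hh t g) h' 0 ∧ 0 < (h' * conj (hh t g 0)).re := by
  obtain ⟨t1, ℓ0, ht1, ht1K, H⟩ := lmain_all K a η (1 / 4) hK ha hη (by norm_num)
  refine ⟨t1, ℓ0, ht1, fun ℓ t g P hrp ht htt hℓ h2 => ?_⟩
  have hre := hrp.re
  have hrp' : RP K a (P a).re g P :=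
    { cont := hrp.cont, der := hrp.der, ne := hrp.ne, im := hrp.im, lip := hrp.lip, re := le_rfl,
      left := hrp.left }
  obtain ⟨c, W, hc, hW, h3, -, -, h6⟩ := H (P a).re t g P hrp' ht htt rfl (hℓ.trans hre)
    (h2.trans (by nlinarith)) 0 (by linarith)
  obtain ⟨i1, i2, i3⟩ := lint_all K a (P a).re t g P hK ha hrp' ht (htt.trans ht1K) 0
  refine ⟨_, i3, ?_⟩
  obtain ⟨E, hE⟩ : ∃ E : ℂ, E = ∫ u in Ioi (0 : ℝ), ((u - c : ℝ) : ℂ) * ww t g 0 u := ⟨_, rfl⟩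
  rw [← hE] at h6
  have hsplit : ∫ u in Ioi (0 : ℝ), (u : ℂ) * ww t g 0 u = (c : ℂ) * hh t g 0 + E := by
    rw [hE, hh_ww, ← MeasureTheory.integral_const_mul, ← MeasureTheory.integral_add (i1.const_mul _)]
    · refine integral_congr_ae (Eventually.of_forall fun u => ?_)
      simp only
      push_cast
      ring
    · have e : (fun u : ℝ => ((u - c : ℝ) : ℂ) * ww t g 0 u) =
          fun u : ℝ => (u : ℂ) * ww t g 0 u - (c : ℂ) * ww t g 0 u := by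
        funext u
        push_cast
        ring
      rw [e]
      exact i2.sub (i1.const_mul _)
  have hh' : ∫ u in Ioi (0 : ℝ), ((u / (2 * t) : ℝ) : ℂ) * ww t g 0 u =
      ((1 / (2 * t) : ℝ) : ℂ) * ((c : ℂ) * hh t g 0 + E) := by
    rw [← hsplit, ← MeasureTheory.integral_const_mul]
    refine integral_congr_ae (Eventually.of_forall fun u => ?_)
    simp only
    push_cast
    ring
  rw [hh', mul_assoc, Complex.re_ofReal_mul]
  have hc0 : 0 < c := by linarith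
  have hW0 : 0 < ‖W‖ := norm_pos_iff.2 hW
  have hlow : 3 / 4 * ‖W‖ ≤ ‖hh t g 0‖ := by
    have := norm_sub_norm_le W (W - hh t g 0)
    rw [sub_sub_cancel, norm_sub_rev W] at this
    linarith
  have hmain : 0 < (((c : ℂ) * hh t g 0 + E) * conj (hh t g 0)).re := by
    have e1 : ((c : ℂ) * hh t g 0 + E) * conj (hh t g 0) =
        ((c * ‖hh t g 0‖ ^ 2 : ℝ) : ℂ) + E * conj (hh t g 0) := by
      have : hh t g 0 * conj (hh t g 0) = ((‖hh t g 0‖ ^ 2 : ℝ) : ℂ) := by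
        rw [Complex.mul_conj, Complex.normSq_eq_norm_sq]
      push_cast at this ⊢
      linear_combination (c : ℂ) * this
    rw [e1, Complex.add_re, Complex.ofReal_re]
    have h7 : -(‖E‖ * ‖hh t g 0‖) ≤ (E * conj (hh t g 0)).re := by
      have := (abs_le.1 (Complex.abs_re_le_norm (E * conj (hh t g 0)))).1
      rwa [norm_mul, Complex.norm_conj] at this
    have h8 : ‖E‖ * ‖hh t g 0‖ ≤ 1 / 4 * c * ‖W‖ * ‖hh t g 0‖ :=
      mul_le_mul_of_nonneg_right h6 (norm_nonneg _)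
    have h9 : 1 / 4 * c * ‖W‖ * ‖hh t g 0‖ < c * ‖hh t g 0‖ ^ 2 := by
      have h10 : 0 < ‖hh t g 0‖ := by linarith
      have h11 : 1 / 4 * ‖W‖ < ‖hh t g 0‖ := by linarith
      calc 1 / 4 * c * ‖W‖ * ‖hh t g 0‖ = (c * ‖hh t g 0‖) * (1 / 4 * ‖W‖) := by ring
        _ < (c * ‖hh t g 0‖) * ‖hh t g 0‖ := mul_lt_mul_of_pos_left h11 (by positivity)
        _ = _ := by ring
    linarith
  have : 0 < 1 / (2 * t) := by positivity
  positivity

variable {C B σ : ℝ} {Sg : ℝ → ℝ} {Λ γ D : ℂ → ℂ}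

theorem local_simple (C B σ : ℝ) (Sg : ℝ → ℝ) (hC : 1 ≤ C) (hB : 1 ≤ B)
    (hσ : 1 ≤ σ) (hσ2 : σ ≤ 5 / 2) {η : ℝ} (hη : 0 < η) :
    ∃ t1 ℓ0 : ℝ, 0 < t1 ∧ ∀ (Λ γ D : ℂ → ℂ), Sharp C B σ Sg Λ γ D → Slow Λ →
      ∀ (t y : ℝ), 0 < t → t ≤ t1 → ℓ0 ≤ el D y →
      2 * (σ - 1 / 2) + η ≤ 2 * t * el D y →
      ∀ s : ℂ, s.im = y → heat t Λ s = 0 → s.re = 1 / 2 ∧ deriv (heat t Λ) s ≠ 0 := by
  obtain ⟨ρ, hρd⟩ : ∃ ρ : ℝ, ρ = min 1 (η / 8) := ⟨_, rfl⟩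
  have hρ : 0 < ρ := by rw [hρd]; exact lt_min one_pos (by positivity)
  have hρ1 : ρ ≤ 1 := by rw [hρd]; exact min_le_left _ _
  have hρ2 : ρ ≤ η / 8 := by rw [hρd]; exact min_le_right _ _
  have hK : 1 ≤ KK C B ρ := by
    unfold KK
    have h1 : 0 ≤ 2 * B ^ 2 / ρ ^ 2 * 4 := by positivity
    have h2 : 0 ≤ B ^ 2 * Real.exp (3 * C) := by positivity
    linarith
  obtain ⟨t1, ℓ1, ht1, H⟩ := rp_simple (KK C B ρ) (σ - 1 / 2 + ρ) (η / 4) hK (by linarith) (by positivity)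
  obtain ⟨t2, ℓ2, ht2, H2⟩ := local_of_sharp lap_all rep_all C B σ Sg hC hB hσ hσ2 hη
  obtain ⟨c, hc⟩ : ∃ c : ℝ, c = 2 * C + B ^ 2 / ρ := ⟨_, rfl⟩
  have hc0 : 0 < c := by rw [hc]; positivity
  refine ⟨min (min t1 t2) (η / (8 * c)), max (ℓ1 + c) ℓ2, lt_min (lt_min ht1 ht2) (by positivity), ?_⟩
  intro Λ γ D S hslow t y ht htt hℓ htℓ s hs hz
  have hta : t ≤ t1 := htt.trans ((min_le_left _ _).trans (min_le_left _ _))
  have htb : t ≤ η / (8 * c) := htt.trans (min_le_right _ _)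
  have htc : t ≤ t2 := htt.trans ((min_le_left _ _).trans (min_le_right _ _))
  have hℓa : ℓ1 + c ≤ el D y := (le_max_left _ _).trans hℓ
  have hℓb : ℓ2 ≤ el D y := (le_max_right _ _).trans hℓ
  rw [le_div_iff₀ (by positivity)] at htb
  have hre := H2 Λ γ D S hslow t y ht htc hℓb htℓ s hs hz
  refine ⟨hre, fun hd => ?_⟩
  have hsx : s = 1 / 2 + (y : ℂ) * I := by
    apply Complex.ext
    · simp [hre]
    · simp [hs]
  have hrp := rp_of_sharp S hσ2 hρ hρ1 y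
  have e1 : (D (3 / 2 + y * I)).re - 2 * C - B ^ 2 / ρ = el D y - c := by rw [hc]; unfold el; ring
  rw [e1] at hrp
  obtain ⟨h', hd', hpos⟩ := H _ t _ _ hrp ht hta (by linarith) (by nlinarith)
  obtain ⟨ε, hε, hfe⟩ := S.fe
  rw [hsx] at hz hd
  have := heat_mult hslow hfe ht hd' hz hd
  linarith

end Pool.Agent.H83XI
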