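import Mathlib
import Pool.Agent.W169.HF.DefsB

/-!
# The saddle point lemma `S_SADL` of the project HF
-/

set_option autoImplicit false

open Complex MeasureTheory Filter Topology Set Metric
open scoped ComplexConjugate

namespace Pool.Agent.H83XI

open Pool.Agent.W169.HF

/-- exact exponential form near the critical point -/
theorem sad_core {F : ℂ → ℂ} {p μ : ℂ} {ρ s θ : ℝ} (hρ : 0 < ρ) (hs : 0 < s) (hθ : 0 < θ)
    (hθρ : θ ≤ ρ / 100000) (hL : Lc ρ s θ μ p F) :
    ∃ (w0 : ℂ) (L : ℝ → ℂ), ‖w0 - p‖ ≤ θ ∧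
      (∀ y : ℝ, |y| ≤ ρ / 5 → ‖L y‖ ≤ s ^ 2 * y ^ 2 / 10000) ∧
      (∀ y : ℝ, |y| ≤ ρ / 5 → Q F s (p - μ / s ^ 2) (w0 + y) =
        Q F s (p - μ / s ^ 2) w0 * cexp (((-(s ^ 2 * y ^ 2 / 2) : ℝ) : ℂ) + L y)) ∧
      ContinuousOn (fun y : ℝ => Q F s (p - μ / s ^ 2) (w0 + y)) (Icc (-(ρ / 5)) (ρ / 5)) := by
  have hs2 : (0 : ℝ) < s ^ 2 := by positivity
  have hsc : (s : ℂ) ^ 2 ≠ 0 := by
    have : (s : ℂ) ≠ 0 := by exact_mod_cast hs.ne'
    exact pow_ne_zero _ this
  obtain ⟨E, hE⟩ : ∃ E : ℂ → ℂ, E = fun w => logDeriv F w - μ := ⟨_, rfl⟩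
  have hFd : DifferentiableOn ℂ F (ball p ρ) := fun w hw => (hL w hw).1.differentiableWithinAt
  have hF'd : DifferentiableOn ℂ (deriv F) (ball p ρ) := hFd.deriv isOpen_ball
  have hEd : DifferentiableOn ℂ E (ball p ρ) := by
    rw [hE]
    refine DifferentiableOn.sub_const ?_ μ
    exact hF'd.div hFd (fun w hw => (hL w hw).2.1)
  have hEb : ∀ w ∈ ball p ρ, ‖E w‖ ≤ θ * s ^ 2 := fun w hw => by
    rw [hE]
    exact (hL w hw).2.2
  -- derivative of `E`
  have hE' : ∀ w ∈ ball p (ρ / 2), ‖deriv E w‖ ≤ s ^ 2 / 40000 := by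
    intro w hw
    have hsub : closedBall w (2 * ρ / 5) ⊆ ball p ρ := by
      intro z hz
      rw [mem_ball, dist_eq_norm] at hw ⊢
      rw [mem_closedBall, dist_eq_norm] at hz
      calc ‖z - p‖ = ‖(z - w) + (w - p)‖ := by ring_nf
        _ ≤ ‖z - w‖ + ‖w - p‖ := norm_add_le _ _
        _ < ρ := by linarith
    have h1 : ‖deriv E w‖ ≤ θ * s ^ 2 / (2 * ρ / 5) := by
      refine Complex.norm_deriv_le_of_forall_mem_sphere_norm_le (by positivity) ?_
        (fun z hz => hEb z (hsub (sphere_subset_closedBall hz)))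
      refine DifferentiableOn.diffContOnCl ?_
      rw [closure_ball w (by positivity)]
      exact hEd.mono hsub
    refine h1.trans ?_
    rw [div_le_div_iff₀ (by positivity) (by norm_num)]
    have : θ * 100000 ≤ ρ := by linarith
    nlinarith
  have hEl : ∀ a ∈ ball p (ρ / 2), ∀ b ∈ ball p (ρ / 2), ‖E a - E b‖ ≤ s ^ 2 / 40000 * ‖a - b‖ := by
    intro a ha b hb
    refine (convex_ball p (ρ / 2)).norm_image_sub_le_of_norm_deriv_le (f := E) (fun z hz => ?_)
      (fun z hz => hE' z hz) hb ha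
    exact hEd.differentiableAt (isOpen_ball.mem_nhds (ball_subset_ball (by linarith) hz))
  -- the fixed point
  obtain ⟨T, hT⟩ : ∃ T : ℂ → ℂ, T = fun w => p + E w / s ^ 2 := ⟨_, rfl⟩
  have hθρ2 : θ < ρ / 2 := by linarith
  have hcb : closedBall p θ ⊆ ball p (ρ / 2) := closedBall_subset_ball hθρ2
  have hcb' : closedBall p θ ⊆ ball p ρ := closedBall_subset_ball (by linarith)
  have hns : ‖(s : ℂ) ^ 2‖ = s ^ 2 := by
    rw [norm_pow, Complex.norm_real, Real.norm_eq_abs, sq_abs]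
  have hmaps : MapsTo T (closedBall p θ) (closedBall p θ) := by
    intro w hw
    rw [mem_closedBall, dist_eq_norm, hT]
    simp only [add_sub_cancel_left]
    rw [norm_div, hns, div_le_iff₀ hs2]
    exact hEb w (hcb' hw)
  have hcontr : ContractingWith (1 / 2) (hmaps.restrict T (closedBall p θ) (closedBall p θ)) := by
    refine ⟨by
      rw [← NNReal.coe_lt_coe]
      push_cast
      norm_num, ?_⟩
    refine LipschitzWith.of_dist_le_mul fun a b => ?_
    rw [Subtype.dist_eq, MapsTo.val_restrict_apply, MapsTo.val_restrict_apply, Subtype.dist_eq,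
      dist_eq_norm, dist_eq_norm, hT]
    have e : (p + E (a : ℂ) / s ^ 2) - (p + E (b : ℂ) / s ^ 2) = (E a - E b) / (s : ℂ) ^ 2 := by ring
    simp only
    rw [e, norm_div, hns, div_le_iff₀ hs2]
    refine (hEl a (hcb a.2) b (hcb b.2)).trans ?_
    push_cast
    have := norm_nonneg ((a : ℂ) - b)
    nlinarith
  obtain ⟨w0, hw0m, hw0, -, -⟩ := ContractingWith.exists_fixedPoint' isClosed_closedBall.isComplete hmaps
    hcontr (mem_closedBall_self hθ.le) (edist_ne_top p (T p))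
  have hw0p : ‖w0 - p‖ ≤ θ := by rwa [mem_closedBall, dist_eq_norm] at hw0m
  have hw0E : w0 - p = E w0 / s ^ 2 := by
    have hfix : T w0 = w0 := hw0
    rw [hT] at hfix
    exact sub_eq_of_eq_add' (Eq.symm hfix)
  -- the primitive
  obtain ⟨P, hP⟩ := hEd.isExactOn_ball
  have hw0b : w0 ∈ ball p (ρ / 2) := hcb hw0m
  have hyb : ∀ y : ℝ, |y| ≤ ρ / 5 → w0 + y ∈ ball p (ρ / 2) := by
    intro y hy
    rw [mem_ball, dist_eq_norm]
    calc ‖w0 + y - p‖ = ‖(w0 - p) + y‖ := by ring_nf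
      _ ≤ ‖w0 - p‖ + ‖(y : ℂ)‖ := norm_add_le _ _
      _ < ρ / 2 := by
        rw [Complex.norm_real, Real.norm_eq_abs]
        linarith
  have hbb : ball p (ρ / 2) ⊆ ball p ρ := ball_subset_ball (by linarith)
  refine ⟨w0, fun y => P (w0 + y) - P w0 - E w0 * y, hw0p, ?_, ?_, ?_⟩
  · intro y hy
    obtain ⟨R, hR⟩ : ∃ R : ℂ → ℂ, R = fun w => P w - E w0 * w := ⟨_, rfl⟩
    have hRd : ∀ z ∈ segment ℝ w0 (w0 + y), HasDerivAt R (E z - E w0) z ∧ ‖E z - E w0‖ ≤
        s ^ 2 / 40000 * |y| := by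
      intro z hz
      have hzb : z ∈ ball p (ρ / 2) := (convex_ball p (ρ / 2)).segment_subset hw0b (hyb y hy) hz
      refine ⟨?_, ?_⟩
      · rw [hR]
        have h1 := (hP z (hbb hzb)).fun_sub ((hasDerivAt_id z).const_mul (E w0))
        simpa using h1
      · refine (hEl z hzb w0 hw0b).trans (mul_le_mul_of_nonneg_left ?_ (by positivity))
        rw [segment_eq_image_lineMap] at hz
        obtain ⟨r, ⟨hr0, hr1⟩, rfl⟩ := hz
        rw [AffineMap.lineMap_apply]
        simp only [vsub_eq_sub, vadd_eq_add, add_sub_cancel_left, add_sub_cancel_right]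
        rw [norm_smul, Complex.norm_real, Real.norm_eq_abs, Real.norm_eq_abs, abs_of_nonneg hr0]
        have := abs_nonneg y
        nlinarith
    have h2 := (convex_segment w0 (w0 + y)).norm_image_sub_le_of_norm_hasDerivWithin_le
      (f := R) (f' := fun z => E z - E w0) (C := s ^ 2 / 40000 * |y|)
      (fun z hz => (hRd z hz).1.hasDerivWithinAt) (fun z hz => (hRd z hz).2)
      (left_mem_segment ℝ w0 (w0 + y)) (right_mem_segment ℝ w0 (w0 + y))
    rw [hR] at h2
    simp only at h2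
    have e : P (w0 + y) - E w0 * (w0 + y) - (P w0 - E w0 * w0) = P (w0 + y) - P w0 - E w0 * y := by ring
    rw [e, add_sub_cancel_left, Complex.norm_real, Real.norm_eq_abs] at h2
    refine h2.trans ?_
    have h3 : s ^ 2 / 40000 * |y| * |y| = s ^ 2 * y ^ 2 / 40000 := by
      rw [mul_assoc, ← sq, sq_abs]; ring
    rw [h3]
    have : 0 ≤ s ^ 2 * y ^ 2 := by positivity
    linarith
  · intro y hy
    obtain ⟨h, hh⟩ : ∃ h : ℂ → ℂ, h = fun w => Q F s (p - μ / s ^ 2) w *
        cexp ((s : ℂ) ^ 2 * (w - w0) ^ 2 / 2 - (P w - E w0 * w)) := ⟨_, rfl⟩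
    have hd : ∀ w ∈ ball p ρ, HasDerivAt h 0 w := by
      intro w hw
      obtain ⟨hF1, hF2, -⟩ := hL w hw
      have a1 : HasDerivAt F (deriv F w) w := hF1.hasDerivAt
      have a2 : HasDerivAt (fun w : ℂ => -((s : ℂ) ^ 2 * (w - (p - μ / s ^ 2)) ^ 2 / 2))
          (-((s : ℂ) ^ 2 * (w - (p - μ / s ^ 2)))) w := by
        have b1 := ((hasDerivAt_id w).sub_const (p - μ / (s : ℂ) ^ 2)).pow 2
        have b2 := ((b1.const_mul ((s : ℂ) ^ 2)).div_const 2).neg
        refine b2.congr_deriv ?_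
        simp only [id_eq]
        push_cast
        ring
      have a3 : HasDerivAt (fun w : ℂ => (s : ℂ) ^ 2 * (w - w0) ^ 2 / 2 - (P w - E w0 * w))
          ((s : ℂ) ^ 2 * (w - w0) - (E w - E w0)) w := by
        have b1 := ((hasDerivAt_id w).sub_const w0).pow 2
        have b2 := (b1.const_mul ((s : ℂ) ^ 2)).div_const 2
        have b3 := (hP w hw).sub ((hasDerivAt_id w).const_mul (E w0))
        refine (b2.sub b3).congr_deriv ?_
        simp only [id_eq]
        push_cast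
        ring
      have a4 := (a2.cexp.fun_mul a1).fun_mul a3.cexp
      rw [hh]
      unfold Q
      refine a4.congr_deriv ?_
      obtain ⟨D, hD⟩ : ∃ D : ℂ, D = deriv F w / F w := ⟨_, rfl⟩
      have hE1 : E w = D - μ := by rw [hE, hD]; rfl
      have hw0E' : E w0 = (s : ℂ) ^ 2 * (w0 - p) := by
        rw [hw0E, mul_div_cancel₀ _ hsc]
      have hD2 : deriv F w = F w * D := by rw [hD, mul_div_cancel₀ _ hF2]
      have hmu : (s : ℂ) ^ 2 * (w - (p - μ / s ^ 2)) = (s : ℂ) ^ 2 * (w - p) + μ := by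
        have : (s : ℂ) ^ 2 * (μ / s ^ 2) = μ := mul_div_cancel₀ _ hsc
        linear_combination this
      rw [hw0E', hE1, hD2, hmu]
      generalize cexp _ = G1
      generalize cexp _ = G2
      ring
    have hconst : h (w0 + y) = h w0 := by
      refine isOpen_ball.is_const_of_fderiv_eq_zero (𝕜 := ℂ) (convex_ball p ρ).isPreconnected
        (fun w hw => (hd w hw).differentiableAt.differentiableWithinAt) (fun w hw => ?_)
        (hbb (hyb y hy)) (hbb hw0b)
      have := (hd w hw).hasFDerivAt.fderiv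
      rw [this]
      ext
      simp
    rw [hh] at hconst
    simp only at hconst
    have e1 : (s : ℂ) ^ 2 * (w0 - w0) ^ 2 / 2 - (P w0 - E w0 * w0) = -(P w0 - E w0 * w0) := by ring
    rw [e1] at hconst
    have e2 : cexp ((s : ℂ) ^ 2 * (w0 + y - w0) ^ 2 / 2 - (P (w0 + y) - E w0 * (w0 + y))) ≠ 0 :=
      Complex.exp_ne_zero _
    have e3 : Q F s (p - μ / s ^ 2) (w0 + y) = Q F s (p - μ / s ^ 2) w0 *
        (cexp (-(P w0 - E w0 * w0)) *
          cexp (-((s : ℂ) ^ 2 * (w0 + y - w0) ^ 2 / 2 - (P (w0 + y) - E w0 * (w0 + y))))) := by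
      rw [Complex.exp_neg ((s : ℂ) ^ 2 * (w0 + y - w0) ^ 2 / 2 - (P (w0 + y) - E w0 * (w0 + y))), ← mul_assoc,
        ← hconst, mul_assoc, mul_inv_cancel₀ e2, mul_one]
    rw [e3, ← Complex.exp_add]
    congr 2
    push_cast
    ring
  · intro y hy
    have hy' : |y| ≤ ρ / 5 := abs_le.2 hy
    have h1 := (hL _ (hbb (hyb y hy'))).1.continuousAt
    have h2 : ContinuousAt (fun y : ℝ => w0 + (y : ℂ)) y := by fun_prop
    have h3 : ContinuousAt (fun w : ℂ => cexp (-((s : ℂ) ^ 2 * (w - (p - μ / s ^ 2)) ^ 2 / 2))) (w0 + (y : ℂ)) := by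
      fun_prop
    exact ((h3.mul h1).comp (f := fun y : ℝ => w0 + (y : ℂ)) h2).continuousWithinAt

theorem sadl : S_SADL := by
  intro F p μ ρ s θ hρ hρ2 hs hsρ hθ hθρ hL
  have hs0 : 0 < s := by linarith
  obtain ⟨w0, L, hw0, hLb, hQ, hcont⟩ := sad_core hρ hs0 hθ hθρ hL
  obtain ⟨q, hq⟩ : ∃ q : ℝ, q = ‖Q F s (p - μ / s ^ 2) w0‖ := ⟨_, rfl⟩
  have hq0 : 0 ≤ q := by rw [hq]; exact norm_nonneg _
  refine ⟨w0, hw0, fun y hy => ?_, ?_⟩
  · rw [hQ y hy, norm_mul, mul_comm, Complex.norm_exp]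
    refine mul_le_mul_of_nonneg_right (Real.exp_le_exp.2 ?_) (norm_nonneg _)
    rw [add_re, ofReal_re]
    have h1 := (Complex.re_le_norm (L y)).trans (hLb y hy)
    have : 0 ≤ s ^ 2 * y ^ 2 := by positivity
    linarith
  · rw [← hq]
    have ha : 0 < ρ / 5 := by positivity
    have h1s : 1 / s ≤ ρ / 5 := by
      rw [div_le_iff₀ hρ] at hsρ
      rw [div_le_div_iff₀ hs0 (by norm_num)]
      linarith
    -- the gaussian
    have hgi : ∀ b : ℝ, Continuous (fun y : ℝ => Real.exp (-(s ^ 2 * y ^ 2 / b))) := fun b => by fun_prop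
    have hmain : 1 / s ≤ ∫ y in (-(ρ / 5) : ℝ)..(ρ / 5), Real.exp (-(s ^ 2 * y ^ 2 / 2)) := by
      have h2 : ∫ y in (-(1 / s) : ℝ)..(1 / s), (1 / 2 : ℝ) ≤
          ∫ y in (-(1 / s) : ℝ)..(1 / s), Real.exp (-(s ^ 2 * y ^ 2 / 2)) := by
        refine intervalIntegral.integral_mono_on (by have : 0 < 1 / s := by positivity
                                                     linarith) (by simp) ((hgi 2).intervalIntegrable _ _) ?_
        intro y hy
        have hy2 : s ^ 2 * y ^ 2 ≤ 1 := by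
          have h3 : |y| ≤ 1 / s := abs_le.2 hy
          have h4 : s * |y| ≤ 1 := by
            rw [le_div_iff₀ hs0] at h3
            linarith
          have h5 : 0 ≤ s * |y| := by positivity
          have h6 : (s * |y|) ^ 2 ≤ 1 := by nlinarith
          calc s ^ 2 * y ^ 2 = (s * |y|) ^ 2 := by rw [mul_pow, sq_abs]
            _ ≤ 1 := h6
        have h3 := Real.add_one_le_exp (-(s ^ 2 * y ^ 2 / 2))
        linarith
      have h3 : ∫ y in (-(1 / s) : ℝ)..(1 / s), (1 / 2 : ℝ) = 1 / s := by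
        rw [intervalIntegral.integral_const, smul_eq_mul]; ring
      have h4 : ∫ y in (-(1 / s) : ℝ)..(1 / s), Real.exp (-(s ^ 2 * y ^ 2 / 2)) ≤
          ∫ y in (-(ρ / 5) : ℝ)..(ρ / 5), Real.exp (-(s ^ 2 * y ^ 2 / 2)) := by
        refine intervalIntegral.integral_mono_interval (by linarith) (by have : 0 < 1 / s := by positivity
                                                                         linarith) h1s
          (Filter.Eventually.of_forall fun y => (Real.exp_pos _).le) ((hgi 2).intervalIntegrable _ _)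
      linarith
    have herr : ∫ y in (-(ρ / 5) : ℝ)..(ρ / 5), Real.exp (-(s ^ 2 * y ^ 2 / 8)) ≤ 6 / s := by
      rw [intervalIntegral.integral_of_le (by linarith)]
      have hint : Integrable (fun y : ℝ => Real.exp (-(s ^ 2 * y ^ 2 / 8))) := by
        have := integrable_exp_neg_mul_sq (b := s ^ 2 / 8) (by positivity)
        refine this.congr (Filter.Eventually.of_forall fun y => ?_)
        simp only
        congr 1
        ring
      have h2 : ∫ y in Ioc (-(ρ / 5)) (ρ / 5), Real.exp (-(s ^ 2 * y ^ 2 / 8)) ≤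
          ∫ y : ℝ, Real.exp (-(s ^ 2 * y ^ 2 / 8)) :=
        setIntegral_le_integral hint (Filter.Eventually.of_forall fun y => (Real.exp_pos _).le)
      refine h2.trans ?_
      have h3 := integral_gaussian (s ^ 2 / 8)
      have e : (fun y : ℝ => Real.exp (-(s ^ 2 / 8) * y ^ 2)) = fun y : ℝ => Real.exp (-(s ^ 2 * y ^ 2 / 8)) := by
        funext y; congr 1; ring
      rw [e] at h3
      rw [h3]
      have h4 : Real.pi / (s ^ 2 / 8) ≤ (6 / s) ^ 2 := by
        rw [div_pow, div_div_eq_mul_div]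
        have := Real.pi_lt_four
        gcongr
        linarith
      calc Real.sqrt (Real.pi / (s ^ 2 / 8)) ≤ Real.sqrt ((6 / s) ^ 2) := Real.sqrt_le_sqrt h4
        _ = 6 / s := Real.sqrt_sq (by positivity)
    -- comparison
    have hicc : uIcc (-(ρ / 5)) (ρ / 5) = Icc (-(ρ / 5)) (ρ / 5) := uIcc_of_le (by linarith)
    have hii : IntervalIntegrable (fun y : ℝ => Q F s (p - μ / s ^ 2) (w0 + y)) volume (-(ρ / 5)) (ρ / 5) :=
      ContinuousOn.intervalIntegrable (by rw [hicc]; exact hcont)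
    have hgc : Continuous (fun y : ℝ => Q F s (p - μ / s ^ 2) w0 * ((Real.exp (-(s ^ 2 * y ^ 2 / 2)) : ℝ) : ℂ)) :=
      continuous_const.mul (Complex.continuous_ofReal.comp (hgi 2))
    have hdiff : ‖(∫ y in (-(ρ / 5) : ℝ)..(ρ / 5), Q F s (p - μ / s ^ 2) (w0 + y)) -
        ∫ y in (-(ρ / 5) : ℝ)..(ρ / 5), Q F s (p - μ / s ^ 2) w0 *
          ((Real.exp (-(s ^ 2 * y ^ 2 / 2)) : ℝ) : ℂ)‖ ≤ q * (1 / 2500) * (6 / s) := by
      rw [← intervalIntegral.integral_sub hii (hgc.intervalIntegrable _ _)]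
      have h2 : ‖∫ y in (-(ρ / 5) : ℝ)..(ρ / 5), (Q F s (p - μ / s ^ 2) (w0 + y) -
          Q F s (p - μ / s ^ 2) w0 * ((Real.exp (-(s ^ 2 * y ^ 2 / 2)) : ℝ) : ℂ))‖ ≤
          ∫ y in (-(ρ / 5) : ℝ)..(ρ / 5), q * (1 / 2500) * Real.exp (-(s ^ 2 * y ^ 2 / 8)) := by
        refine intervalIntegral.norm_integral_le_of_norm_le (by linarith) ?_
          ((continuous_const.mul (hgi 8)).intervalIntegrable _ _)
        refine Filter.Eventually.of_forall fun y hy => ?_
        have hy' : |y| ≤ ρ / 5 := abs_le.2 ⟨hy.1.le, hy.2⟩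
        rw [hQ y hy', ← mul_sub, norm_mul, ← hq, mul_assoc]
        refine mul_le_mul_of_nonneg_left ?_ hq0
        rw [Complex.exp_add, ← Complex.ofReal_exp]
        have e : ((Real.exp (-(s ^ 2 * y ^ 2 / 2)) : ℝ) : ℂ) * cexp (L y) -
            ((Real.exp (-(s ^ 2 * y ^ 2 / 2)) : ℝ) : ℂ) =
            ((Real.exp (-(s ^ 2 * y ^ 2 / 2)) : ℝ) : ℂ) * (cexp (L y) - 1) := by ring
        rw [e, norm_mul, Complex.norm_real, Real.norm_eq_abs, abs_of_pos (Real.exp_pos _)]
        have h3 : ‖cexp (L y) - 1‖ ≤ ‖L y‖ * Real.exp ‖L y‖ := by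
          have := Complex.norm_exp_sub_sum_le_norm_mul_exp (L y) 1
          simpa using this
        obtain ⟨A, hA⟩ : ∃ A : ℝ, A = s ^ 2 * y ^ 2 := ⟨_, rfl⟩
        have hA0 : 0 ≤ A := by rw [hA]; positivity
        have hLA : ‖L y‖ ≤ A / 10000 := by rw [hA]; exact hLb y hy'
        rw [← hA]
        have h4 : ‖L y‖ * Real.exp ‖L y‖ ≤ A / 10000 * Real.exp (A / 10000) :=
          mul_le_mul hLA (Real.exp_le_exp.2 hLA) (Real.exp_pos _).le (by positivity)
        have h5 : A / 4 ≤ Real.exp (A / 4) := by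
          have := Real.add_one_le_exp (A / 4)
          linarith
        calc Real.exp (-(A / 2)) * ‖cexp (L y) - 1‖
            ≤ Real.exp (-(A / 2)) * (A / 10000 * Real.exp (A / 10000)) :=
              mul_le_mul_of_nonneg_left (h3.trans h4) (Real.exp_pos _).le
          _ = 1 / 2500 * (A / 4) * (Real.exp (-(A / 2)) * Real.exp (A / 10000)) := by ring
          _ ≤ 1 / 2500 * Real.exp (A / 4) * (Real.exp (-(A / 2)) * Real.exp (A / 10000)) := by
              refine mul_le_mul_of_nonneg_right ?_ (by positivity)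
              linarith
          _ = 1 / 2500 * Real.exp (A / 4 + (-(A / 2) + A / 10000)) := by
              rw [Real.exp_add, Real.exp_add]; ring
          _ ≤ 1 / 2500 * Real.exp (-(A / 8)) := by
              refine mul_le_mul_of_nonneg_left (Real.exp_le_exp.2 ?_) (by norm_num)
              linarith
      refine h2.trans ?_
      rw [intervalIntegral.integral_const_mul]
      exact mul_le_mul_of_nonneg_left herr (by positivity)
    have hg2 : ‖∫ y in (-(ρ / 5) : ℝ)..(ρ / 5), Q F s (p - μ / s ^ 2) w0 *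
          ((Real.exp (-(s ^ 2 * y ^ 2 / 2)) : ℝ) : ℂ)‖ ≥ q * (1 / s) := by
      rw [intervalIntegral.integral_const_mul, norm_mul, ← hq, intervalIntegral.integral_ofReal,
        Complex.norm_real, Real.norm_eq_abs]
      refine mul_le_mul_of_nonneg_left (hmain.trans (le_abs_self _)) hq0
    have h5 := norm_sub_norm_le (∫ y in (-(ρ / 5) : ℝ)..(ρ / 5), Q F s (p - μ / s ^ 2) w0 *
          ((Real.exp (-(s ^ 2 * y ^ 2 / 2)) : ℝ) : ℂ))
        ((∫ y in (-(ρ / 5) : ℝ)..(ρ / 5), Q F s (p - μ / s ^ 2) w0 *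
          ((Real.exp (-(s ^ 2 * y ^ 2 / 2)) : ℝ) : ℂ)) -
          ∫ y in (-(ρ / 5) : ℝ)..(ρ / 5), Q F s (p - μ / s ^ 2) (w0 + y))
    rw [sub_sub_cancel, norm_sub_rev (∫ y in (-(ρ / 5) : ℝ)..(ρ / 5), Q F s (p - μ / s ^ 2) w0 *
          ((Real.exp (-(s ^ 2 * y ^ 2 / 2)) : ℝ) : ℂ))] at h5
    have h6 : 1 / 2 / s * q ≤ q * (1 / s) - q * (1 / 2500) * (6 / s) := by
      have e : q * (1 / s) - q * (1 / 2500) * (6 / s) - 1 / 2 / s * q = q / s * (1 - 6 / 2500 - 1 / 2) := by
        field_simp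
      have : 0 ≤ q / s := by positivity
      nlinarith
    linarith

end Pool.Agent.H83XI
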