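import Pool.Agent.H83XI.Ud
import Pool.Agent.W327.HF.Size
import Pool.Agent.W131.HF.Fwd2

set_option autoImplicit false

/-!
# Simple zeros of the heat flow on the line
-/

open Complex Set MeasureTheory intervalIntegral Filter Topology
open scoped ComplexConjugate NNReal ENNReal

namespace Pool.Agent.H83XI

open Pool.Agent.W169.HF _root_.W327.HF _root_.Pool.Agent.W327.HF

lemma re_zero {ε p q : ℂ} (h1 : q + ε * conj q = 0) (h2 : p - ε * conj p = 0) :
    (p * conj q).re = 0 := by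
  have hq : q = -(ε * conj q) := eq_neg_of_add_eq_zero_left h1
  have hp : p = ε * conj p := sub_eq_zero.1 h2
  have e : conj (p * conj q) = -(p * conj q) := by
    rw [map_mul, Complex.conj_conj]
    calc conj p * q = conj p * (-(ε * conj q)) := by rw [← hq]
      _ = -((ε * conj p) * conj q) := by ring
      _ = -(p * conj q) := by rw [← hp]
  have h3 := congrArg Complex.re e
  rw [Complex.conj_re, Complex.neg_re] at h3
  linarith

lemma line_key {F : ℂ → ℂ} {s0 : ℂ} (hF : DifferentiableAt ℂ F s0) {A : ℝ → ℝ} (hA : A 0 ≠ 0)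
    (hAd : DifferentiableAt ℝ A 0) {h : ℝ → ℂ} {h' ε : ℂ} (hh : HasDerivAt h h' 0)
    (hrep : ∀ x : ℝ, F (s0 + x) = (A x : ℂ) * (h x + ε * conj (h (-x)))) (h0 : F s0 = 0)
    (h1 : deriv F s0 = 0) : (h' * conj (h 0)).re = 0 := by
  have hA0 : (A 0 : ℂ) ≠ 0 := by exact_mod_cast hA
  have hk0 : h 0 + ε * conj (h 0) = 0 := by
    have := hrep 0
    rw [Complex.ofReal_zero, add_zero, h0, neg_zero] at this
    exact (mul_eq_zero.1 this.symm).resolve_left hA0
  have hneg : HasDerivAt (fun x : ℝ => h (-x)) (-h') 0 := by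
    have h2 : HasDerivAt h h' (-(0 : ℝ)) := by rwa [neg_zero]
    have := h2.scomp (0 : ℝ) (hasDerivAt_neg (0 : ℝ))
    simpa [Function.comp_def] using this
  have hconj : HasDerivAt (fun x : ℝ => conj (h (-x))) (conj (-h')) 0 :=
    (Complex.conjCLE.toContinuousLinearMap.hasFDerivAt.comp_hasDerivAt (0 : ℝ) hneg)
  have hk : HasDerivAt (fun x : ℝ => h x + ε * conj (h (-x))) (h' + ε * conj (-h')) 0 :=
    hh.add (hconj.const_mul ε)
  have hAc : HasDerivAt (fun x : ℝ => (A x : ℂ)) ((deriv A 0 : ℝ) : ℂ) 0 := hAd.hasDerivAt.ofReal_comp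
  have hprod := hAc.mul hk
  have hFx : HasDerivAt (fun x : ℝ => F (s0 + x)) 0 0 := by
    have h2 : HasDerivAt F 0 (s0 + ((0 : ℝ) : ℂ)) := by
      rw [Complex.ofReal_zero, add_zero, ← h1]
      exact hF.hasDerivAt
    have h3 : HasDerivAt (fun x : ℝ => s0 + (x : ℂ)) 1 (0 : ℝ) := by
      simpa using (Complex.ofRealCLM.hasDerivAt (x := (0 : ℝ))).const_add s0
    have h4 := h2.comp (0 : ℝ) h3
    simpa [Function.comp_def] using h4
  have heq : (fun x : ℝ => F (s0 + x)) = (fun x : ℝ => (A x : ℂ)) * fun x : ℝ => h x + ε * conj (h (-x)) := by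
    funext x
    exact hrep x
  rw [heq] at hFx
  have huniq := hprod.unique hFx
  simp only [neg_zero, hk0, mul_zero, zero_add] at huniq
  have h5 := (mul_eq_zero.1 huniq).resolve_left hA0
  refine re_zero hk0 ?_
  rw [map_neg] at h5
  linear_combination h5

lemma gauss_fac {t : ℝ} (ht : 0 < t) (x : ℝ) :
    1 / Real.sqrt (4 * Real.pi * t) * Real.exp (-(x ^ 2 / (4 * t))) ≠ 0 := by
  have : 0 < Real.sqrt (4 * Real.pi * t) := Real.sqrt_pos.2 (by positivity)
  positivity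

/-- a multiple zero on the line, in terms of the half-line integral -/
theorem heat_mult {Λ : ℂ → ℂ} (hs : Slow Λ) {ε : ℂ} (hfe : ∀ s : ℂ, Λ s = ε * conj (Λ (1 - conj s)))
    {t y : ℝ} (ht : 0 < t) {h' : ℂ}
    (hd : HasDerivAt (hh t (fun u : ℝ => Λ (1 / 2 + (u : ℂ) + (y : ℂ) * I))) h' 0)
    (h0 : heat t Λ (1 / 2 + (y : ℂ) * I) = 0) (h1 : deriv (heat t Λ) (1 / 2 + (y : ℂ) * I) = 0) :
    (h' * conj (hh t (fun u : ℝ => Λ (1 / 2 + (u : ℂ) + (y : ℂ) * I)) 0)).re = 0 := by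
  refine line_key (F := heat t Λ) (s0 := 1 / 2 + (y : ℂ) * I) (heat_diff hs ht.le _)
    (A := fun x => 1 / Real.sqrt (4 * Real.pi * t) * Real.exp (-(x ^ 2 / (4 * t)))) (gauss_fac ht 0)
    (by fun_prop) hd (ε := ε) (fun x => ?_) h0 h1
  rw [← rep_all Λ ε hs hfe t y x ht]
  congr 1
  ring

/-- the half-line integral `hh` is the integral `J` -/
lemma hh_J {Λ : ℂ → ℂ} {t y : ℝ} (x : ℝ) :
    hh t (fun u : ℝ => Λ (1 / 2 + (u : ℂ) + (y : ℂ) * I)) x = J t (sh Λ y) ((x / (2 * t) : ℝ) : ℂ) := by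
  unfold hh J sh
  refine integral_congr_ae (Eventually.of_forall fun r => ?_)
  simp only
  congr 1
  · push_cast
    congr 1
    ring
  · congr 1
    ring

/-- the version for `J` -/
theorem heat_multJ {Λ : ℂ → ℂ} (hs : Slow Λ) {ε : ℂ} (hfe : ∀ s : ℂ, Λ s = ε * conj (Λ (1 - conj s)))
    {t y : ℝ} (ht : 0 < t) (h0 : heat t Λ (1 / 2 + (y : ℂ) * I) = 0)
    (h1 : deriv (heat t Λ) (1 / 2 + (y : ℂ) * I) = 0) :
    (deriv (J t (sh Λ y)) 0 * conj (J t (sh Λ y) 0)).re = 0 := by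
  have hJ := (J_diff (slow_sh hs y) ht 0).hasDerivAt
  have hx : HasDerivAt (fun x : ℝ => ((x / (2 * t) : ℝ) : ℂ)) (((1 / (2 * t) : ℝ)) : ℂ) 0 :=
    ((hasDerivAt_id (0 : ℝ)).div_const (2 * t)).ofReal_comp
  have hd : HasDerivAt (hh t (fun u : ℝ => Λ (1 / 2 + (u : ℂ) + (y : ℂ) * I)))
      (deriv (J t (sh Λ y)) 0 * ((1 / (2 * t) : ℝ) : ℂ)) 0 := by
    have e : hh t (fun u : ℝ => Λ (1 / 2 + (u : ℂ) + (y : ℂ) * I)) =
        fun x : ℝ => J t (sh Λ y) ((x / (2 * t) : ℝ) : ℂ) := by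
      funext x
      exact hh_J x
    rw [e]
    have h2 : HasDerivAt (J t (sh Λ y)) (deriv (J t (sh Λ y)) 0)
        ((fun x : ℝ => ((x / (2 * t) : ℝ) : ℂ)) 0) := by
      simp only [zero_div, Complex.ofReal_zero]
      exact hJ
    exact HasDerivAt.comp (h := fun x : ℝ => ((x / (2 * t) : ℝ) : ℂ)) (0 : ℝ) h2 hx
  have h3 := heat_mult hs hfe ht hd h0 h1
  rw [hh_J, zero_div, Complex.ofReal_zero, mul_right_comm, mul_comm, Complex.re_ofReal_mul] at h3
  have : (1 / (2 * t) : ℝ) ≠ 0 := by positivity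
  exact (mul_eq_zero.1 h3).resolve_left this

/-- the infinitesimal form of `W327.HF.compare` -/
lemma compare0 {J : ℂ → ℂ} {r M A : ℝ} (hr : 0 < r) (hM : 0 < M)
    (hJ : ∀ z ∈ Metric.ball (0 : ℂ) r, DifferentiableAt ℂ J z)
    (hJ0 : ∀ z ∈ Metric.ball (0 : ℂ) r, J z ≠ 0)
    (hb : ∀ z ∈ Metric.ball (0 : ℂ) r, ‖J z‖ ≤ Real.exp (A * z.re + M) * ‖J (-z)‖)
    (hA : 4 * M < A * r) : 0 < (deriv J 0 * conj (J 0)).re := by
  have hneg : ∀ z ∈ Metric.ball (0 : ℂ) r, -z ∈ Metric.ball (0 : ℂ) r := by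
    intro z hz
    rw [mem_ball_zero_iff] at hz ⊢
    rwa [norm_neg]
  have h00 : (0 : ℂ) ∈ Metric.ball (0 : ℂ) r := Metric.mem_ball_self hr
  obtain ⟨f, hf, hf0, hfk⟩ := exlog (k := fun z => J z / (J (-z) * cexp (A * z))) hr
    (by
      intro z hz
      apply DifferentiableAt.differentiableWithinAt
      apply (hJ z hz).div
      · apply DifferentiableAt.mul
        · exact (hJ (-z) (hneg z hz)).comp z differentiableAt_id.neg
        · fun_prop
      · exact mul_ne_zero (hJ0 _ (hneg z hz)) (Complex.exp_ne_zero _))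
    (fun z hz => div_ne_zero (hJ0 z hz) (mul_ne_zero (hJ0 _ (hneg z hz)) (Complex.exp_ne_zero _)))
    (by
      have := hJ0 0 (Metric.mem_ball_self hr)
      simp [this])
  have hre : ∀ z ∈ Metric.ball (0 : ℂ) r, (f z).re ≤ M := by
    intro z hz
    have h1 : ‖J z / (J (-z) * cexp (A * z))‖ ≤ Real.exp M := by
      rw [norm_div, norm_mul, Complex.norm_exp, div_le_iff₀ (mul_pos (norm_pos_iff.2 (hJ0 _ (hneg z hz)))
        (Real.exp_pos _)), Complex.re_ofReal_mul]
      refine (hb z hz).trans (le_of_eq ?_)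
      rw [Real.exp_add]
      ring
    rw [hfk z hz, Complex.norm_exp] at h1
    exact Real.exp_le_exp.1 h1
  have hsub : Metric.closedBall (0 : ℂ) (r / 2) ⊆ Metric.ball (0 : ℂ) r :=
    Metric.closedBall_subset_ball (by linarith)
  have hfd : DifferentiableAt ℂ f 0 := hf.differentiableAt (Metric.isOpen_ball.mem_nhds h00)
  have hder : ‖deriv f 0‖ ≤ 2 * M / (r / 2) := by
    refine Complex.norm_deriv_le_of_forall_mem_sphere_norm_le (c := 0) (R := r / 2) (C := 2 * M) (f := f)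
      (by positivity) ⟨hf.mono (Metric.ball_subset_ball (by linarith)), ?_⟩ fun z hz => ?_
    · refine (hf.mono ?_).continuousOn
      exact Metric.closure_ball_subset_closedBall.trans hsub
    · have hz' : z ∈ Metric.ball (0 : ℂ) r := hsub (Metric.sphere_subset_closedBall hz)
      have hbc := borelCaratheodory_zero hM hf (fun z hz => hre z hz) hr hz' hf0
      rw [mem_sphere_zero_iff_norm] at hz
      rw [hz] at hbc
      refine hbc.trans (le_of_eq ?_)
      field_simp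
      ring
  -- the identity `2 J'(0) = (A + f'(0)) J(0)`
  have hJd := (hJ 0 h00).hasDerivAt
  have hid : 2 * deriv J 0 = (A + deriv f 0) * J 0 := by
    have h1 : HasDerivAt (fun z => J (-z) * cexp (A * z) * cexp (f z))
        ((-deriv J 0 * cexp (A * 0) + J (-0) * (cexp (A * 0) * A)) * cexp (f 0) +
          J (-0) * cexp (A * 0) * (cexp (f 0) * deriv f 0)) 0 := by
      have ha : HasDerivAt (fun z : ℂ => J (-z)) (-deriv J 0) 0 := by
        have h2 : HasDerivAt J (deriv J 0) (-(0 : ℂ)) := by rwa [neg_zero]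
        simpa [Function.comp_def] using h2.comp (0 : ℂ) (hasDerivAt_neg (0 : ℂ))
      have hb' : HasDerivAt (fun z : ℂ => cexp (A * z)) (cexp (A * 0) * A) 0 := by
        simpa using (((hasDerivAt_id (0 : ℂ)).const_mul (A : ℂ)).cexp)
      have hc : HasDerivAt (fun z : ℂ => cexp (f z)) (cexp (f 0) * deriv f 0) 0 := hfd.hasDerivAt.cexp
      exact (ha.mul hb').mul hc
    have h2 : J =ᶠ[𝓝 0] fun z => J (-z) * cexp (A * z) * cexp (f z) := by
      filter_upwards [Metric.isOpen_ball.mem_nhds h00] with z hz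
      rw [← hfk z hz]
      have h5 := hJ0 _ (hneg _ hz)
      have h6 := Complex.exp_ne_zero ((A : ℂ) * z)
      field_simp
    have h3 := (h1.congr_of_eventuallyEq h2).unique hJd
    rw [hf0] at h3
    simp only [mul_zero, Complex.exp_zero, mul_one, neg_zero, one_mul] at h3
    linear_combination -h3
  have hJ00 := hJ0 0 h00
  have hpos : 0 < ‖J 0‖ ^ 2 := by positivity
  have e1 : deriv J 0 * conj (J 0) = ((‖J 0‖ ^ 2 / 2 : ℝ) : ℂ) * (A + deriv f 0) := by
    have h1 : deriv J 0 = (A + deriv f 0) * J 0 / 2 := by rw [← hid]; ring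
    rw [h1]
    have h2 : J 0 * conj (J 0) = ((‖J 0‖ ^ 2 : ℝ) : ℂ) := by
      rw [Complex.mul_conj, Complex.normSq_eq_norm_sq]
    push_cast at h2 ⊢
    linear_combination (A + deriv f 0) / 2 * h2
  rw [e1, Complex.re_ofReal_mul, Complex.add_re, Complex.ofReal_re]
  have h4 : -‖deriv f 0‖ ≤ (deriv f 0).re := (abs_le.1 (Complex.abs_re_le_norm _)).1
  have h5 : ‖deriv f 0‖ < A := by
    refine lt_of_le_of_lt hder ?_
    rw [div_lt_iff₀ (by positivity)]
    linarith
  have h6 : 0 < A + (deriv f 0).re := by linarith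
  positivity

end Pool.Agent.H83XI
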