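import Pool.Agent.W169.HF.DefsD
import Pool.Agent.W186.LH.Fac

set_option autoImplicit false

/-!
# Three circles with few zeros (helper83)

`S_TCZ` of the project GLD from `S_TC`: divide by the polynomial of the zeros.
-/

namespace Pool.Agent.H83XI

open Complex Filter Topology Metric Set
open scoped ComplexConjugate
open Pool.Agent.W169.HF

/-- maximum principle in a rectangle -/
lemma maxrect {R M : ℝ} (hR : 0 < R) {g : ℂ → ℂ} (hg : Differentiable ℂ g)
    (hb : ∀ u : ℂ, 0 ≤ u.re → u.re ≤ R → |u.im| ≤ R → (u.re = 0 ∨ u.re = R ∨ |u.im| = R) → ‖g u‖ ≤ M) :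
    ∀ u : ℂ, 0 ≤ u.re → u.re ≤ R → |u.im| ≤ R → ‖g u‖ ≤ M := by
  intro u h1 h2 h3
  have hU : Bornology.IsBounded (Ioo 0 R ×ℂ Ioo (-R) R) := by
    apply (isBounded_Ioo 0 R).reProdIm (isBounded_Ioo (-R) R)
  refine Complex.norm_le_of_forall_mem_frontier_norm_le (U := Ioo 0 R ×ℂ Ioo (-R) R) hU
    hg.diffContOnCl ?_ ?_
  · intro z hz
    rw [frontier_reProdIm, closure_Ioo hR.ne, closure_Ioo (by linarith), frontier_Ioo hR,
      frontier_Ioo (by linarith)] at hz
    rcases hz with hz | hz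
    · rw [mem_reProdIm] at hz
      obtain ⟨⟨ha, hb'⟩, hc⟩ := hz
      have hc' : |z.im| = R := by
        rcases hc with hc | hc
        · rw [hc, abs_neg, abs_of_pos hR]
        · rw [mem_singleton_iff] at hc
          rw [hc, abs_of_pos hR]
      exact hb z ha hb' hc'.le (Or.inr (Or.inr hc'))
    · rw [mem_reProdIm] at hz
      obtain ⟨ha, hc⟩ := hz
      have hc' : |z.im| ≤ R := abs_le.2 hc
      rcases ha with ha | ha
      · exact hb z (by rw [ha]) (by rw [ha]; exact hR.le) hc' (Or.inl ha)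
      · rw [mem_singleton_iff] at ha
        exact hb z (by rw [ha]; exact hR.le) (by rw [ha]) hc' (Or.inr (Or.inl ha))
  · rw [closure_reProdIm, closure_Ioo hR.ne, closure_Ioo (by linarith), mem_reProdIm]
    exact ⟨⟨h1, h2⟩, abs_le.1 h3⟩

theorem tcz_of (h : S_TC) : S_TCZ := by
  intro A b ρ κ R1 hA hb1 hb3 hρ hρ1 hκ hR1
  obtain ⟨κt, Rt, hκt, hRt, hTC⟩ := h (A + 1) (b + 1 / 2) (ρ / 2) (ρ / 2) (κ / 2) R1 (by linarith)
    (by linarith) (by linarith) (by linarith) hR1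
  obtain ⟨R, hR⟩ : ∃ R : ℝ, R = Rt + 1 := ⟨_, rfl⟩
  obtain ⟨Λ, hΛ⟩ : ∃ Λ : ℝ, Λ = 1 + Real.log (4 * R) := ⟨_, rfl⟩
  have hR2 : 2 ≤ R := by linarith
  have hΛ1 : 1 ≤ Λ := by
    rw [hΛ]
    have := Real.log_nonneg (show (1 : ℝ) ≤ 4 * R by linarith)
    linarith
  obtain ⟨κ1, hκ1⟩ : ∃ κ1 : ℝ, κ1 = min (min (ρ / 2) (1 / 2)) (min (κt / (2 * Λ)) (κ / (2 * Λ))) := ⟨_, rfl⟩
  have hκ1p : 0 < κ1 := by
    rw [hκ1]
    refine lt_min (lt_min (by linarith) (by norm_num)) (lt_min (by positivity) (by positivity))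
  have hκa : κ1 ≤ ρ / 2 := by rw [hκ1]; exact (min_le_left _ _).trans (min_le_left _ _)
  have hκb : κ1 ≤ 1 / 2 := by rw [hκ1]; exact (min_le_left _ _).trans (min_le_right _ _)
  have hκc : κ1 * (2 * Λ) ≤ κt := by
    have : κ1 ≤ κt / (2 * Λ) := by rw [hκ1]; exact (min_le_right _ _).trans (min_le_left _ _)
    rwa [le_div_iff₀ (by positivity)] at this
  have hκd : κ1 * (2 * Λ) ≤ κ := by
    have : κ1 ≤ κ / (2 * Λ) := by rw [hκ1]; exact (min_le_right _ _).trans (min_le_right _ _)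
    rwa [le_div_iff₀ (by positivity)] at this
  refine ⟨κ1, R, hκ1p, by linarith, ?_⟩
  intro ℓ H F hℓ hH hF hup htwo hcnt
  by_cases hne : ∃ u, F u ≠ 0
  swap
  · intro u _ _ _
    push Not at hne
    rw [hne u, norm_zero]
    positivity
  -- the zeros
  have hKc : IsCompact (Icc κ1 (R - 1) ×ℂ Icc (-(R - 1)) (R - 1)) := isCompact_Icc.reProdIm isCompact_Icc
  obtain ⟨Z, hZ⟩ : ∃ Z : Finset ℂ, ∀ z, z ∈ Z ↔ (κ1 ≤ z.re ∧ z.re ≤ R - 1 ∧ |z.im| ≤ R - 1) ∧ F z = 0 := by
    refine ⟨(Pool.Agent.W186.LH.zfin hF hne hKc).toFinset, fun z => ?_⟩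
    rw [Set.Finite.mem_toFinset]
    change (z ∈ _ ∧ F z = 0) ↔ _
    rw [mem_reProdIm, mem_Icc, mem_Icc, abs_le]
    tauto
  obtain ⟨g, hg, hgZ, hFg⟩ := Pool.Agent.W186.LH.fac Z hF hne
  obtain ⟨n, hn⟩ : ∃ n : ℕ, n = ∑ z ∈ Z, analyticOrderNatAt F z := ⟨_, rfl⟩
  have hnℓ : (n : ℝ) ≤ κ1 * ℓ := by
    rw [hn]
    push_cast
    refine hcnt Z fun z hz => ?_
    rw [hZ] at hz
    obtain ⟨⟨h1, h2, h3⟩, h4⟩ := hz
    exact ⟨h4, h1, by linarith, by linarith⟩
  obtain ⟨P, hP⟩ : ∃ P : ℂ → ℂ, P = fun u => ∏ z ∈ Z, (u - z) ^ (analyticOrderNatAt F z) := ⟨_, rfl⟩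
  have hFP : ∀ u, F u = P u * g u := by
    intro u
    rw [hP]
    exact hFg u
  -- bounds for P
  have hPup : ∀ u : ℂ, ∀ c : ℝ, 0 ≤ c → (∀ z ∈ Z, ‖u - z‖ ≤ c) → ‖P u‖ ≤ c ^ n := by
    intro u c _ hc
    rw [hP, hn, ← Finset.prod_pow_eq_pow_sum]
    simp only
    rw [norm_prod]
    refine Finset.prod_le_prod (fun z _ => norm_nonneg _) fun z hz => ?_
    rw [norm_pow]
    exact pow_le_pow_left₀ (norm_nonneg _) (hc z hz) _
  have hPlo : ∀ u : ℂ, ∀ c : ℝ, 0 ≤ c → (∀ z ∈ Z, c ≤ ‖u - z‖) → c ^ n ≤ ‖P u‖ := by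
    intro u c hc0 hc
    rw [hP, hn, ← Finset.prod_pow_eq_pow_sum]
    simp only
    rw [norm_prod]
    refine Finset.prod_le_prod (fun z _ => by positivity) fun z hz => ?_
    rw [norm_pow]
    exact pow_le_pow_left₀ hc0 (hc z hz) _
  have habs : ∀ u : ℂ, ‖u‖ ≤ |u.re| + |u.im| := fun u => norm_le_abs_re_add_abs_im u
  have hPbig : ∀ u : ℂ, 0 ≤ u.re → u.re ≤ R → |u.im| ≤ R → ‖P u‖ ≤ Real.exp (κ1 * ℓ * (Λ - 1)) := by
    intro u h1 h2 h3
    have h4 : ‖P u‖ ≤ (4 * R) ^ n := by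
      refine hPup u (4 * R) (by linarith) fun z hz => ?_
      rw [hZ] at hz
      obtain ⟨⟨h5, h6, h7⟩, -⟩ := hz
      have h8 := habs (u - z)
      have h9 : |(u - z).re| ≤ R := by
        rw [sub_re, abs_le]
        constructor <;> linarith
      have h10 : |(u - z).im| ≤ 2 * R := by
        rw [sub_im]
        have := abs_sub (u.im) (z.im)
        linarith
      linarith
    refine h4.trans ?_
    have h5 : (4 * R) ^ n = Real.exp (n * Real.log (4 * R)) := by
      rw [← Real.log_pow, Real.exp_log (by positivity)]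
    rw [h5, hΛ]
    apply Real.exp_le_exp.2
    have h6 := Real.log_nonneg (show (1 : ℝ) ≤ 4 * R by linarith)
    calc (n : ℝ) * Real.log (4 * R) ≤ (κ1 * ℓ) * Real.log (4 * R) := by gcongr
      _ = κ1 * ℓ * (1 + Real.log (4 * R) - 1) := by ring
  -- the quotient has no zeros
  have hnz : ∀ u : ℂ, ρ / 2 < u.re → u.re < Rt → |u.im| < Rt → g u ≠ 0 := by
    intro u h1 h2 h3 h0
    have h4 : F u = 0 := by rw [hFP, h0, mul_zero]
    have h5 : u ∈ Z := by
      rw [hZ]
      exact ⟨⟨by linarith, by linarith, by linarith⟩, h4⟩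
    exact hgZ u h5 h0
  -- the bound for the quotient in the rectangle
  have hgup : ∀ u : ℂ, 0 ≤ u.re → u.re ≤ R → |u.im| ≤ R → ‖g u‖ ≤ H * Real.exp (ℓ * u.re + (A + 1) * ℓ) := by
    have h1 := maxrect (R := R) (M := H * Real.exp ((A + 1) * ℓ)) (by linarith)
      (g := fun u => g u * cexp (-(ℓ : ℂ) * u)) (by fun_prop) ?_
    · intro u h2 h3 h4
      have h5 := h1 u h2 h3 h4
      rw [norm_mul, Complex.norm_exp] at h5
      have h6 : (-(ℓ : ℂ) * u).re = -(ℓ * u.re) := by simp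
      rw [h6] at h5
      calc ‖g u‖ = (‖g u‖ * Real.exp (-(ℓ * u.re))) * Real.exp (ℓ * u.re) := by
            rw [mul_assoc, ← Real.exp_add, neg_add_cancel, Real.exp_zero, mul_one]
        _ ≤ (H * Real.exp ((A + 1) * ℓ)) * Real.exp (ℓ * u.re) := by gcongr
        _ = H * Real.exp (ℓ * u.re + (A + 1) * ℓ) := by
            rw [mul_assoc, ← Real.exp_add]
            congr 2
            ring
    · intro u h2 h3 h4 h5
      have h6 : (-(ℓ : ℂ) * u).re = -(ℓ * u.re) := by simp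
      rw [norm_mul, Complex.norm_exp, h6]
      have h7 : κ1 ^ n ≤ ‖P u‖ := by
        refine hPlo u κ1 hκ1p.le fun z hz => ?_
        rw [hZ] at hz
        obtain ⟨⟨h8, h9, h10⟩, -⟩ := hz
        rcases h5 with h5 | h5 | h5
        · refine le_trans ?_ (abs_re_le_norm (u - z))
          rw [sub_re, h5, zero_sub, abs_neg]
          exact h8.trans (le_abs_self _)
        · refine le_trans ?_ (abs_re_le_norm (u - z))
          rw [sub_re, h5]
          refine le_trans ?_ (le_abs_self _)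
          linarith
        · refine le_trans ?_ (abs_im_le_norm (u - z))
          rw [sub_im]
          have := abs_sub_abs_le_abs_sub u.im z.im
          linarith
      have h8 : Real.exp (-ℓ) ≤ κ1 ^ n := by
        have h9 : κ1 ^ n = Real.exp (n * Real.log κ1) := by
          rw [← Real.log_pow, Real.exp_log (by positivity)]
        rw [h9]
        apply Real.exp_le_exp.2
        have h10 : Real.log κ1 ≤ 0 := Real.log_nonpos hκ1p.le (by linarith)
        have h11 : -Real.log κ1 ≤ 1 / κ1 := by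
          rw [← Real.log_inv, one_div]
          have := Real.log_le_sub_one_of_pos (inv_pos.2 hκ1p)
          linarith
        have h12 : (n : ℝ) * (-Real.log κ1) ≤ (κ1 * ℓ) * (1 / κ1) := by
          refine mul_le_mul hnℓ h11 (by linarith) (by positivity)
        have h13 : (κ1 * ℓ) * (1 / κ1) = ℓ := by field_simp
        linarith
      have h9 : 0 < ‖P u‖ := lt_of_lt_of_le (by positivity) h7
      have h10 := hup u h2 h3 h4
      rw [hFP, norm_mul] at h10
      have h11 : ‖g u‖ ≤ H * Real.exp (ℓ * u.re + A * ℓ) / Real.exp (-ℓ) := by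
        rw [le_div_iff₀ (Real.exp_pos _)]
        calc ‖g u‖ * Real.exp (-ℓ) ≤ ‖g u‖ * ‖P u‖ := by gcongr; exact h8.trans h7
          _ = ‖P u‖ * ‖g u‖ := mul_comm _ _
          _ ≤ _ := h10
      calc ‖g u‖ * Real.exp (-(ℓ * u.re)) ≤ (H * Real.exp (ℓ * u.re + A * ℓ) / Real.exp (-ℓ)) *
            Real.exp (-(ℓ * u.re)) := by gcongr
        _ = H * Real.exp ((A + 1) * ℓ) := by
            rw [div_eq_mul_inv, ← Real.exp_neg, mul_assoc, mul_assoc, ← Real.exp_add, ← Real.exp_add]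
            congr 2
            ring
  -- two-sided bound for the quotient
  have hκΛ : κ1 * Λ * ℓ ≤ κt / 2 * ℓ := by
    have : κ1 * Λ ≤ κt / 2 := by linarith
    gcongr
  have hκt1 : κ1 * ℓ ≤ κt / 2 * ℓ := by
    have : κ1 ≤ κt / 2 := by nlinarith
    gcongr
  have hg2 : ∀ u : ℂ, b + 1 / 2 < u.re → u.re < Rt → |u.im| < Rt →
      H * Real.exp (ℓ * u.re - κt * ℓ) ≤ ‖g u‖ ∧ ‖g u‖ ≤ H * Real.exp (ℓ * u.re + κt * ℓ) := by
    intro u h1 h2 h3
    obtain ⟨h4, h5⟩ := htwo u (by linarith) (by linarith) (by linarith)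
    have h6 := hPbig u (by linarith) (by linarith) (by linarith)
    have h7 : Real.exp (-(κ1 * ℓ)) ≤ ‖P u‖ := by
      refine le_trans ?_ (hPlo u (1 / 2) (by norm_num) fun z hz => ?_)
      · have h8 : ((1 : ℝ) / 2) ^ n = Real.exp (n * Real.log (1 / 2)) := by
          rw [← Real.log_pow, Real.exp_log (by positivity)]
        rw [h8]
        apply Real.exp_le_exp.2
        have h9 : -1 ≤ Real.log (1 / 2) := by
          rw [one_div, Real.log_inv]
          have := Real.log_two_lt_d9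
          linarith
        have h10 : (0 : ℝ) ≤ n := Nat.cast_nonneg _
        nlinarith
      · rw [hZ] at hz
        obtain ⟨⟨h8, h9, h10⟩, h11⟩ := hz
        have h12 : z.re < b := by
          by_contra hcon
          push Not at hcon
          have h13 := (htwo z hcon (by linarith) (by linarith)).1
          rw [h11, norm_zero] at h13
          have : 0 < H * Real.exp (ℓ * z.re - κ1 * ℓ) := by positivity
          linarith
        refine le_trans ?_ (abs_re_le_norm (u - z))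
        rw [sub_re]
        refine le_trans ?_ (le_abs_self _)
        linarith
    have hPp : 0 < ‖P u‖ := lt_of_lt_of_le (Real.exp_pos _) h7
    rw [hFP, norm_mul] at h4 h5
    constructor
    · have h8 : H * Real.exp (ℓ * u.re - κ1 * ℓ) ≤ Real.exp (κ1 * ℓ * (Λ - 1)) * ‖g u‖ :=
        h4.trans (by gcongr)
      calc H * Real.exp (ℓ * u.re - κt * ℓ) ≤ H * Real.exp (ℓ * u.re - κ1 * ℓ) *
            Real.exp (-(κ1 * ℓ * (Λ - 1))) := by
            rw [mul_assoc, ← Real.exp_add]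
            gcongr
            nlinarith
        _ ≤ (Real.exp (κ1 * ℓ * (Λ - 1)) * ‖g u‖) * Real.exp (-(κ1 * ℓ * (Λ - 1))) := by gcongr
        _ = ‖g u‖ := by
            rw [mul_comm (Real.exp (κ1 * ℓ * (Λ - 1))), mul_assoc, ← Real.exp_add, add_neg_cancel,
              Real.exp_zero, mul_one]
    · have h8 : Real.exp (-(κ1 * ℓ)) * ‖g u‖ ≤ H * Real.exp (ℓ * u.re + κ1 * ℓ) :=
        le_trans (by gcongr) h5
      calc ‖g u‖ = Real.exp (-(κ1 * ℓ)) * ‖g u‖ * Real.exp (κ1 * ℓ) := by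
            rw [mul_comm (Real.exp (-(κ1 * ℓ))), mul_assoc, ← Real.exp_add, neg_add_cancel,
              Real.exp_zero, mul_one]
        _ ≤ H * Real.exp (ℓ * u.re + κ1 * ℓ) * Real.exp (κ1 * ℓ) := by gcongr
        _ ≤ H * Real.exp (ℓ * u.re + κt * ℓ) := by
            rw [mul_assoc, ← Real.exp_add]
            refine mul_le_mul_of_nonneg_left (Real.exp_le_exp.2 ?_) hH.le
            linarith
  -- conclusion
  have hC := hTC ℓ H g hℓ hH hg hnz (fun u h1 h2 h3 => hgup u (by linarith) (by linarith) (by linarith)) hg2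
  intro u h1 h2 h3
  obtain ⟨-, h4, -⟩ := hC u (by linarith) h2 h3
  have h5 := hPbig u (by linarith) (by linarith) (by linarith)
  rw [hFP, norm_mul]
  calc ‖P u‖ * ‖g u‖ ≤ Real.exp (κ1 * ℓ * (Λ - 1)) * (H * Real.exp (ℓ * u.re + κ / 2 * ℓ)) := by gcongr
    _ = H * Real.exp (ℓ * u.re + κ / 2 * ℓ + κ1 * ℓ * (Λ - 1)) := by
        rw [mul_left_comm, ← Real.exp_add]
        congr 2
        ring
    _ ≤ H * Real.exp (ℓ * u.re + κ * ℓ) := by
        refine mul_le_mul_of_nonneg_left (Real.exp_le_exp.2 ?_) hH.le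
        have : κ1 * Λ * ℓ ≤ κ / 2 * ℓ := by
          have : κ1 * Λ ≤ κ / 2 := by linarith
          gcongr
        nlinarith [mul_pos hκ1p hℓ]

end Pool.Agent.H83XI
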