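import Pool.Agent.H83XI.Data
import Pool.Agent.W169.HF.DefsB
import Pool.Agent.W169.HF.Asm

set_option autoImplicit false

/-!
# The local data `UD` at a given height, from sharp data
-/

open Complex Set MeasureTheory intervalIntegral Filter Topology
open scoped ComplexConjugate NNReal ENNReal

namespace Pool.Agent.H83XI

open H353.E H353.F Pool.Agent.W169.HF Pool.Agent.Helper41x.Dl

variable {C B σ : ℝ} {Sg : ℝ → ℝ} {Λ γ D : ℂ → ℂ}

/-- the function at height `y`, centred at the critical line -/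
noncomputable def sh (Λ : ℂ → ℂ) (y : ℝ) (u : ℂ) : ℂ := Λ (1 / 2 + (y : ℂ) * I + u)

/-- `ℓ` at height `y` -/
noncomputable def el (D : ℂ → ℂ) (y : ℝ) : ℝ := (D (3 / 2 + (y : ℂ) * I)).re

/-- the normalising factor at height `y` -/
noncomputable def GG (γ D : ℂ → ℂ) (y : ℝ) : ℝ := ‖γ (3 / 2 + (y : ℂ) * I)‖ * Real.exp (-el D y)

theorem slow_sh (h : Slow Λ) (y : ℝ) : Slow (sh Λ y) := by
  refine ⟨?_, fun δ hδ => ?_⟩
  · unfold sh
    exact h.1.comp (by fun_prop)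
  obtain ⟨K, hK, hb⟩ := h.2 (δ / 2) (by positivity)
  obtain ⟨a, ha⟩ : ∃ a : ℂ, a = 1 / 2 + (y : ℂ) * I := ⟨_, rfl⟩
  refine ⟨K * Real.exp (δ * ‖a‖ ^ 2), by positivity, fun z => ?_⟩
  unfold sh
  rw [← ha]
  refine (hb _).trans ?_
  rw [mul_assoc, ← Real.exp_add]
  refine mul_le_mul_of_nonneg_left (Real.exp_le_exp.2 ?_) hK.le
  have h1 : ‖a + z‖ ^ 2 ≤ 2 * ‖a‖ ^ 2 + 2 * ‖z‖ ^ 2 := by
    have h2 := norm_add_le a z
    have h3 := norm_nonneg (a + z)
    nlinarith [sq_nonneg (‖a‖ - ‖z‖)]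
  nlinarith

theorem heat_sh (t : ℝ) (y : ℝ) (u : ℂ) : heat t (sh Λ y) u = heat t Λ (1 / 2 + (y : ℂ) * I + u) := by
  unfold heat sh
  congr 1
  refine integral_congr_ae (Eventually.of_forall fun v => ?_)
  simp only [add_assoc]

theorem norm_D_sub (gp : GP C Sg γ D) (y : ℝ) {z : ℂ} (hz : 1 ≤ z.re) :
    ‖D z - (el D y : ℂ)‖ ≤ C + C * ‖z - (3 / 2 + (y : ℂ) * I)‖ := by
  have h1 := gp.lipD (ρ := 1) le_rfl (s := z) (t := 3 / 2 + (y : ℂ) * I) hz (by simp; norm_num)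
  have h2 := gp.im (3 / 2 + (y : ℂ) * I) (by simp; norm_num)
  have h3 : D (3 / 2 + (y : ℂ) * I) - (el D y : ℂ) = ((D (3 / 2 + (y : ℂ) * I)).im : ℂ) * I := by
    apply Complex.ext
    · simp [el]
    · simp [el]
  have h4 : D z - (el D y : ℂ) = (D z - D (3 / 2 + (y : ℂ) * I)) + (D (3 / 2 + (y : ℂ) * I) - (el D y : ℂ)) := by
    ring
  rw [h4]
  refine (norm_add_le _ _).trans ?_
  rw [h3, norm_mul, Complex.norm_I, mul_one, Complex.norm_real, Real.norm_eq_abs]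
  rw [div_one] at h1
  linarith

/-- the gamma factor to the right of the line `Re s = 1` -/
theorem gam_two (gp : GP C Sg γ D) (hC : 1 ≤ C) (y : ℝ) {u : ℂ} (hu : 1 / 2 ≤ u.re) :
    ‖γ (1 / 2 + (y : ℂ) * I + u)‖ ≤ GG γ D y * Real.exp (el D y * u.re + 4 * C * (1 + ‖u‖ ^ 2)) ∧
    GG γ D y * Real.exp (el D y * u.re - 4 * C * (1 + ‖u‖ ^ 2)) ≤ ‖γ (1 / 2 + (y : ℂ) * I + u)‖ := by
  obtain ⟨c, hc⟩ : ∃ c : ℂ, c = 3 / 2 + (y : ℂ) * I := ⟨_, rfl⟩
  obtain ⟨v, hv⟩ : ∃ v : ℂ, v = u - 1 := ⟨_, rfl⟩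
  have e : 1 / 2 + (y : ℂ) * I + u = c + v := by rw [hc, hv]; ring
  have hcre : c.re = 3 / 2 := by rw [hc]; simp
  have hvre : v.re = u.re - 1 := by rw [hv]; simp
  have hcv : 1 ≤ (c + v).re := by rw [add_re, hcre, hvre]; linarith
  have hseg : ∀ t ∈ Icc (0:ℝ) 1, 1 ≤ (c + t * v).re := fun t ht => by
    rw [add_re, Complex.re_ofReal_mul, hcre, hvre]
    nlinarith [ht.1, ht.2]
  have hvn : ‖v‖ ≤ ‖u‖ + 1 := by
    rw [hv]
    refine (norm_sub_le _ _).trans ?_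
    rw [norm_one]
  have hv0 := norm_nonneg v
  have hu0 := norm_nonneg u
  have hquad : (C + C * ‖v‖) * ‖v‖ ≤ 4 * C * (1 + ‖u‖ ^ 2) := by
    have h1 : (1 + ‖v‖) * ‖v‖ ≤ (2 + ‖u‖) * (1 + ‖u‖) := by
      apply mul_le_mul <;> linarith
    have h2 : (2 + ‖u‖) * (1 + ‖u‖) ≤ 4 * (1 + ‖u‖ ^ 2) := by nlinarith [sq_nonneg (‖u‖ - 1)]
    have h3 : (C + C * ‖v‖) * ‖v‖ = C * ((1 + ‖v‖) * ‖v‖) := by ring
    rw [h3]
    nlinarith
  have hGG : ‖γ c‖ = GG γ D y * Real.exp (el D y) := by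
    unfold GG
    rw [← hc, mul_assoc, ← Real.exp_add]
    simp
  have hfw := gam_move gp (s := c) (v := v) (ℓ := el D y) (K := C + C * ‖v‖) (by rw [hcre]; norm_num) hcv
    (fun t ht => by
      refine (norm_D_sub gp y (hseg t ht)).trans ?_
      rw [← hc, add_sub_cancel_left, norm_mul, Complex.norm_real, Real.norm_eq_abs, abs_of_nonneg ht.1]
      have : t * ‖v‖ ≤ ‖v‖ := by nlinarith [ht.2]
      nlinarith)
  have hbw := gam_move gp (s := c + v) (v := -v) (ℓ := el D y) (K := C + C * ‖v‖) hcv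
    (by rw [add_neg_cancel_right, hcre]; norm_num)
    (fun t ht => by
      have e1 : c + v + t * -v = c + ((1 - t : ℝ) : ℂ) * v := by push_cast; ring
      have h1t : (1 - t) ∈ Icc (0:ℝ) 1 := ⟨by linarith [ht.2], by linarith [ht.1]⟩
      rw [e1]
      refine (norm_D_sub gp y (hseg _ h1t)).trans ?_
      rw [← hc, add_sub_cancel_left, norm_mul, Complex.norm_real, Real.norm_eq_abs, abs_of_nonneg h1t.1]
      have : (1 - t) * ‖v‖ ≤ ‖v‖ := by nlinarith [ht.1]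
      nlinarith)
  rw [add_neg_cancel_right, norm_neg, neg_re] at hbw
  rw [e]
  have hG0 : 0 ≤ GG γ D y := by unfold GG; positivity
  constructor
  · refine hfw.trans ?_
    rw [hGG, mul_assoc (GG γ D y), ← Real.exp_add]
    refine mul_le_mul_of_nonneg_left (Real.exp_le_exp.2 ?_) hG0
    rw [hvre]
    linarith
  · rw [hGG, mul_comm (‖γ (c + v)‖)] at hbw
    have h1 : GG γ D y * Real.exp (el D y) * Real.exp (-(el D y * -v.re + (C + C * ‖v‖) * ‖v‖)) ≤ ‖γ (c + v)‖ := by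
      have h2 := mul_le_mul_of_nonneg_right hbw (Real.exp_pos (-(el D y * -v.re + (C + C * ‖v‖) * ‖v‖))).le
      have h3 : Real.exp (el D y * -v.re + (C + C * ‖v‖) * ‖v‖) * ‖γ (c + v)‖ *
          Real.exp (-(el D y * -v.re + (C + C * ‖v‖) * ‖v‖)) = ‖γ (c + v)‖ := by
        rw [mul_right_comm, ← Real.exp_add]
        simp
      rwa [h3] at h2
    refine le_trans ?_ h1
    rw [mul_assoc (GG γ D y) (Real.exp (el D y)), ← Real.exp_add]
    refine mul_le_mul_of_nonneg_left (Real.exp_le_exp.2 ?_) hG0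
    rw [hvre]
    linarith

theorem ud_of_sharp (S : Sharp C B σ Sg Λ γ D) (hs : Slow Λ) (hσ2 : σ ≤ 5 / 2) (y : ℝ) :
    UD (5 * (B + 4 * C)) (σ - 1 / 2) (el D y) (GG γ D y) (sh Λ y) := by
  have hC := S.hC
  have hB := S.hB
  have hσ := S.hσ
  have hG : 0 < GG γ D y := by
    unfold GG
    have := norm_pos_iff.2 (S.gp.ne (3 / 2 + (y : ℂ) * I) (by simp; norm_num))
    positivity
  have hlogB : B ≤ Real.exp B := by linarith [Real.add_one_le_exp B]
  have hre : ∀ u : ℂ, (1 / 2 + (y : ℂ) * I + u).re = 1 / 2 + u.re := fun u => by simp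
  have him : ∀ u : ℂ, (1 / 2 + (y : ℂ) * I + u).im = y + u.im := fun u => by simp
  obtain ⟨ε, hε, hfe⟩ := S.fe
  have hfe' : ∀ u : ℂ, sh Λ y u = ε * conj (sh Λ y (-conj u)) := fun u => by
    unfold sh
    rw [hfe]
    congr 3
    apply Complex.ext
    · simp
      ring
    · simp
      ring
  have hright : ∀ u : ℂ, 0 ≤ u.re →
      ‖sh Λ y u‖ ≤ GG γ D y * Real.exp (el D y * max u.re (σ - 1 / 2) + 5 * (B + 4 * C) * (1 + ‖u‖ ^ 2)) := by
    intro u hu
    have hu2 : 0 ≤ ‖u‖ ^ 2 := by positivity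
    rcases le_total (σ - 1 / 2) u.re with h | h
    · rw [max_eq_left h]
      unfold sh
      refine (S.hi _ (by rw [hre]; linarith)).trans ?_
      have h1 := (gam_two S.gp hC y (u := u) (by linarith)).1
      calc B * ‖γ (1 / 2 + (y : ℂ) * I + u)‖
          ≤ Real.exp B * (GG γ D y * Real.exp (el D y * u.re + 4 * C * (1 + ‖u‖ ^ 2))) := by gcongr
        _ = GG γ D y * Real.exp (B + (el D y * u.re + 4 * C * (1 + ‖u‖ ^ 2))) := by
            rw [Real.exp_add B]; ring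
        _ ≤ _ := by
            refine mul_le_mul_of_nonneg_left (Real.exp_le_exp.2 ?_) hG.le
            nlinarith
    · rw [max_eq_right h]
      unfold sh
      have h1 := S.strip (1 / 2 + (y : ℂ) * I + u) (by rw [hre]; linarith) (by rw [hre]; linarith)
      refine h1.trans ?_
      rw [him]
      obtain ⟨u', hu'⟩ : ∃ u' : ℂ, u' = ((σ - 1 / 2 : ℝ) : ℂ) + (u.im : ℂ) * I := ⟨_, rfl⟩
      have e : (σ : ℂ) + ((y + u.im : ℝ) : ℂ) * I = 1 / 2 + (y : ℂ) * I + u' := by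
        rw [hu']; push_cast; ring
      have hu're : u'.re = σ - 1 / 2 := by rw [hu']; simp
      have hu'im : u'.im = u.im := by rw [hu']; simp
      have hn : ‖u'‖ ^ 2 ≤ 4 + ‖u‖ ^ 2 := by
        rw [Complex.sq_norm, Complex.sq_norm, Complex.normSq_apply, Complex.normSq_apply, hu're, hu'im]
        have : (σ - 1 / 2) * (σ - 1 / 2) ≤ 4 := by nlinarith
        nlinarith [mul_self_nonneg u.re]
      rw [e]
      have h2 := (gam_two S.gp hC y (u := u') (by rw [hu're]; linarith)).1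
      rw [hu're] at h2
      calc B * ‖γ (1 / 2 + (y : ℂ) * I + u')‖
          ≤ Real.exp B * (GG γ D y * Real.exp (el D y * (σ - 1 / 2) + 4 * C * (1 + ‖u'‖ ^ 2))) := by gcongr
        _ = GG γ D y * Real.exp (B + (el D y * (σ - 1 / 2) + 4 * C * (1 + ‖u'‖ ^ 2))) := by
            rw [Real.exp_add B]; ring
        _ ≤ _ := by
            refine mul_le_mul_of_nonneg_left (Real.exp_le_exp.2 ?_) hG.le
            nlinarith
  refine
    { slow := slow_sh hs y, fe := ⟨ε, hε, hfe'⟩, hG := hG, up := fun u => ?_, lo := fun u hu => ?_ }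
  · rcases le_total 0 u.re with h | h
    · have := hright u h
      rwa [abs_of_nonneg h]
    · rw [hfe' u, norm_mul, hε, one_mul, Complex.norm_conj]
      have h1 := hright (-conj u) (by simp; exact h)
      rw [neg_re, conj_re, norm_neg, Complex.norm_conj] at h1
      rwa [abs_of_nonpos h]
  · have hu2 : 0 ≤ ‖u‖ ^ 2 := by positivity
    have h1 := S.lo (1 / 2 + (y : ℂ) * I + u) (by rw [hre]; linarith)
    have h2 := (gam_two S.gp hC y (u := u) (by linarith)).2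
    have h3 : GG γ D y * Real.exp (el D y * u.re - 4 * C * (1 + ‖u‖ ^ 2)) ≤ Real.exp B * ‖sh Λ y u‖ := by
      refine (h2.trans h1).trans ?_
      unfold sh
      gcongr
    have h4 : GG γ D y * Real.exp (el D y * u.re - 4 * C * (1 + ‖u‖ ^ 2)) * Real.exp (-B) ≤ ‖sh Λ y u‖ := by
      have h5 := mul_le_mul_of_nonneg_right h3 (Real.exp_pos (-B)).le
      have h6 : Real.exp B * ‖sh Λ y u‖ * Real.exp (-B) = ‖sh Λ y u‖ := by
        rw [mul_right_comm, ← Real.exp_add]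
        simp
      rwa [h6] at h5
    refine le_trans ?_ h4
    rw [mul_assoc (GG γ D y) (Real.exp (el D y * u.re - 4 * C * (1 + ‖u‖ ^ 2))), ← Real.exp_add]
    refine mul_le_mul_of_nonneg_left (Real.exp_le_exp.2 ?_) hG.le
    nlinarith

/-! ### the size of `ℓ` for the L-function of `Δ` -/

theorem mu0 : mu 0 = -((11 / 2 : ℝ) : ℂ) := by simp [mu]

theorem mu1 : mu 1 = -((13 / 2 : ℝ) : ℂ) := by simp [mu]

theorem el_bounds (y : ℝ) (hy : 1 ≤ |y|) : |el (gaD 1 mu) y - Real.log (|y|)| ≤ 14 := by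
  have h1 := gaD_re_ge (m := 2) (N := 1) le_rfl hmu y
  have h2 := gaD_re_le (m := 2) (N := 1) le_rfl hmu y
  rw [one_mul, Fin.prod_univ_two] at h1 h2
  have hb : ∀ a : ℝ, 0 ≤ a → a ≤ 7 → |y| ≤ 1 + ‖(y : ℂ) * I - -(a : ℂ)‖ ∧
      1 + ‖(y : ℂ) * I - -(a : ℂ)‖ ≤ 9 * |y| := fun a h0 h7 => by
    constructor
    · have h3 := Complex.abs_im_le_norm ((y : ℂ) * I - -(a : ℂ))
      have e : ((y : ℂ) * I - -(a : ℂ)).im = y := by simp
      rw [e] at h3
      linarith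
    · have h1 : ‖(y : ℂ) * I - -(a : ℂ)‖ ≤ |y| + a := by
        refine (norm_sub_le _ _).trans ?_
        rw [norm_mul, Complex.norm_I, norm_neg, Complex.norm_real, Complex.norm_real, Real.norm_eq_abs,
          Real.norm_eq_abs, abs_of_nonneg h0, mul_one]
      linarith
  obtain ⟨a1, a2⟩ := hb (11 / 2) (by norm_num) (by norm_num)
  obtain ⟨b1, b2⟩ := hb (13 / 2) (by norm_num) (by norm_num)
  rw [← mu0] at a1 a2
  rw [← mu1] at b1 b2
  have hy0 : 0 < |y| := by linarith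
  have hlo : 2 * Real.log |y| ≤ Real.log ((1 + ‖(y : ℂ) * I - mu 0‖) * (1 + ‖(y : ℂ) * I - mu 1‖)) := by
    have h3 : |y| ^ 2 ≤ (1 + ‖(y : ℂ) * I - mu 0‖) * (1 + ‖(y : ℂ) * I - mu 1‖) := by
      rw [pow_two]
      exact mul_le_mul a1 b1 hy0.le (by positivity)
    have h4 := Real.log_le_log (by positivity) h3
    rw [Real.log_pow] at h4
    push_cast at h4
    exact h4
  have hup : Real.log ((1 + ‖(y : ℂ) * I - mu 0‖) * (1 + ‖(y : ℂ) * I - mu 1‖)) ≤
      2 * (Real.log 9 + Real.log |y|) := by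
    have h3 : (1 + ‖(y : ℂ) * I - mu 0‖) * (1 + ‖(y : ℂ) * I - mu 1‖) ≤ (9 * |y|) ^ 2 := by
      rw [pow_two]
      exact mul_le_mul a2 b2 (by positivity) (by positivity)
    have h4 := Real.log_le_log (by positivity) h3
    rw [Real.log_pow, Real.log_mul (by norm_num) hy0.ne'] at h4
    push_cast at h4
    exact h4
  have h9 : Real.log 9 ≤ 4 := by
    have e9 : Real.log 9 = 2 * Real.log 3 := by
      rw [show (9 : ℝ) = 3 ^ 2 by norm_num, Real.log_pow]
      push_cast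
      ring
    have h3 := Real.log_le_sub_one_of_pos (show (0:ℝ) < 3 by norm_num)
    linarith
  push_cast at h1 h2
  unfold el
  rw [abs_le]
  constructor <;> linarith

end Pool.Agent.H83XI
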